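import Pool.Agent.R433.WF.Wt
import Pool.Agent.Y837.SV.Crit3

/-! Record gaps around the values of weight vectors at the parametrised matrices, in boxes. -/

set_option autoImplicit false
set_option linter.unusedSectionVars false

namespace Pool.Agent.R433.WF

open Finset Matrix MvPolynomial
open Pool.Agent.R433.SL

/-- a nonconstant polynomial has zeros modulo infinitely many primes -/
theorem schur {d : ℕ} (G : MvPolynomial (Fin d) ℤ) (hG : ∀ k, G ≠ MvPolynomial.C k) (B : ℕ) :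
    ∃ p : ℕ, p.Prime ∧ B < p ∧ ∃ x : Fin d → ℤ, (p : ℤ) ∣ eval x G - 0 := by
  by_cases hz : ∃ u, eval u G = 0
  · obtain ⟨u, hu⟩ := hz
    obtain ⟨p, hp1, hp2⟩ := Nat.exists_infinite_primes (B + 1)
    exact ⟨p, hp2, by omega, u, by rw [hu, sub_zero]; exact dvd_zero _⟩
  push Not at hz
  obtain ⟨g, hg⟩ : ∃ g, g = eval 0 G := ⟨_, rfl⟩
  have hg0 : g ≠ 0 := by rw [hg]; exact hz 0
  obtain ⟨k, hk⟩ : ∃ k : ℤ, k = g * ((B + 1).factorial : ℤ) := ⟨_, rfl⟩
  have hk0 : k ≠ 0 := by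
    rw [hk]
    exact mul_ne_zero hg0 (by exact_mod_cast (Nat.factorial_pos _).ne')
  obtain ⟨y, hy1, hy2⟩ : ∃ y : Fin d → ℤ, eval (fun i => k * y i) G ≠ g ∧
      eval (fun i => k * y i) G ≠ -g := by
    by_contra hcon
    push Not at hcon
    have h1 : (G - MvPolynomial.C g) * (G + MvPolynomial.C g) = 0 := by
      refine MvPolynomial.funext_set (fun _ : Fin d => Set.range fun y : ℤ => k * y)
        (fun _ => Set.infinite_range_of_injective (mul_right_injective₀ hk0)) ?_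
      intro x hx
      choose y hy using fun i => hx i (Set.mem_univ i)
      have e : x = fun i => k * y i := funext fun i => (hy i).symm
      rw [map_mul, map_sub, map_add, eval_C, map_zero, e]
      by_cases h2 : eval (fun i => k * y i) G = g
      · rw [h2, sub_self, zero_mul]
      · rw [hcon y h2, neg_add_cancel, mul_zero]
    rcases mul_eq_zero.1 h1 with h2 | h2
    · exact hG _ (sub_eq_zero.1 h2)
    · exact hG (-g) (by rw [map_neg]; exact eq_neg_of_add_eq_zero_left h2)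
  have hdvd : k ∣ eval (fun i => k * y i) G - g := by
    rw [← Int.natAbs_dvd, ← ZMod.intCast_zmod_eq_zero_iff_dvd _ k.natAbs]
    have h1 : ∀ x : Fin d → ℤ, ((eval x G : ℤ) : ZMod k.natAbs) =
        aeval (fun i => ((x i : ℤ) : ZMod k.natAbs)) G := by
      intro x
      change Int.castRingHom (ZMod k.natAbs) (eval x G) = _
      rw [MvPolynomial.aeval_def, MvPolynomial.eval, MvPolynomial.coe_eval₂Hom,
        MvPolynomial.hom_eval₂]
      congr 1
    have hkz : ((k : ℤ) : ZMod k.natAbs) = 0 := by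
      rw [ZMod.intCast_zmod_eq_zero_iff_dvd]
      exact Int.natAbs_dvd.2 dvd_rfl
    rw [Int.cast_sub, hg, h1, h1, sub_eq_zero]
    congr 1
    ext i
    push_cast
    rw [hkz]
    simp
  obtain ⟨t, ht⟩ := hdvd
  have hv : eval (fun i => k * y i) G = g * (1 + ((B + 1).factorial : ℤ) * t) := by
    have : eval (fun i => k * y i) G = g + k * t := by linarith
    rw [this, hk]
    ring
  set u : ℤ := 1 + ((B + 1).factorial : ℤ) * t with hu
  have hu1 : u.natAbs ≠ 1 := by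
    intro h
    rcases Int.natAbs_eq u with h' | h'
    · rw [h, Nat.cast_one] at h'
      exact hy1 (by rw [hv, h', mul_one])
    · rw [h, Nat.cast_one] at h'
      exact hy2 (by rw [hv, h']; ring)
  refine ⟨u.natAbs.minFac, Nat.minFac_prime hu1, ?_, fun i => k * y i, ?_⟩
  · by_contra hcon
    have hp := Nat.minFac_prime hu1
    have h1 : u.natAbs.minFac ∣ (B + 1).factorial := Nat.dvd_factorial hp.pos (by omega)
    have h2 : ((u.natAbs.minFac : ℕ) : ℤ) ∣ u :=
      Int.natCast_dvd.2 (Nat.minFac_dvd _)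
    have h3 : ((u.natAbs.minFac : ℕ) : ℤ) ∣ ((B + 1).factorial : ℤ) * t :=
      (Int.natCast_dvd_natCast.2 h1).mul_right _
    have h4 : ((u.natAbs.minFac : ℕ) : ℤ) ∣ 1 := by
      have h5 := dvd_sub h2 h3
      rw [hu] at h5
      simpa using h5
    have h6 := Int.natAbs_dvd_natAbs.2 h4
    rw [Int.natAbs_natCast, Int.natAbs_one, Nat.dvd_one] at h6
    exact hp.one_lt.ne' h6
  · rw [sub_zero, hv]
    exact (Int.natCast_dvd.2 (Nat.minFac_dvd _)).mul_left _

variable {m d q : ℕ} {C : ℝ} {P : Matrix (Fin m) (Fin m) (MvPolynomial (Fin d) ℤ)}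
  {hdet : P.det = 1}

theorem single_x (hC : 0 ≤ C) (hU : Unif P hdet q C) {F : MvPolynomial (Fin m × Fin m) ℤ}
    (hF : EQ F) : ∃ C₁ : ℝ, 0 ≤ C₁ ∧ ∃ B : ℕ, ∀ (p : ℕ) [Fact p.Prime], B < p → ∀ r : ZMod p, r ≠ 0 →
      |(p : ℝ) * ((univ.filter fun x : Fin d → ZMod p => aeval x (ev P F) = r).card : ℝ) -
        (p : ℝ) ^ d| * Real.sqrt p ≤ C₁ * (p : ℝ) ^ d := by
  classical
  obtain ⟨K, hK, B, hKB⟩ := hF
  refine ⟨K + C, by positivity, B + q, ?_⟩
  intro p hp hBp r hr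
  have hpp := (Fact.out : p.Prime)
  have h0 := hKB p (by omega) r hr
  have hlow := hU p (by omega)
  have hε0 : 0 ≤ C / (p : ℝ) ^ 2 := by positivity
  have h3 := low_count hlow (fun A => ev A.1 F = r)
  have h4 := low_upper hlow hε0 (fun A => ev A.1 F = r)
  have e1 : ∀ inst : DecidablePred fun x : Fin d → ZMod p => ev (sp P hdet x).1 F = r,
      @Finset.filter _ (fun x : Fin d → ZMod p => ev (sp P hdet x).1 F = r) inst univ =
      univ.filter (fun x : Fin d → ZMod p => aeval x (ev P F) = r) := fun inst => by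
    ext x
    rw [mem_filter, mem_filter, aeval_sp (hdet := hdet)]
  obtain ⟨SN, hSN⟩ : ∃ SN : Finset (SpecialLinearGroup (Fin m) (ZMod p)),
      SN = univ.filter (fun A : SpecialLinearGroup (Fin m) (ZMod p) => ev A.1 F = r) := ⟨_, rfl⟩
  have e2 : ∀ inst : DecidablePred fun A : SpecialLinearGroup (Fin m) (ZMod p) => ev A.1 F = r,
      @Finset.filter _ (fun A : SpecialLinearGroup (Fin m) (ZMod p) => ev A.1 F = r) inst univ =
      SN := fun inst => by
    rw [hSN]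
    congr!
  rw [e1, e2, Fintype.card_fun, ZMod.card, Fintype.card_fin] at h3 h4
  rw [← hSN] at h0
  set M : ℝ := ((univ.filter fun x : Fin d → ZMod p => aeval x (ev P F) = r).card : ℝ) with hM
  set N : ℝ := (SN.card : ℝ) with hN
  set G : ℝ := (Fintype.card (SpecialLinearGroup (Fin m) (ZMod p)) : ℝ) with hG
  have hNG : N ≤ G := by
    rw [hN, hG]
    exact_mod_cast Finset.card_le_univ SN
  have hG0 : 0 < G := by rw [hG]; exact_mod_cast Fintype.card_pos
  have hp2 : (2 : ℝ) ≤ p := by exact_mod_cast hpp.two_le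
  have hN0 : 0 ≤ N := Nat.cast_nonneg _
  push_cast at h3 h4
  set D : ℝ := (p : ℝ) ^ d with hD
  have hpd : (0 : ℝ) < D := by positivity
  have hCp : C / (p : ℝ) ^ 2 * p ^ 2 = C := by field_simp
  have hp0 : (0 : ℝ) < p := by linarith
  set ε : ℝ := C / (p : ℝ) ^ 2 with hε
  have hs0 : 0 ≤ Real.sqrt p := Real.sqrt_nonneg _
  have hsq : Real.sqrt p * Real.sqrt p = p := Real.mul_self_sqrt (by linarith)
  have hs1 : Real.sqrt p ≤ p := by
    have : 1 ≤ Real.sqrt p := by rw [Real.one_le_sqrt]; linarith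
    nlinarith
  set σ := Real.sqrt p with hσ
  have hεp : ε * p * σ ≤ C := by
    calc ε * p * σ ≤ ε * p * p := mul_le_mul_of_nonneg_left hs1 (by positivity)
      _ = C := by rw [← hCp]; ring
  have habs := abs_le.1 (le_refl |(p : ℝ) * N - G|)
  have hup : G * ((p : ℝ) * M - D) * σ ≤ G * ((K + C) * D) := by
    calc G * ((p : ℝ) * M - D) * σ = (p * (G * M) - G * D) * σ := by ring
      _ ≤ (p * (N * D + ε * (G * D)) - G * D) * σ := by
          apply mul_le_mul_of_nonneg_right _ hs0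
          have := mul_le_mul_of_nonneg_left h4 hp0.le
          linarith
      _ = ((p * N - G) * σ) * D + (ε * p * σ) * (G * D) := by ring
      _ ≤ (K * G) * D + C * (G * D) := by
          apply add_le_add
          · apply mul_le_mul_of_nonneg_right _ hpd.le
            exact (mul_le_mul_of_nonneg_right (le_abs_self _) hs0).trans h0
          · exact mul_le_mul_of_nonneg_right hεp (by positivity)
      _ = _ := by ring
  have hlo : G * (D - (p : ℝ) * M) * σ ≤ G * ((K + C) * D) := by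
    calc G * (D - (p : ℝ) * M) * σ = (G * D - p * (G * M)) * σ := by ring
      _ ≤ (G * D - p * ((1 - ε) * N * D)) * σ := by
          apply mul_le_mul_of_nonneg_right _ hs0
          have := mul_le_mul_of_nonneg_left h3 hp0.le
          linarith
      _ = (-(p * N - G) * σ) * D + (ε * p * σ) * (N * D) := by ring
      _ ≤ (K * G) * D + C * (G * D) := by
          apply add_le_add
          · apply mul_le_mul_of_nonneg_right _ hpd.le
            exact (mul_le_mul_of_nonneg_right (neg_le_abs _) hs0).trans h0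
          · refine mul_le_mul hεp ?_ (by positivity) hC
            exact mul_le_mul_of_nonneg_right hNG hpd.le
      _ = _ := by ring
  have hup' : ((p : ℝ) * M - D) * σ ≤ (K + C) * D := by
    refine le_of_mul_le_mul_left ?_ hG0
    calc G * (((p : ℝ) * M - D) * σ) = G * ((p : ℝ) * M - D) * σ := by ring
      _ ≤ _ := hup
  have hlo' : (D - (p : ℝ) * M) * σ ≤ (K + C) * D := by
    refine le_of_mul_le_mul_left ?_ hG0
    calc G * ((D - (p : ℝ) * M) * σ) = G * (D - (p : ℝ) * M) * σ := by ring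
      _ ≤ _ := hlo
  rcases abs_cases ((p : ℝ) * M - D) with ⟨h, -⟩ | ⟨h, -⟩
  · rw [h]
    exact hup'
  · rw [h, neg_sub]
    exact hlo'

theorem pair_x (hC : 0 ≤ C) (hU : Unif P hdet q C) {F₁ F₂ : MvPolynomial (Fin m × Fin m) ℤ}
    (hb : PB F₁ F₂) :
    ∃ C₁ : ℝ, 0 ≤ C₁ ∧ ∃ B : ℕ, ∀ (p : ℕ) [Fact p.Prime], B < p → ∀ r s : ZMod p, r ≠ 0 → s ≠ 0 →
      (p : ℝ) ^ 2 * ((univ.filter fun x : Fin d → ZMod p => aeval x (ev P F₁) = r ∧
        aeval x (ev P F₂) = s).card : ℝ) ≤ C₁ * (p : ℝ) ^ d := by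
  classical
  obtain ⟨K, B, hKB⟩ := hb
  refine ⟨2 * K + C, by positivity, B + q, ?_⟩
  intro p hp hBp r s hr hs
  have hpp := (Fact.out : p.Prime)
  have h1 := hKB p (by omega) r s hr hs
  have hlow := hU p (by omega)
  have hε0 : 0 ≤ C / (p : ℝ) ^ 2 := by positivity
  have h4 := low_upper hlow hε0 (fun A => ev A.1 F₁ = r ∧ ev A.1 F₂ = s)
  have e1 : ∀ inst : DecidablePred fun x : Fin d → ZMod p => ev (sp P hdet x).1 F₁ = r ∧
      ev (sp P hdet x).1 F₂ = s,
      @Finset.filter _ (fun x : Fin d → ZMod p => ev (sp P hdet x).1 F₁ = r ∧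
        ev (sp P hdet x).1 F₂ = s) inst univ =
      univ.filter (fun x : Fin d → ZMod p => aeval x (ev P F₁) = r ∧
        aeval x (ev P F₂) = s) := fun inst => by
    ext x
    rw [mem_filter, mem_filter, aeval_sp (hdet := hdet), aeval_sp (hdet := hdet)]
  obtain ⟨SN, hSN⟩ : ∃ SN : Finset (SpecialLinearGroup (Fin m) (ZMod p)),
      SN = univ.filter (fun A : SpecialLinearGroup (Fin m) (ZMod p) => ev A.1 F₁ = r ∧
        ev A.1 F₂ = s) := ⟨_, rfl⟩
  have e2 : ∀ inst : DecidablePred fun A : SpecialLinearGroup (Fin m) (ZMod p) =>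
      ev A.1 F₁ = r ∧ ev A.1 F₂ = s,
      @Finset.filter _ (fun A : SpecialLinearGroup (Fin m) (ZMod p) => ev A.1 F₁ = r ∧
        ev A.1 F₂ = s) inst univ = SN := fun inst => by
    rw [hSN]
    congr!
  rw [e1, e2, Fintype.card_fun, ZMod.card, Fintype.card_fin] at h4
  rw [← hSN] at h1
  set M : ℝ := ((univ.filter fun x : Fin d → ZMod p => aeval x (ev P F₁) = r ∧
        aeval x (ev P F₂) = s).card : ℝ) with hM
  set N : ℝ := (SN.card : ℝ) with hN
  set G : ℝ := (Fintype.card (SpecialLinearGroup (Fin m) (ZMod p)) : ℝ) with hG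
  have hG0 : 0 < G := by rw [hG]; exact_mod_cast Fintype.card_pos
  have hp2 : (2 : ℝ) ≤ p := by exact_mod_cast hpp.two_le
  have hp0 : (0 : ℝ) < p := by linarith
  have hN0 : 0 ≤ N := Nat.cast_nonneg _
  have hsub : (((p - 1 : ℕ) : ℝ)) = p - 1 := by
    rw [Nat.cast_sub hpp.one_le, Nat.cast_one]
  have h1' : (p : ℝ) * ((p : ℝ) - 1) * N ≤ K * G := by
    rw [← hsub, hN, hG]; exact_mod_cast h1
  push_cast at h4
  set D : ℝ := (p : ℝ) ^ d with hD
  have hpd : (0 : ℝ) < D := by positivity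
  have hCp : C / (p : ℝ) ^ 2 * p ^ 2 = C := by field_simp
  set ε : ℝ := C / (p : ℝ) ^ 2 with hε
  have a1 : (p : ℝ) ^ 2 * N ≤ 2 * K * G := by
    have b1 : (p : ℝ) ^ 2 ≤ 2 * (p * (p - 1)) := by nlinarith
    calc (p : ℝ) ^ 2 * N ≤ 2 * (p * (p - 1)) * N := mul_le_mul_of_nonneg_right b1 hN0
      _ = 2 * (p * (p - 1) * N) := by ring
      _ ≤ 2 * (K * G) := by linarith
      _ = _ := by ring
  have a2 : (p : ℝ) ^ 2 * (G * M) ≤ (p : ℝ) ^ 2 * (N * D + ε * (G * D)) :=
    mul_le_mul_of_nonneg_left h4 (by positivity)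
  have a3 : (p : ℝ) ^ 2 * (N * D + ε * (G * D)) = (p : ℝ) ^ 2 * N * D + (ε * p ^ 2) * (G * D) := by
    ring
  rw [a3, hCp] at a2
  have a4 : (p : ℝ) ^ 2 * N * D ≤ 2 * K * G * D := mul_le_mul_of_nonneg_right a1 hpd.le
  refine le_of_mul_le_mul_left ?_ hG0
  calc G * ((p : ℝ) ^ 2 * M) = (p : ℝ) ^ 2 * (G * M) := by ring
    _ ≤ (p : ℝ) ^ 2 * N * D + C * (G * D) := a2
    _ ≤ 2 * K * G * D + C * (G * D) := by linarith
    _ = _ := by ring

theorem rpow_half (p : ℕ) (hp : 0 < p) {x C₁ D : ℝ} (h : x * Real.sqrt p ≤ C₁ * D) :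
    x ≤ C₁ * D * (p : ℝ) ^ (-(1 / 2 : ℝ)) := by
  have hp0 : (0 : ℝ) < p := by exact_mod_cast hp
  rw [Real.rpow_neg hp0.le, ← Real.sqrt_eq_rpow, ← div_eq_mul_inv,
    le_div_iff₀ (Real.sqrt_pos.2 hp0)]
  exact h

theorem box {ι : Type} [Fintype ι] (hC : 0 ≤ C) (hU : Unif P hdet q C)
    (F : ι → MvPolynomial (Fin m × Fin m) ℤ) (hnc : ∀ j k, ev P (F j) ≠ MvPolynomial.C k)
    (hE : ∀ j, EQ (F j)) (hpb : ∀ i j, i ≠ j → PB (F i) (F j)) :
    ∃ c : ℝ, 0 < c ∧ ∃ Z₀ : ℝ, ∀ Z : ℕ, Z₀ ≤ Z → ∀ M : Fin d → ℤ, ∃ x : Fin d → ℤ,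
      (∀ i, M i < x i ∧ x i ≤ M i + Z) ∧ ∀ j, ∀ n : ℤ,
        |(n : ℝ) - eval x (ev P (F j))| ≤ c * Pool.Agent.H256R2.SC.ff Z →
        ∃ p : ℕ, p.Prime ∧ (p : ℝ) ≤ (Z : ℝ) ^ (1 / 10 : ℝ) ∧ (p : ℤ) ∣ n := by
  classical
  have h2 : ∀ i j, ∃ C₁ : ℝ, 0 ≤ C₁ ∧ ∃ B : ℕ, i ≠ j → ∀ (p : ℕ) [Fact p.Prime], B < p →
      ∀ r s : ZMod p, r ≠ 0 → s ≠ 0 →
      (p : ℝ) ^ 2 * ((univ.filter fun x : Fin d → ZMod p => aeval x (ev P (F i)) = r ∧
        aeval x (ev P (F j)) = s).card : ℝ) ≤ C₁ * (p : ℝ) ^ d := by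
    intro i j
    by_cases hij : i = j
    · exact ⟨0, le_rfl, 0, fun h => absurd hij h⟩
    · obtain ⟨C₁, hC₁, B, h⟩ := pair_x hC hU (hpb i j hij)
      exact ⟨C₁, hC₁, B, fun _ => h⟩
  choose C₁ hC₁ B₁ hB₁ using fun j => single_x hC hU (hE j)
  choose C₂ hC₂ B₂ hB₂ using h2
  obtain ⟨K, hK⟩ : ∃ K : ℝ, K = ∑ j, C₁ j + ∑ i, ∑ j, C₂ i j := ⟨_, rfl⟩
  obtain ⟨B₀, hB₀⟩ : ∃ B₀ : ℕ, B₀ = ∑ j, B₁ j + ∑ i, ∑ j, B₂ i j := ⟨_, rfl⟩
  have hs1 : 0 ≤ ∑ j, C₁ j := Finset.sum_nonneg fun j _ => hC₁ j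
  have hs2 : 0 ≤ ∑ i, ∑ j, C₂ i j :=
    Finset.sum_nonneg fun i _ => Finset.sum_nonneg fun j _ => hC₂ i j
  have hK1 : ∀ j, C₁ j ≤ K := by
    intro j
    have := Finset.single_le_sum (f := C₁) (fun j _ => hC₁ j) (mem_univ j)
    rw [hK]
    linarith
  have hK2 : ∀ i j, C₂ i j ≤ K := by
    intro i j
    have a4 := Finset.single_le_sum (f := fun j => C₂ i j) (fun j _ => hC₂ i j) (mem_univ j)
    have a5 := Finset.single_le_sum (f := fun i => ∑ j, C₂ i j)
      (fun i _ => Finset.sum_nonneg fun j _ => hC₂ i j) (mem_univ i)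
    rw [hK]
    linarith
  have hb1 : ∀ j, B₁ j ≤ B₀ := by
    intro j
    have := Finset.single_le_sum (f := B₁) (fun j _ => Nat.zero_le _) (mem_univ j)
    rw [hB₀]
    omega
  have hb2 : ∀ i j, B₂ i j ≤ B₀ := by
    intro i j
    have a4 := Finset.single_le_sum (f := fun j => B₂ i j) (fun j _ => Nat.zero_le _) (mem_univ j)
    have a5 := Finset.single_le_sum (f := fun i => ∑ j, B₂ i j)
      (fun i _ => Nat.zero_le _) (mem_univ i)
    rw [hB₀]
    omega
  refine Pool.Agent.Y837.SV.crit3 d (fun j => ev P (F j)) ?_ (fun _ => {0}) ?_ B₀ K (1 / 2)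
    (by norm_num) ?_ ?_
  · intro j c
    exact hnc j c
  · intro j r hr B
    rw [mem_singleton] at hr
    rw [hr]
    exact schur _ (hnc j) B
  · intro p hp hBp j r hr
    have : Fact p.Prime := ⟨hp⟩
    have hr0 : r ≠ 0 := by
      have := hr 0 (mem_singleton_self _)
      simpa using this
    have h3 := hB₁ j p (lt_of_le_of_lt (hb1 j) hBp) r hr0
    rw [Nat.card_eq_fintype_card, Fintype.card_subtype]
    refine rpow_half p hp.pos (le_trans ?_ (h3.trans ?_))
    · exact le_of_eq (by congr!)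
    · exact mul_le_mul_of_nonneg_right (hK1 j) (by positivity)
  · intro p hp hBp i j hij r s hr hs
    have : Fact p.Prime := ⟨hp⟩
    have hr0 : r ≠ 0 := by
      have := hr 0 (mem_singleton_self _)
      simpa using this
    have hs0 : s ≠ 0 := by
      have := hs 0 (mem_singleton_self _)
      simpa using this
    have h3 := hB₂ i j hij p (lt_of_le_of_lt (hb2 i j) hBp) r s hr0 hs0
    rw [Nat.card_eq_fintype_card, Fintype.card_subtype]
    refine le_trans ?_ (h3.trans ?_)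
    · exact le_of_eq (by congr!)
    · exact mul_le_mul_of_nonneg_right (hK2 i j) (by positivity)

end Pool.Agent.R433.WF
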