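import Mathlib

/-! Conjugates of a matrix over a finite field: counting by means of elementary matrices. -/

set_option autoImplicit false
set_option linter.unusedSectionVars false

namespace Pool.Agent.R433.WF

open Finset Matrix

theorem orbit_card {G K : Type} [Field K] [Fintype K] [DecidableEq K] [Group G] [DecidableEq G]
    (T : K → G) (hT : ∀ s t, T s * T t = T (s + t)) (hT0 : T 0 = 1)
    (S : Finset G) (hS : ∀ t, ∀ A ∈ S, T t * A ∈ S) (Ψ u : G → K)
    (hu : ∀ t, ∀ A ∈ S, u (T t * A) = u A) (hΨ : ∀ t, ∀ A ∈ S, Ψ (T t * A) = Ψ A + t * u A)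
    (hu0 : ∀ A ∈ S, u A ≠ 0) (r : K) :
    Fintype.card K * (S.filter fun A => Ψ A = r).card = S.card := by
  rw [← Finset.card_univ, ← card_product]
  apply Finset.card_bij (fun z _ => T z.1 * z.2)
  · intro z hz
    rw [mem_product, mem_filter] at hz
    exact hS _ _ hz.2.1
  · intro z hz z' hz' h
    rw [mem_product, mem_filter] at hz hz'
    have h1 := congrArg u h
    have h2 := congrArg Ψ h
    simp only [hu _ _ hz.2.1, hu _ _ hz'.2.1] at h1
    simp only [hΨ _ _ hz.2.1, hΨ _ _ hz'.2.1, hz.2.2, hz'.2.2] at h2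
    have h3 : z.1 = z'.1 := by
      rw [h1] at h2
      exact mul_right_cancel₀ (hu0 _ hz'.2.1) (add_left_cancel h2)
    refine Prod.ext h3 ?_
    rw [h3] at h
    exact mul_left_cancel h
  · intro B hB
    have hd := hu0 B hB
    refine ⟨((Ψ B - r) / u B, T (-((Ψ B - r) / u B)) * B), ?_, ?_⟩
    · rw [mem_product, mem_filter]
      refine ⟨mem_univ _, hS _ _ hB, ?_⟩
      rw [hΨ _ _ hB]
      field_simp
      ring
    · change T _ * (T _ * B) = B
      rw [← mul_assoc, hT, add_neg_cancel, hT0, one_mul]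

section conj

variable {m : ℕ} {K : Type} [Field K]

/-- elementary matrices -/
def tv (a b : Fin m) (h : a ≠ b) (t : K) : SpecialLinearGroup (Fin m) K :=
  ⟨transvection a b t, det_transvection_of_ne a b h t⟩

theorem tv_mul (a b : Fin m) (h : a ≠ b) (s t : K) :
    tv a b h s * tv a b h t = tv a b h (s + t) :=
  Subtype.ext (transvection_mul_transvection_same a b h s t)

theorem tv_zero (a b : Fin m) (h : a ≠ b) : tv a b h (0 : K) = 1 :=
  Subtype.ext (transvection_zero a b)

theorem tv_inv (a b : Fin m) (h : a ≠ b) (t : K) : (tv a b h t)⁻¹ = tv a b h (-t) := by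
  apply inv_eq_of_mul_eq_one_right
  rw [tv_mul, add_neg_cancel, tv_zero]

/-- the conjugate -/
def Yc (X : Matrix (Fin m) (Fin m) K) (A : SpecialLinearGroup (Fin m) K) :
    Matrix (Fin m) (Fin m) K := A.1 * X * (A⁻¹).1

theorem Yc_tv (X : Matrix (Fin m) (Fin m) K) (A : SpecialLinearGroup (Fin m) K) (i k : Fin m)
    (h : i ≠ k) (t : K) :
    Yc X (tv i k h t * A) = transvection i k t * Yc X A * transvection i k (-t) := by
  unfold Yc
  rw [_root_.mul_inv_rev, tv_inv]
  change transvection i k t * A.1 * X * ((A⁻¹).1 * transvection i k (-t)) = _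
  simp only [Matrix.mul_assoc]

theorem Yc_ne (X : Matrix (Fin m) (Fin m) K) (A : SpecialLinearGroup (Fin m) K) (i k : Fin m)
    (h : i ≠ k) (t : K) {a b : Fin m} (ha : a ≠ i) (hb : b ≠ k) :
    Yc X (tv i k h t * A) a b = Yc X A a b := by
  rw [Yc_tv, mul_transvection_apply_of_ne _ _ _ _ hb, transvection_mul_apply_of_ne _ _ _ _ ha]

theorem Yc_row (X : Matrix (Fin m) (Fin m) K) (A : SpecialLinearGroup (Fin m) K) (i k : Fin m)
    (h : i ≠ k) (t : K) {b : Fin m} (hb : b ≠ k) :
    Yc X (tv i k h t * A) i b = Yc X A i b + t * Yc X A k b := by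
  rw [Yc_tv, mul_transvection_apply_of_ne _ _ _ _ hb, transvection_mul_apply_same]

theorem Yc_col (X : Matrix (Fin m) (Fin m) K) (A : SpecialLinearGroup (Fin m) K) (i k : Fin m)
    (h : i ≠ k) (t : K) {a : Fin m} (ha : a ≠ i) :
    Yc X (tv i k h t * A) a k = Yc X A a k - t * Yc X A a i := by
  rw [Yc_tv, mul_transvection_apply_same, transvection_mul_apply_of_ne _ _ _ _ ha,
    transvection_mul_apply_of_ne _ _ _ _ ha]
  ring

variable [Fintype K] [DecidableEq K] (X : Matrix (Fin m) (Fin m) K) {κ n : ℕ}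

theorem bd_R (hz : ∀ i j : Fin m, i ≠ j → Fintype.card K *
      (univ.filter fun A : SpecialLinearGroup (Fin m) K => Yc X A i j = 0).card ≤ κ * n)
    (i : Fin m) (r : K) (he : Fintype.card K ^ 2 * (univ.filter fun A : SpecialLinearGroup (Fin m) K =>
      (∀ k, k ≠ i → Yc X A k i = 0) ∧ Yc X A i i = r).card ≤ n) (k : Fin m) (hk : k ≠ i) :
    Fintype.card K ^ 2 * (univ.filter fun A : SpecialLinearGroup (Fin m) K =>
      Yc X A k i = 0 ∧ Yc X A i i = r).card ≤ (m * κ + 1) * n := by
  classical
  let E := univ.filter fun A : SpecialLinearGroup (Fin m) K =>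
    (∀ k, k ≠ i → Yc X A k i = 0) ∧ Yc X A i i = r
  let W : Fin m → Finset (SpecialLinearGroup (Fin m) K) := fun l =>
    univ.filter fun A : SpecialLinearGroup (Fin m) K => (Yc X A k i = 0 ∧ Yc X A l i ≠ 0) ∧ Yc X A i i = r
  have hsub : (univ.filter fun A : SpecialLinearGroup (Fin m) K =>
      Yc X A k i = 0 ∧ Yc X A i i = r) ⊆ E ∪ (univ.erase i).biUnion W := by
    intro A hA
    rw [mem_filter] at hA
    rw [mem_union, mem_biUnion]
    by_cases h : ∀ k, k ≠ i → Yc X A k i = 0
    · exact Or.inl (mem_filter.2 ⟨mem_univ _, h, hA.2.2⟩)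
    · push Not at h
      obtain ⟨l, hl1, hl2⟩ := h
      exact Or.inr ⟨l, mem_erase.2 ⟨hl1, mem_univ _⟩, mem_filter.2 ⟨mem_univ _, ⟨hA.2.1, hl2⟩, hA.2.2⟩⟩
  have hW : ∀ l ∈ univ.erase i, Fintype.card K ^ 2 * (W l).card ≤ κ * n := by
    intro l hl
    have hli : i ≠ l := (mem_erase.1 hl).1.symm
    have h1 := orbit_card (tv i l hli) (tv_mul i l hli) (tv_zero i l hli)
      (univ.filter fun A : SpecialLinearGroup (Fin m) K => Yc X A k i = 0 ∧ Yc X A l i ≠ 0)
      (by
        intro t A hA
        rw [mem_filter] at hA ⊢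
        rw [Yc_ne X A i l hli t hk hli, Yc_ne X A i l hli t hli.symm hli]
        exact ⟨mem_univ _, hA.2⟩)
      (fun A => Yc X A i i) (fun A => Yc X A l i)
      (fun t A _ => Yc_ne X A i l hli t hli.symm hli)
      (fun t A _ => Yc_row X A i l hli t hli)
      (fun A hA => (mem_filter.1 hA).2.2) r
    rw [Finset.filter_filter] at h1
    have h2 : (univ.filter fun A : SpecialLinearGroup (Fin m) K =>
        Yc X A k i = 0 ∧ Yc X A l i ≠ 0).card ≤
        (univ.filter fun A : SpecialLinearGroup (Fin m) K => Yc X A k i = 0).card :=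
      Finset.card_le_card (Finset.monotone_filter_right _ fun A _ h => h.1)
    calc Fintype.card K ^ 2 * (W l).card =
          Fintype.card K * (Fintype.card K * (W l).card) := by ring
      _ ≤ Fintype.card K * (univ.filter fun A : SpecialLinearGroup (Fin m) K => Yc X A k i = 0).card :=
          Nat.mul_le_mul_left _ (by rw [← h1] at h2; exact h2)
      _ ≤ κ * n := hz k i hk
  calc Fintype.card K ^ 2 * (univ.filter fun A : SpecialLinearGroup (Fin m) K =>
        Yc X A k i = 0 ∧ Yc X A i i = r).card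
      ≤ Fintype.card K ^ 2 * (E.card + ∑ l ∈ univ.erase i, (W l).card) :=
        Nat.mul_le_mul_left _ ((Finset.card_le_card hsub).trans ((Finset.card_union_le _ _).trans
          (Nat.add_le_add_left Finset.card_biUnion_le _)))
    _ = Fintype.card K ^ 2 * E.card + ∑ l ∈ univ.erase i, Fintype.card K ^ 2 * (W l).card := by
        rw [mul_add, Finset.mul_sum]
    _ ≤ n + ∑ _l ∈ univ.erase i, κ * n := add_le_add he (Finset.sum_le_sum hW)
    _ ≤ n + m * (κ * n) := by
        rw [Finset.sum_const, smul_eq_mul]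
        refine Nat.add_le_add_left (Nat.mul_le_mul_right _ ?_) _
        exact (Finset.card_le_univ _).trans (by rw [Fintype.card_fin])
    _ = (m * κ + 1) * n := by ring

theorem cnt_ii (i k : Fin m) (hk : k ≠ i) (r : K) :
    Fintype.card K * (univ.filter fun A : SpecialLinearGroup (Fin m) K => Yc X A i i = r).card +
      (univ.filter fun A : SpecialLinearGroup (Fin m) K => Yc X A k i = 0).card =
    Fintype.card (SpecialLinearGroup (Fin m) K) + Fintype.card K *
      (univ.filter fun A : SpecialLinearGroup (Fin m) K => Yc X A k i = 0 ∧ Yc X A i i = r).card := by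
  classical
  have h1 := orbit_card (tv i k hk.symm) (tv_mul i k hk.symm) (tv_zero i k hk.symm)
      (univ.filter fun A : SpecialLinearGroup (Fin m) K => Yc X A k i ≠ 0)
      (by
        intro t A hA
        rw [mem_filter] at hA ⊢
        rw [Yc_ne X A i k hk.symm t hk hk.symm]
        exact ⟨mem_univ _, hA.2⟩)
      (fun A => Yc X A i i) (fun A => Yc X A k i)
      (fun t A _ => Yc_ne X A i k hk.symm t hk hk.symm)
      (fun t A _ => Yc_row X A i k hk.symm t hk.symm)
      (fun A hA => (mem_filter.1 hA).2) r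
  rw [Finset.filter_filter] at h1
  have h2 : (univ.filter fun A : SpecialLinearGroup (Fin m) K => Yc X A k i = 0).card +
      (univ.filter fun A : SpecialLinearGroup (Fin m) K => Yc X A k i ≠ 0).card =
      Fintype.card (SpecialLinearGroup (Fin m) K) := by
    rw [Finset.card_filter_add_card_filter_not, Finset.card_univ]
  have h3 : (univ.filter fun A : SpecialLinearGroup (Fin m) K => Yc X A i i = r).card =
      (univ.filter fun A : SpecialLinearGroup (Fin m) K => Yc X A k i = 0 ∧ Yc X A i i = r).card +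
      (univ.filter fun A : SpecialLinearGroup (Fin m) K => Yc X A k i ≠ 0 ∧ Yc X A i i = r).card := by
    rw [← Finset.card_union_of_disjoint]
    · congr 1
      ext A
      rw [mem_union, mem_filter, mem_filter, mem_filter]
      by_cases h : Yc X A k i = 0
      · simp [h]
      · simp [h]
    · rw [Finset.disjoint_filter]
      intro A _ h h'
      exact h'.1 h.1
  rw [h3, mul_add, h1, ← h2]
  ring

theorem bd_sum (hz : ∀ i j : Fin m, i ≠ j → Fintype.card K *
      (univ.filter fun A : SpecialLinearGroup (Fin m) K => Yc X A i j = 0).card ≤ κ * n)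
    (hn : Fintype.card (SpecialLinearGroup (Fin m) K) = n) (i j k : Fin m) (hj : j ≠ i)
    (hk : k ≠ i) (hkj : k ≠ j) (c : K) :
    Fintype.card K * (univ.filter fun A : SpecialLinearGroup (Fin m) K =>
      Yc X A i i + Yc X A j j = c).card ≤ (κ + 1) * n := by
  classical
  have h1 := orbit_card (tv i k hk.symm) (tv_mul i k hk.symm) (tv_zero i k hk.symm)
      (univ.filter fun A : SpecialLinearGroup (Fin m) K => Yc X A k i ≠ 0)
      (by
        intro t A hA
        rw [mem_filter] at hA ⊢
        rw [Yc_ne X A i k hk.symm t hk hk.symm]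
        exact ⟨mem_univ _, hA.2⟩)
      (fun A => Yc X A i i + Yc X A j j) (fun A => Yc X A k i)
      (fun t A _ => Yc_ne X A i k hk.symm t hk hk.symm)
      (fun t A _ => by
        rw [Yc_row X A i k hk.symm t hk.symm, Yc_ne X A i k hk.symm t hj hkj.symm]
        ring)
      (fun A hA => (mem_filter.1 hA).2) c
  rw [Finset.filter_filter] at h1
  have h2 : (univ.filter fun A : SpecialLinearGroup (Fin m) K => Yc X A k i ≠ 0).card ≤ n := by
    rw [← hn]
    exact Finset.card_le_univ _
  have h3 : (univ.filter fun A : SpecialLinearGroup (Fin m) K =>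
      Yc X A i i + Yc X A j j = c) ⊆
      (univ.filter fun A : SpecialLinearGroup (Fin m) K =>
        Yc X A k i ≠ 0 ∧ Yc X A i i + Yc X A j j = c) ∪
      (univ.filter fun A : SpecialLinearGroup (Fin m) K => Yc X A k i = 0) := by
    intro A hA
    rw [mem_filter] at hA
    rw [mem_union, mem_filter, mem_filter]
    by_cases h : Yc X A k i = 0
    · exact Or.inr ⟨mem_univ _, h⟩
    · exact Or.inl ⟨mem_univ _, h, hA.2⟩
  calc _ ≤ Fintype.card K * ((univ.filter fun A : SpecialLinearGroup (Fin m) K =>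
        Yc X A k i ≠ 0 ∧ Yc X A i i + Yc X A j j = c).card +
      (univ.filter fun A : SpecialLinearGroup (Fin m) K => Yc X A k i = 0).card) :=
        Nat.mul_le_mul_left _ ((Finset.card_le_card h3).trans (Finset.card_union_le _ _))
    _ ≤ n + κ * n := by
        rw [mul_add, h1]
        exact add_le_add h2 (hz k i hk)
    _ = (κ + 1) * n := by ring

theorem bd_dd (hz : ∀ i j : Fin m, i ≠ j → Fintype.card K *
      (univ.filter fun A : SpecialLinearGroup (Fin m) K => Yc X A i j = 0).card ≤ κ * n)
    (he : ∀ (i : Fin m) (r : K), Fintype.card K ^ 2 *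
      (univ.filter fun A : SpecialLinearGroup (Fin m) K =>
      (∀ k, k ≠ i → Yc X A k i = 0) ∧ Yc X A i i = r).card ≤ n)
    (hn : Fintype.card (SpecialLinearGroup (Fin m) K) = n) (i j k : Fin m) (hj : j ≠ i)
    (hk : k ≠ i) (hkj : k ≠ j) (r s : K) :
    Fintype.card K ^ 2 * (univ.filter fun A : SpecialLinearGroup (Fin m) K =>
      Yc X A i i = r ∧ Yc X A j j = s).card ≤ ((m + 1) * κ + 2) * n := by
  classical
  have h1 := orbit_card (tv i j hj.symm) (tv_mul i j hj.symm) (tv_zero i j hj.symm)
      (univ.filter fun A : SpecialLinearGroup (Fin m) K =>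
        Yc X A j i ≠ 0 ∧ Yc X A i i + Yc X A j j = r + s)
      (by
        intro t A hA
        rw [mem_filter] at hA ⊢
        rw [Yc_ne X A i j hj.symm t hj hj.symm, Yc_row X A i j hj.symm t hj.symm,
          Yc_col X A i j hj.symm t hj]
        refine ⟨mem_univ _, hA.2.1, ?_⟩
        rw [← hA.2.2]
        ring)
      (fun A => Yc X A i i) (fun A => Yc X A j i)
      (fun t A _ => Yc_ne X A i j hj.symm t hj hj.symm)
      (fun t A _ => Yc_row X A i j hj.symm t hj.symm)
      (fun A hA => (mem_filter.1 hA).2.1) r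
  rw [Finset.filter_filter] at h1
  have h2 : (univ.filter fun A : SpecialLinearGroup (Fin m) K =>
        Yc X A j i ≠ 0 ∧ Yc X A i i + Yc X A j j = r + s).card ≤
      (univ.filter fun A : SpecialLinearGroup (Fin m) K => Yc X A i i + Yc X A j j = r + s).card :=
    Finset.card_le_card (Finset.monotone_filter_right _ fun A _ h => h.2)
  have h3 := bd_sum X hz hn i j k hj hk hkj (r + s)
  have h4 := bd_R X hz i r (he i r) j hj
  have h5 : (univ.filter fun A : SpecialLinearGroup (Fin m) K =>
      Yc X A i i = r ∧ Yc X A j j = s) ⊆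
      (univ.filter fun A : SpecialLinearGroup (Fin m) K =>
        (Yc X A j i ≠ 0 ∧ Yc X A i i + Yc X A j j = r + s) ∧ Yc X A i i = r) ∪
      (univ.filter fun A : SpecialLinearGroup (Fin m) K => Yc X A j i = 0 ∧ Yc X A i i = r) := by
    intro A hA
    rw [mem_filter] at hA
    rw [mem_union, mem_filter, mem_filter]
    by_cases h : Yc X A j i = 0
    · exact Or.inr ⟨mem_univ _, h, hA.2.1⟩
    · exact Or.inl ⟨mem_univ _, ⟨h, by rw [hA.2.1, hA.2.2]⟩, hA.2.1⟩
  have h6 := (Finset.card_le_card h5).trans (Finset.card_union_le _ _)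
  have h7 : Fintype.card K ^ 2 * (univ.filter fun A : SpecialLinearGroup (Fin m) K =>
        (Yc X A j i ≠ 0 ∧ Yc X A i i + Yc X A j j = r + s) ∧ Yc X A i i = r).card ≤
        (κ + 1) * n := by
    rw [pow_two, mul_assoc, h1]
    exact (Nat.mul_le_mul_left _ h2).trans h3
  calc _ ≤ Fintype.card K ^ 2 * ((univ.filter fun A : SpecialLinearGroup (Fin m) K =>
        (Yc X A j i ≠ 0 ∧ Yc X A i i + Yc X A j j = r + s) ∧ Yc X A i i = r).card +
      (univ.filter fun A : SpecialLinearGroup (Fin m) K => Yc X A j i = 0 ∧ Yc X A i i = r).card) :=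
        Nat.mul_le_mul_left _ h6
    _ ≤ (κ + 1) * n + (m * κ + 1) * n := by
        rw [mul_add]
        exact add_le_add h7 h4
    _ = ((m + 1) * κ + 2) * n := by ring

end conj

end Pool.Agent.R433.WF
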