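import Pool.Agent.R433.WF.ConjA

/-! Eigenspaces of codimension at least two, modulo the large primes. -/

set_option autoImplicit false
set_option linter.unusedSectionVars false

namespace Pool.Agent.R433.WF

open Finset Matrix

section poly

open Polynomial

theorem clear (c : ℚ[X]) : ∃ b : ℤ, b ≠ 0 ∧ ∃ a : ℤ[X],
    a.map (algebraMap ℤ ℚ) = Polynomial.C (b : ℚ) * c := by
  induction c using Polynomial.induction_on' with
  | add f g hf hg =>
    obtain ⟨b, hb, a, ha⟩ := hf
    obtain ⟨b', hb', a', ha'⟩ := hg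
    refine ⟨b * b', mul_ne_zero hb hb', Polynomial.C b' * a + Polynomial.C b * a', ?_⟩
    rw [Polynomial.map_add, Polynomial.map_mul, Polynomial.map_mul, ha, ha', Polynomial.map_C,
      Polynomial.map_C]
    push_cast
    simp only [eq_intCast, map_mul]
    ring
  | monomial n q =>
    refine ⟨q.den, by exact_mod_cast q.den_ne_zero, Polynomial.monomial n q.num, ?_⟩
    rw [Polynomial.map_monomial, Polynomial.C_mul_monomial]
    congr 1
    rw [eq_intCast]
    push_cast
    exact (Rat.den_mul_eq_num q).symm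

theorem bezout {ι : Type} [Fintype ι] (M : ι → ℤ[X])
    (hM : ∀ z : ℂ, ∃ s, Polynomial.aeval z (M s) ≠ 0) :
    ∃ N : ℤ, N ≠ 0 ∧ ∃ a : ι → ℤ[X], ∑ s, a s * M s = Polynomial.C N := by
  classical
  let J : Ideal ℚ[X] := Ideal.span (Set.range fun s => (M s).map (algebraMap ℤ ℚ))
  have hJ : J = ⊤ := by
    by_contra hJ
    obtain ⟨g, hg⟩ : ∃ g, J = Ideal.span {g} := by
      have := (IsPrincipalIdealRing.principal J).principal
      obtain ⟨g, hg⟩ := this
      exact ⟨g, hg⟩
    have hgu : ¬ IsUnit g := by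
      intro h
      apply hJ
      rw [hg]
      exact Ideal.span_singleton_eq_top.2 h
    have hdeg : g.degree ≠ 0 := by
      intro h
      exact hgu (Polynomial.isUnit_iff_degree_eq_zero.2 h)
    obtain ⟨z, hz⟩ := IsAlgClosed.exists_aeval_eq_zero ℂ g hdeg
    obtain ⟨s, hs⟩ := hM z
    apply hs
    have h1 : (M s).map (algebraMap ℤ ℚ) ∈ J := Ideal.subset_span ⟨s, rfl⟩
    rw [hg, Ideal.mem_span_singleton] at h1
    obtain ⟨u, hu⟩ := h1
    have h2 : Polynomial.aeval z ((M s).map (algebraMap ℤ ℚ)) = 0 := by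
      rw [hu, map_mul, hz, zero_mul]
    rwa [Polynomial.aeval_map_algebraMap] at h2
  have h1 : (1 : ℚ[X]) ∈ J := by rw [hJ]; trivial
  obtain ⟨c, hc⟩ := Ideal.mem_span_range_iff_exists_fun.1 h1
  choose b hb a ha using fun s => clear (c s)
  refine ⟨∏ s, b s, Finset.prod_ne_zero_iff.2 fun s _ => hb s,
    fun s => Polynomial.C (∏ s' ∈ univ.erase s, b s') * a s, ?_⟩
  apply Polynomial.map_injective (algebraMap ℤ ℚ) (by intro a b h; simpa using h)
  rw [Polynomial.map_sum]
  have h2 : ∀ s, (Polynomial.C (∏ s' ∈ univ.erase s, b s') * a s * M s).map (algebraMap ℤ ℚ) =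
      Polynomial.C (((∏ s, b s : ℤ)) : ℚ) * (c s * (M s).map (algebraMap ℤ ℚ)) := by
    intro s
    rw [Polynomial.map_mul, Polynomial.map_mul, ha, Polynomial.map_C,
      ← Finset.mul_prod_erase univ b (mem_univ s), eq_intCast]
    push_cast
    simp only [map_mul]
    ring
  rw [Finset.sum_congr rfl fun s _ => h2 s, ← Finset.mul_sum, hc, mul_one, Polynomial.map_C,
    eq_intCast]

end poly

variable {m : ℕ}

/-- the matrix `T - X` as a function of `T` -/
noncomputable def dm (X : Matrix (Fin m) (Fin m) ℤ) (i j : Fin m) : Polynomial ℤ :=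
  (if i = j then Polynomial.X else 0) - Polynomial.C (X i j)

theorem aeval_dm {R : Type} [CommRing R] (X : Matrix (Fin m) (Fin m) ℤ) (i j : Fin m) (z : R) :
    Polynomial.aeval z (dm X i j) = (if i = j then z else 0) - ((X i j : ℤ) : R) := by
  unfold dm
  rw [map_sub, Polynomial.aeval_C, eq_intCast]
  congr 1
  split_ifs
  · exact Polynomial.aeval_X z
  · exact map_zero _

/-- the minors -/
noncomputable def mn (X : Matrix (Fin m) (Fin m) ℤ) (s : (Fin m × Fin m) × (Fin m × Fin m)) :
    Polynomial ℤ :=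
  dm X s.1.1 s.2.1 * dm X s.1.2 s.2.2 - dm X s.1.1 s.2.2 * dm X s.1.2 s.2.1

/-- not the sum of a scalar matrix and of a matrix of rank at most one -/
def Big (X : Matrix (Fin m) (Fin m) ℤ) : Prop :=
  ∀ (z : ℂ) (a b : Fin m → ℂ), X.map (fun x : ℤ => (x : ℂ)) ≠ z • 1 + vecMulVec a b

theorem big_minor {X : Matrix (Fin m) (Fin m) ℤ} (hX : Big X) (z : ℂ) :
    ∃ s, Polynomial.aeval z (mn X s) ≠ 0 := by
  classical
  by_contra hcon
  push Not at hcon
  have h1 : ∀ i k j l : Fin m, ((if i = j then z else 0) - ((X i j : ℤ) : ℂ)) *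
      ((if k = l then z else 0) - ((X k l : ℤ) : ℂ)) =
      ((if i = l then z else 0) - ((X i l : ℤ) : ℂ)) *
      ((if k = j then z else 0) - ((X k j : ℤ) : ℂ)) := by
    intro i k j l
    have := hcon ((i, k), (j, l))
    unfold mn at this
    rw [map_sub, map_mul, map_mul, aeval_dm, aeval_dm, aeval_dm, aeval_dm, sub_eq_zero] at this
    exact this
  by_cases h0 : ∃ k l : Fin m, (if k = l then z else 0) - ((X k l : ℤ) : ℂ) ≠ 0
  · obtain ⟨k, l, hkl⟩ := h0
    apply hX z (fun i => -((if i = l then z else 0) - ((X i l : ℤ) : ℂ)))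
      (fun j => ((if k = j then z else 0) - ((X k j : ℤ) : ℂ)) /
        ((if k = l then z else 0) - ((X k l : ℤ) : ℂ)))
    ext i j
    have h2 := h1 i k j l
    have h3 : (if i = j then z else 0) - ((X i j : ℤ) : ℂ) =
        ((if i = l then z else 0) - ((X i l : ℤ) : ℂ)) *
        (((if k = j then z else 0) - ((X k j : ℤ) : ℂ)) /
        ((if k = l then z else 0) - ((X k l : ℤ) : ℂ))) := by
      rw [← mul_div_assoc, ← h2, mul_div_cancel_right₀ _ hkl]
    simp only [map_apply, Matrix.add_apply, Matrix.smul_apply, vecMulVec_apply, one_apply,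
      smul_eq_mul]
    rw [neg_mul, ← h3]
    split_ifs <;> ring
  · push Not at h0
    apply hX z 0 0
    ext i j
    have := h0 i j
    simp only [map_apply, Matrix.add_apply, Matrix.smul_apply, vecMulVec_apply, one_apply,
      smul_eq_mul, Pi.zero_apply]
    split_ifs at this ⊢
    · linear_combination -this
    · linear_combination -this

section ker

variable {K : Type} [Field K] [Fintype K] [DecidableEq K]

theorem ker_card (D : Matrix (Fin m) (Fin m) K) (i k j l : Fin m)
    (h : D i j * D k l - D i l * D k j ≠ 0) :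
    (univ.filter fun v : Fin m → K => D *ᵥ v = 0).card ≤ Fintype.card K ^ (m - 2) := by
  classical
  have hjl : j ≠ l := by
    intro hjl
    apply h
    rw [hjl]
    ring
  have hcard : Fintype.card ({x : Fin m // x ≠ j ∧ x ≠ l} → K) = Fintype.card K ^ (m - 2) := by
    rw [Fintype.card_fun]
    congr 1
    rw [Fintype.card_subtype]
    have : (univ.filter fun x : Fin m => x ≠ j ∧ x ≠ l) = (univ.erase j).erase l := by
      ext x
      simp [and_comm]
    rw [this, card_erase_of_mem (mem_erase.2 ⟨hjl.symm, mem_univ _⟩),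
      card_erase_of_mem (mem_univ _), card_univ, Fintype.card_fin]
    omega
  rw [← hcard, ← Finset.card_univ]
  apply Finset.card_le_card_of_injOn (fun v x => v x.1) (fun _ _ => mem_coe.2 (mem_univ _))
  intro v hv v' hv' hvv
  rw [mem_coe, mem_filter] at hv hv'
  have hd : ∀ x, x ≠ j → x ≠ l → v x - v' x = 0 := by
    intro x hx1 hx2
    have := congrFun hvv ⟨x, hx1, hx2⟩
    simp only at this
    rw [this, sub_self]
  have hD : ∀ a, D a j * (v j - v' j) + D a l * (v l - v' l) = 0 := by
    intro a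
    have h1 : (D *ᵥ (v - v')) a = 0 := by
      rw [mulVec_sub, hv.2, hv'.2, sub_zero]
      rfl
    have h2 : (D *ᵥ (v - v')) a = ∑ x, D a x * (v x - v' x) := rfl
    rw [h2, Finset.sum_eq_add j l hjl] at h1
    · exact h1
    · intro x _ hx
      rw [hd x hx.1 hx.2, mul_zero]
    · exact fun h => absurd (mem_univ _) h
    · exact fun h => absurd (mem_univ _) h
  have e1 := hD i
  have e2 := hD k
  have f1 : (D i j * D k l - D i l * D k j) * (v j - v' j) = 0 := by
    linear_combination D k l * e1 - D i l * e2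
  have f2 : (D i j * D k l - D i l * D k j) * (v l - v' l) = 0 := by
    linear_combination D i j * e2 - D k j * e1
  have g1 := (mul_eq_zero.1 f1).resolve_left h
  have g2 := (mul_eq_zero.1 f2).resolve_left h
  funext x
  by_cases hx1 : x = j
  · rw [hx1]
    exact sub_eq_zero.1 g1
  · by_cases hx2 : x = l
    · rw [hx2]
      exact sub_eq_zero.1 g2
    · exact sub_eq_zero.1 (hd x hx1 hx2)

end ker

/-- the eigenspaces modulo the large primes -/
theorem big_mod {X : Matrix (Fin m) (Fin m) ℤ} (hX : Big X) :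
    ∃ B : ℕ, ∀ (p : ℕ) [Fact p.Prime], B < p → ∀ r : ZMod p,
      (univ.filter fun v : Fin m → ZMod p =>
        X.map (fun x : ℤ => (x : ZMod p)) *ᵥ v = r • v).card ≤ p ^ (m - 2) := by
  classical
  obtain ⟨N, hN, a, ha⟩ := bezout (mn X) (big_minor hX)
  refine ⟨N.natAbs, ?_⟩
  intro p hp hB r
  have h1 : ((N : ℤ) : ZMod p) ≠ 0 := by
    intro h
    rw [ZMod.intCast_zmod_eq_zero_iff_dvd] at h
    have h1 := Int.natAbs_dvd_natAbs.2 h
    rw [Int.natAbs_natCast] at h1
    have h2 := Nat.le_of_dvd (Int.natAbs_pos.2 hN) h1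
    omega
  obtain ⟨s, hs⟩ : ∃ s, Polynomial.aeval r (mn X s) ≠ 0 := by
    by_contra hcon
    push Not at hcon
    apply h1
    have h2 := congrArg (Polynomial.aeval r) ha
    rw [map_sum, Polynomial.aeval_C, eq_intCast] at h2
    rw [← h2]
    refine Finset.sum_eq_zero fun s _ => ?_
    rw [map_mul, hcon s, mul_zero]
  let D : Matrix (Fin m) (Fin m) (ZMod p) :=
    of fun i j => (if i = j then r else 0) - ((X i j : ℤ) : ZMod p)
  have h2 : D s.1.1 s.2.1 * D s.1.2 s.2.2 - D s.1.1 s.2.2 * D s.1.2 s.2.1 ≠ 0 := by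
    unfold mn at hs
    rw [map_sub, map_mul, map_mul, aeval_dm, aeval_dm, aeval_dm, aeval_dm] at hs
    exact hs
  have h3 := ker_card D _ _ _ _ h2
  rw [ZMod.card] at h3
  refine le_trans (Finset.card_le_card ?_) h3
  intro v hv
  rw [mem_filter] at hv ⊢
  refine ⟨mem_univ _, ?_⟩
  have h4 : D = r • 1 - X.map (fun x : ℤ => (x : ZMod p)) := by
    ext i j
    simp only [D, of_apply, Matrix.sub_apply, Matrix.smul_apply, one_apply, map_apply, smul_eq_mul]
    split_ifs <;> simp
  rw [h4, sub_mulVec, hv.2, smul_mulVec, one_mulVec, sub_self]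

end Pool.Agent.R433.WF
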