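import Pool.Agent.R433.WF.Wt

/-! The coefficients of a form after a linear substitution. -/

set_option autoImplicit false
set_option linter.unusedSectionVars false

namespace Pool.Agent.R433.WF

open Finset Matrix MvPolynomial
open Pool.Agent.R433.SL

variable {m : ℕ}

/-- the form `f (x A)` -/
noncomputable def sb {R : Type} [CommRing R] (A : Matrix (Fin m) (Fin m) R)
    (f : MvPolynomial (Fin m) ℤ) : MvPolynomial (Fin m) R :=
  aeval (fun k => ∑ i, MvPolynomial.C (A i k) * X i) f

/-- its coefficients as polynomials in the entries of `A` -/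
noncomputable def gc (f : MvPolynomial (Fin m) ℤ) (α : Fin m →₀ ℕ) :
    MvPolynomial (Fin m × Fin m) ℤ :=
  coeff α (sb (mvPolynomialX (Fin m) (Fin m) ℤ) f)

theorem ev_gc {R : Type} [CommRing R] (A : Matrix (Fin m) (Fin m) R) (f : MvPolynomial (Fin m) ℤ)
    (α : Fin m →₀ ℕ) : ev A (gc f α) = coeff α (sb A f) := by
  obtain ⟨φ, hφ⟩ : ∃ φ : MvPolynomial (Fin m × Fin m) ℤ →ₐ[ℤ] R,
      φ = aeval (fun a : Fin m × Fin m => A a.1 a.2) := ⟨_, rfl⟩
  have h1 : mapAlgHom (σ := Fin m) φ (sb (mvPolynomialX (Fin m) (Fin m) ℤ) f) = sb A f := by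
    unfold sb
    refine (comp_aeval_apply _ (mapAlgHom (σ := Fin m) φ) f).trans ?_
    congr 2
    funext k
    rw [map_sum]
    refine Finset.sum_congr rfl fun i _ => ?_
    rw [map_mul]
    change MvPolynomial.map (φ : MvPolynomial (Fin m × Fin m) ℤ →+* R) _ *
      MvPolynomial.map (φ : MvPolynomial (Fin m × Fin m) ℤ →+* R) _ = _
    rw [map_C, map_X, mvPolynomialX_apply]
    congr 2
    rw [hφ]
    exact aeval_X _ _
  rw [← h1]
  change ev A (gc f α) = coeff α (MvPolynomial.map (φ : MvPolynomial (Fin m × Fin m) ℤ →+* R) _)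
  rw [coeff_map, hφ]
  rfl

theorem coeff_scale {R : Type} [CommRing R] (t : Fin m → R) (g : MvPolynomial (Fin m) R)
    (α : Fin m →₀ ℕ) :
    coeff α (aeval (fun i => MvPolynomial.C (t i) * X i : Fin m → MvPolynomial (Fin m) R) g) =
      (∏ i, t i ^ α i) * coeff α g := by
  classical
  induction g using MvPolynomial.induction_on' with
  | add p q hp hq => rw [map_add, coeff_add, coeff_add, hp, hq, mul_add]
  | monomial β a =>
    rw [aeval_monomial]
    have h1 : (β.prod fun i k => (MvPolynomial.C (t i) * X i : MvPolynomial (Fin m) R) ^ k) =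
        MvPolynomial.C (∏ i, t i ^ β i) * ∏ i, (X i : MvPolynomial (Fin m) R) ^ β i := by
      rw [Finsupp.prod_fintype _ _ (fun i => pow_zero _), map_prod, ← Finset.prod_mul_distrib]
      refine Finset.prod_congr rfl fun i _ => ?_
      rw [mul_pow, map_pow]
    have h2 : monomial β (a * ∏ i, t i ^ β i) = algebraMap R (MvPolynomial (Fin m) R) a *
        (β.prod fun i k => (MvPolynomial.C (t i) * X i : MvPolynomial (Fin m) R) ^ k) := by
      rw [h1, monomial_eq, Finsupp.prod_fintype _ _ (fun i => pow_zero _), map_mul, mul_assoc]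
      rfl
    rw [← h2, coeff_monomial, coeff_monomial]
    by_cases h : β = α
    · rw [if_pos h, if_pos h, h, mul_comm]
    · rw [if_neg h, if_neg h, mul_zero]

theorem sb_diag {R : Type} [CommRing R] (t : Fin m → R) (A : Matrix (Fin m) (Fin m) R)
    (f : MvPolynomial (Fin m) ℤ) : sb (diagonal t * A) f =
      aeval (fun i => MvPolynomial.C (t i) * X i : Fin m → MvPolynomial (Fin m) R) (sb A f) := by
  unfold sb
  have h1 := comp_aeval_apply (fun k => ∑ i, MvPolynomial.C (A i k) * X i)
    ((aeval (fun i => MvPolynomial.C (t i) * X i : Fin m → MvPolynomial (Fin m) R) :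
      MvPolynomial (Fin m) R →ₐ[R] MvPolynomial (Fin m) R).restrictScalars ℤ) f
  refine Eq.trans ?_ h1.symm
  congr 2
  funext k
  rw [AlgHom.restrictScalars_apply, map_sum]
  refine Finset.sum_congr rfl fun i _ => ?_
  rw [map_mul, diagonal_mul, aeval_X, aeval_C, map_mul]
  change _ = MvPolynomial.C (A i k) * _
  ring

theorem isWt_gc (f : MvPolynomial (Fin m) ℤ) (α : Fin m →₀ ℕ) : IsWt (gc f α) (fun i => α i) := by
  intro p hp t A
  rw [ev_gc, ev_gc, sb_diag, coeff_scale]

theorem hom_scale {R : Type} [CommRing R] {f : MvPolynomial (Fin m) ℤ} {D : ℕ}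
    (hf : f.IsHomogeneous D) (v : Fin m → ℤ) (S : MvPolynomial (Fin m) R) :
    aeval (fun k => MvPolynomial.C ((v k : ℤ) : R) * S) f =
      MvPolynomial.C ((eval v f : ℤ) : R) * S ^ D := by
  rw [aeval_def, eval₂_eq', eval_eq']
  push_cast
  rw [map_sum, Finset.sum_mul]
  refine Finset.sum_congr rfl fun β hβ => ?_
  have h1 : ∑ i, β i = D := by
    have := hf (mem_support_iff.1 hβ)
    rw [← this, Finsupp.weight_apply, Finsupp.sum_fintype _ _ (fun i => by simp)]
    simp
  have h2 : ∏ i, (MvPolynomial.C ((v i : ℤ) : R) * S) ^ β i =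
      MvPolynomial.C (∏ i, ((v i : ℤ) : R) ^ β i) * S ^ D := by
    rw [← h1, ← Finset.prod_pow_eq_pow_sum, map_prod, ← Finset.prod_mul_distrib]
    refine Finset.prod_congr rfl fun i _ => ?_
    rw [mul_pow, map_pow]
  rw [h2, map_mul, mul_assoc]
  congr 1

theorem gc_ne {f : MvPolynomial (Fin m) ℤ} {D : ℕ} (hf : f.IsHomogeneous D) (hf0 : f ≠ 0)
    (α : Fin m →₀ ℕ) (hα : ∑ i, α i = D) : gc f α ≠ 0 := by
  intro h
  obtain ⟨v, hv⟩ : ∃ v : Fin m → ℤ, eval v f ≠ 0 := by
    by_contra hcon
    push Not at hcon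
    exact hf0 (MvPolynomial.funext fun x => by rw [hcon x, map_zero])
  have h1 := ev_gc (R := ℤ) (of fun _ k => v k) f α
  rw [h] at h1
  have h2 : sb (R := ℤ) (of fun _ k => v k) f =
      MvPolynomial.C (eval v f) * (∑ i, X i) ^ D := by
    have := hom_scale (R := ℤ) hf v (∑ i, X i)
    simp only [Int.cast_id] at this
    rw [← this]
    unfold sb
    congr 2
    funext k
    rw [Finset.mul_sum]
    rfl
  rw [h2, coeff_C_mul, coeff_sum_X_pow_of_fintype] at h1
  have h3 : (α.sum fun _ k => k) = D := by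
    rw [Finsupp.sum_fintype _ _ (fun _ => rfl), hα]
  rw [if_pos h3] at h1
  have h4 : α.multinomial ≠ 0 := (Nat.multinomial_pos _ _).ne'
  have h5 : ev (of fun _ k => v k) (0 : MvPolynomial (Fin m × Fin m) ℤ) = 0 := map_zero _
  rw [h5] at h1
  have h6 : eval v f * ((α.multinomial : ℕ) : ℤ) ≠ 0 := mul_ne_zero hv (by exact_mod_cast h4)
  exact h6 h1.symm

theorem cast_eval {σ : Type} (n : ℕ) (x : σ → ℤ) (G : MvPolynomial σ ℤ) :
    ((eval x G : ℤ) : ZMod n) = aeval (fun i => ((x i : ℤ) : ZMod n)) G := by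
  change Int.castRingHom (ZMod n) (eval x G) = _
  rw [MvPolynomial.aeval_def, MvPolynomial.eval, MvPolynomial.coe_eval₂Hom,
    MvPolynomial.hom_eval₂]
  congr 1

theorem nz_of_ne {F : MvPolynomial (Fin m × Fin m) ℤ} (hF : F ≠ 0) {w : Fin m → ℕ}
    (hw : IsWt F w) (hm : 0 < m) : NZ F := by
  classical
  have hH : F * (mvPolynomialX (Fin m) (Fin m) ℤ).det ≠ 0 :=
    mul_ne_zero hF (det_mvPolynomialX_ne_zero (Fin m) ℤ)
  obtain ⟨x, hx⟩ : ∃ x : Fin m × Fin m → ℤ,
      eval x (F * (mvPolynomialX (Fin m) (Fin m) ℤ).det) ≠ 0 := by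
    by_contra hcon
    push Not at hcon
    exact hH (MvPolynomial.funext fun x => by rw [hcon x, map_zero])
  refine ⟨(eval x (F * (mvPolynomialX (Fin m) (Fin m) ℤ).det)).natAbs, ?_⟩
  intro p hp hB
  have h1 : ((eval x (F * (mvPolynomialX (Fin m) (Fin m) ℤ).det) : ℤ) : ZMod p) ≠ 0 := by
    intro h
    rw [ZMod.intCast_zmod_eq_zero_iff_dvd] at h
    have h1 := Int.natAbs_dvd_natAbs.2 h
    rw [Int.natAbs_natCast] at h1
    have h2 := Nat.le_of_dvd (Int.natAbs_pos.2 hx) h1
    omega
  rw [cast_eval, map_mul] at h1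
  set A : Matrix (Fin m) (Fin m) (ZMod p) := of fun i j => ((x (i, j) : ℤ) : ZMod p) with hA
  have h2 : aeval (fun i => ((x i : ℤ) : ZMod p)) (mvPolynomialX (Fin m) (Fin m) ℤ).det = A.det := by
    have h3 := mvPolynomialX_mapMatrix_aeval (R := ℤ) A
    have h4 := (AlgHom.map_det (aeval fun a : Fin m × Fin m => A a.1 a.2)
      (mvPolynomialX (Fin m) (Fin m) ℤ) :
      aeval (fun a : Fin m × Fin m => A a.1 a.2) (mvPolynomialX (Fin m) (Fin m) ℤ).det = _)
    rw [h3] at h4
    exact h4
  rw [h2] at h1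
  have hdet : A.det ≠ 0 := right_ne_zero_of_mul h1
  have hF1 : ev A F ≠ 0 := left_ne_zero_of_mul h1
  let a : Fin m := ⟨0, hm⟩
  let t : Fin m → ZMod p := fun i => if i = a then A.det⁻¹ else 1
  have ht : ∀ i, t i ≠ 0 := by
    intro i
    by_cases h : i = a
    · simp only [t, if_pos h]
      exact inv_ne_zero hdet
    · simp only [t, if_neg h]
      exact one_ne_zero
  have hprod : ∏ i, t i = A.det⁻¹ := by
    rw [Finset.prod_eq_single a (fun i _ hi => if_neg hi) (fun h => absurd (mem_univ _) h)]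
    exact if_pos rfl
  refine ⟨⟨diagonal t * A, by rw [det_mul, det_diagonal, hprod, inv_mul_cancel₀ hdet]⟩, ?_⟩
  change ev (diagonal t * A) F ≠ 0
  rw [hw p t A]
  exact mul_ne_zero (Finset.prod_ne_zero_iff.2 fun i _ => pow_ne_zero _ (ht i)) hF1

/-- the coefficient of the power of a variable is the value at the row -/
theorem ev_gc_single {R : Type} [CommRing R] {f : MvPolynomial (Fin m) ℤ} {D : ℕ}
    (hf : f.IsHomogeneous D) (A : Matrix (Fin m) (Fin m) R) (i : Fin m) :
    ev A (gc f (Finsupp.single i D)) = aeval (A i) f := by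
  classical
  rw [ev_gc]
  have hg : (sb A f).IsHomogeneous D := by
    have := hf.aeval (fun k => ∑ i, MvPolynomial.C (A i k) * X i) (n := 1) (fun k => by
      refine IsHomogeneous.sum _ _ _ fun j _ => ?_
      have := (isHomogeneous_C (Fin m) (A j k)).mul (isHomogeneous_X R j)
      rwa [zero_add] at this)
    rwa [one_mul] at this
  have h1 : eval (Pi.single i (1 : R)) (sb A f) = coeff (Finsupp.single i D) (sb A f) := by
    rw [eval_eq']
    have h2 : ∀ β ∈ (sb A f).support, coeff β (sb A f) * ∏ j, (Pi.single i (1 : R) : Fin m → R) j ^ β j =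
        if β = Finsupp.single i D then coeff β (sb A f) else 0 := by
      intro β hβ
      have h3 : ∑ j, β j = D := by
        have := hg (mem_support_iff.1 hβ)
        rw [← this, Finsupp.weight_apply, Finsupp.sum_fintype _ _ (fun i => by simp)]
        simp
      by_cases h : β = Finsupp.single i D
      · rw [if_pos h, Finset.prod_eq_one, mul_one]
        intro j _
        by_cases hj : j = i
        · rw [hj, Pi.single_eq_same, one_pow]
        · rw [h, Finsupp.single_eq_of_ne hj, pow_zero]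
      · rw [if_neg h]
        obtain ⟨j, hj, hj0⟩ : ∃ j, j ≠ i ∧ β j ≠ 0 := by
          by_contra hcon
          push Not at hcon
          apply h
          have h4 : β i = D := by
            rw [← h3]
            exact (Finset.sum_eq_single i (fun j _ hj => hcon j hj)
              (fun h => absurd (mem_univ _) h)).symm
          ext j
          by_cases hj : j = i
          · rw [hj, h4, Finsupp.single_eq_same]
          · rw [hcon j hj, Finsupp.single_eq_of_ne hj]
        rw [Finset.prod_eq_zero (mem_univ j), mul_zero]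
        rw [Pi.single_eq_of_ne hj, zero_pow hj0]
    rw [Finset.sum_congr rfl h2, Finset.sum_ite_eq']
    by_cases h : Finsupp.single i D ∈ (sb A f).support
    · rw [if_pos h]
    · rw [if_neg h]
      rw [mem_support_iff, not_not] at h
      exact h.symm
  rw [← h1]
  unfold sb
  have h2 := comp_aeval_apply (fun k => ∑ i, MvPolynomial.C (A i k) * X i)
    ((aeval (Pi.single i (1 : R)) : MvPolynomial (Fin m) R →ₐ[R] R).restrictScalars ℤ) f
  refine Eq.trans h2 ?_
  congr 2
  funext k
  rw [AlgHom.restrictScalars_apply, map_sum, Finset.sum_eq_single i]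
  · rw [map_mul, aeval_X, aeval_C, Pi.single_eq_same, mul_one]
    rfl
  · intro j _ hj
    rw [map_mul, aeval_X, Pi.single_eq_of_ne hj, mul_zero]
  · exact fun h => absurd (mem_univ _) h

end Pool.Agent.R433.WF
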