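import Pool.Agent.R433.WF.Box
import Pool.Agent.R433.SL.Final

/-! Record gaps around the values of weight vectors at unimodular matrices. -/

set_option autoImplicit false
set_option linter.unusedSectionVars false

namespace Pool.Agent.R433.WF

open Finset Matrix MvPolynomial Filter
open Pool.Agent.H256R2.SC (ff)
open Pool.Agent.R433.SL

theorem genmain (n q : ℕ) (hq : 0 < q) (A₀ : SpecialLinearGroup (Fin (n + 1)) ℤ)
    {ι : Type} [Fintype ι] (F : ι → MvPolynomial (Fin (n + 1) × Fin (n + 1)) ℤ)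
    (w : ι → Fin (n + 1) → ℕ) (hw : ∀ j, IsWt (F j) (w j)) (hnz : ∀ j, NZ (F j))
    (hc : ∀ j, ∃ c : Fin (n + 1) → ℤ, ∑ a, c a = 0 ∧ ∑ a, c a * (w j a : ℤ) ≠ 0)
    (hE : ∀ j, EQ (F j) ∨ ∃ c : Fin (n + 1) → ℤ, ∑ a, c a = 0 ∧ ∑ a, c a * (w j a : ℤ) = 1)
    (hp : ∀ i j, i ≠ j → ∃ c : Fin (n + 1) → ℤ, ∑ a, c a = 0 ∧ 0 < ∑ a, c a * (w i a : ℤ) ∧
      ∑ a, c a * (w j a : ℤ) ≤ 0) :
    ∃ c : ℝ, 0 < c ∧ ∃ Z₀ : ℝ, ∀ Z : ℕ, Z₀ ≤ Z → ∃ A : SpecialLinearGroup (Fin (n + 1)) ℤ,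
      (∀ i j, |A.1 i j| ≤ Z) ∧ (∀ i j, (q : ℤ) ∣ A.1 i j - A₀.1 i j) ∧
      ∀ j, |ev A.1 (F j)| ≤ Z ∧ ∀ t : ℤ, |(t : ℝ) - (ev A.1 (F j) : ℤ)| ≤ c * ff Z →
          ∃ p : ℕ, p.Prime ∧ (p : ℤ) ^ 10 ≤ |t| ∧ (p : ℤ) ∣ t := by
  classical
  obtain ⟨d, P, C, hC, hdet, hmod, hLow⟩ := param n q hq A₀
  have hU : Unif P hdet q C := fun p _ hp => hLow p hp _ (fun _ => rfl)
  have hnc : ∀ j k, ev P (F j) ≠ MvPolynomial.C k := by
    intro j k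
    obtain ⟨c, h1, h2⟩ := hc j
    exact nc hC hU (hw j) (hnz j) c h1 h2 k
  have hEQ : ∀ j, EQ (F j) := by
    intro j
    rcases hE j with h | ⟨c, h1, h2⟩
    · exact h
    · exact eq_of_wt hC hU (hw j) (hnz j) c h1 h2
  have hPB : ∀ i j, i ≠ j → PB (F i) (F j) := by
    intro i j hij
    obtain ⟨c, h1, h2, h3⟩ := hp i j hij
    obtain ⟨a, ha⟩ := Int.eq_ofNat_of_zero_le h2.le
    obtain ⟨b, hb⟩ := Int.eq_ofNat_of_zero_le (neg_nonneg.2 h3)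
    refine pair hC hU (hw i) (hw j) (hnc i) (hnc j) c h1 a b ?_ ha ?_
    · rw [ha] at h2
      exact_mod_cast h2
    · linarith
  obtain ⟨c₁, hc₁, Z₀, hbox⟩ := box hC hU F hnc hEQ hPB
  obtain ⟨v, Z₁, hfar⟩ := far (fun j => ev P (F j)) (fun j c => hnc j c)
  -- all the polynomials whose size matters
  let Q : (Fin (n + 1) × Fin (n + 1)) ⊕ ι → MvPolynomial (Fin d) ℤ :=
    Sum.elim (fun a => P a.1 a.2) (fun j => ev P (F j))
  choose Aq hAq0 hAq using fun a => eval_le (Q a)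
  obtain ⟨A, hA⟩ : ∃ A : ℝ, A = ∑ a, Aq a := ⟨_, rfl⟩
  have hA0 : 0 ≤ A := by
    rw [hA]
    exact Finset.sum_nonneg fun a _ => hAq0 a
  have hAle : ∀ a, Aq a ≤ A := by
    intro a
    rw [hA]
    exact Finset.single_le_sum (f := Aq) (fun a _ => hAq0 a) (mem_univ a)
  obtain ⟨T, hT⟩ : ∃ T : ℕ, T = ∑ a, (Q a).totalDegree := ⟨_, rfl⟩
  have hTle : ∀ a, (Q a).totalDegree ≤ T := by
    intro a
    rw [hT]
    exact Finset.single_le_sum (f := fun a => (Q a).totalDegree) (fun a _ => Nat.zero_le _)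
      (mem_univ a)
  obtain ⟨V, hV⟩ : ∃ V : ℝ, V = 1 + ∑ i, |(v i : ℝ)| := ⟨_, rfl⟩
  have hV1 : 1 ≤ V := by
    have : 0 ≤ ∑ i, |(v i : ℝ)| := Finset.sum_nonneg fun _ _ => abs_nonneg _
    rw [hV]
    linarith
  have hVle : ∀ i, |(v i : ℝ)| + 1 ≤ V := by
    intro i
    have := Finset.single_le_sum (f := fun i => |(v i : ℝ)|) (fun _ _ => abs_nonneg _) (mem_univ i)
    rw [hV]
    linarith
  obtain ⟨θ, hθ⟩ : ∃ θ : ℝ, θ = 1 / (2 * (2 * T + 1)) := ⟨_, rfl⟩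
  have hT0 : (0 : ℝ) ≤ T := Nat.cast_nonneg T
  have hθ0 : 0 < θ := by rw [hθ]; positivity
  have hθ1 : θ * (2 * (2 * T + 1)) = 1 := by rw [hθ]; field_simp
  have hθ2 : θ ≤ 1 := by nlinarith
  have hθ3 : θ * (2 * T) ≤ 1 / 2 := by nlinarith
  obtain ⟨X₁, hX₁⟩ := Pool.Agent.Y837.SW.ff_floor θ hθ0 hθ2
  obtain ⟨X₂, hX₂⟩ := ff_upper c₁ hc₁
  have ev1 : ∀ᶠ X : ℝ in atTop, max (max Z₀ Z₁) (max X₂ 1) + 1 ≤ X ^ θ :=
    (tendsto_rpow_atTop hθ0).eventually_ge_atTop _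
  have ev2 : ∀ᶠ X : ℝ in atTop, A * V ^ T ≤ X ^ (1 / 2 : ℝ) :=
    (tendsto_rpow_atTop (by norm_num)).eventually_ge_atTop _
  obtain ⟨X₃, hX₃⟩ := eventually_atTop.1 (ev1.and (ev2.and (eventually_ge_atTop (1 : ℝ))))
  refine ⟨c₁ * (θ / 16), by positivity, max X₁ X₃, fun Z hZ => ?_⟩
  have hZa : X₁ ≤ (Z : ℝ) := (le_max_left _ _).trans hZ
  have hZb : X₃ ≤ (Z : ℝ) := (le_max_right _ _).trans hZ
  obtain ⟨k1, k2, k3⟩ := hX₃ Z hZb
  obtain ⟨Y, hY⟩ : ∃ Y : ℕ, Y = ⌊(Z : ℝ) ^ θ⌋₊ := ⟨_, rfl⟩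
  have k4 := hX₁ Z hZa
  rw [← hY] at k4
  have hYle : (Y : ℝ) ≤ (Z : ℝ) ^ θ := by rw [hY]; exact Nat.floor_le (by positivity)
  have hYge : max (max Z₀ Z₁) (max X₂ 1) ≤ (Y : ℝ) := by
    have : (Z : ℝ) ^ θ < (Y : ℝ) + 1 := by rw [hY]; exact Nat.lt_floor_add_one _
    linarith
  have hYZ₀ : Z₀ ≤ (Y : ℝ) := ((le_max_left _ _).trans (le_max_left _ _)).trans hYge
  have hYZ₁ : (Z₁ : ℝ) ≤ (Y : ℝ) := ((le_max_right _ _).trans (le_max_left _ _)).trans hYge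
  have hYX₂ : X₂ ≤ (Y : ℝ) := ((le_max_left _ _).trans (le_max_right _ _)).trans hYge
  have hY1 : (1 : ℝ) ≤ Y := ((le_max_right _ _).trans (le_max_right _ _)).trans hYge
  obtain ⟨x, hx1, hx2⟩ := hbox Y hYZ₀ (fun i => (Y : ℤ) ^ 2 * v i)
  have hlarge := hfar Y (by exact_mod_cast hYZ₁) x hx1
  have hxb : ∀ i, |(x i : ℝ)| ≤ V * (Y : ℝ) ^ 2 := by
    intro i
    have h1 : (Y : ℝ) ^ 2 * v i < x i := by exact_mod_cast (hx1 i).1
    have h2 : (x i : ℝ) ≤ (Y : ℝ) ^ 2 * v i + Y := by exact_mod_cast (hx1 i).2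
    have h3 := hVle i
    have h4 := abs_le.1 (le_refl |(v i : ℝ)|)
    have h5 : (Y : ℝ) ≤ (Y : ℝ) ^ 2 := by nlinarith
    have h6 : (0 : ℝ) ≤ (Y : ℝ) ^ 2 := by positivity
    rw [abs_le]
    constructor <;> nlinarith
  have hsize : ∀ a, |eval x (Q a)| ≤ (Z : ℤ) := by
    intro a
    have h1 := hAq a (V * (Y : ℝ) ^ 2) (by nlinarith [one_le_pow₀ hY1 (n := 2)]) x hxb
    have hVY : 1 ≤ V * (Y : ℝ) ^ 2 := by nlinarith [one_le_pow₀ hY1 (n := 2)]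
    have h2 : |((eval x (Q a) : ℤ) : ℝ)| ≤ Z := by
      calc |((eval x (Q a) : ℤ) : ℝ)| ≤ Aq a * (V * (Y : ℝ) ^ 2) ^ (Q a).totalDegree := h1
        _ ≤ A * (V * (Y : ℝ) ^ 2) ^ T :=
            mul_le_mul (hAle a) (pow_le_pow_right₀ hVY (hTle a)) (by positivity) hA0
        _ = A * V ^ T * (Y : ℝ) ^ (2 * T) := by rw [mul_pow, ← pow_mul]; ring
        _ ≤ (Z : ℝ) ^ (1 / 2 : ℝ) * (Z : ℝ) ^ (1 / 2 : ℝ) := by
            refine mul_le_mul k2 ?_ (by positivity) (by positivity)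
            calc (Y : ℝ) ^ (2 * T) ≤ ((Z : ℝ) ^ θ) ^ (2 * T) :=
                  pow_le_pow_left₀ (by linarith) hYle _
              _ = (Z : ℝ) ^ (θ * (2 * T)) := by
                  rw [← Real.rpow_natCast, ← Real.rpow_mul (by linarith)]
                  push_cast
                  rfl
              _ ≤ (Z : ℝ) ^ (1 / 2 : ℝ) := Real.rpow_le_rpow_of_exponent_le k3 hθ3
        _ = Z := by
            rw [← Real.rpow_add (by linarith)]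
            norm_num
    have h4 : ((|eval x (Q a)| : ℤ) : ℝ) ≤ ((Z : ℤ) : ℝ) := by
      push_cast
      exact h2
    exact_mod_cast h4
  have hev : ∀ j, eval x (ev P (F j)) = ev (P.map (eval x)) (F j) := fun j =>
    aeval_ev P x (F j)
  have hdetx : (P.map (eval x)).det = 1 := by
    have : (P.map (eval x)).det = eval x P.det := (RingHom.map_det (eval x) P).symm
    rw [this, hdet, map_one]
  refine ⟨⟨P.map (eval x), hdetx⟩, fun i j => hsize (Sum.inl (i, j)), fun i j => hmod x i j, ?_⟩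
  intro j
  have hevj := hev j
  refine ⟨?_, ?_⟩
  · have := hsize (Sum.inr j)
    change |eval x (ev P (F j))| ≤ (Z : ℤ) at this
    rw [hevj] at this
    exact this
  · intro t ht
    have ht1 : |(t : ℝ) - ((eval x (ev P (F j)) : ℤ) : ℝ)| ≤ c₁ * ff Y := by
      rw [hevj]
      refine ht.trans ?_
      calc c₁ * (θ / 16) * ff Z = c₁ * (θ / 16 * ff Z) := by ring
        _ ≤ c₁ * ff Y := mul_le_mul_of_nonneg_left k4 hc₁.le
    obtain ⟨p, hp1, hp2, hp3⟩ := hx2 j t ht1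
    have h2 := hlarge j
    have h3 := hX₂ Y hYX₂
    have h4 : (Y : ℝ) ≤ |(t : ℝ)| := by
      have h5 := abs_sub_abs_le_abs_sub ((eval x (ev P (F j)) : ℤ) : ℝ) (t : ℝ)
      rw [abs_sub_comm] at h5
      linarith
    refine ⟨p, hp1, ?_, hp3⟩
    have h5 : (p : ℝ) ^ 10 ≤ Y := by
      calc (p : ℝ) ^ 10 ≤ ((Y : ℝ) ^ (1 / 10 : ℝ)) ^ 10 :=
            pow_le_pow_left₀ (Nat.cast_nonneg _) hp2 _
        _ = Y := by
            rw [← Real.rpow_natCast, ← Real.rpow_mul (by linarith)]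
            norm_num
    have h6 : (((p : ℤ) ^ 10 : ℤ) : ℝ) ≤ ((|t| : ℤ) : ℝ) := by
      push_cast
      exact h5.trans h4
    exact_mod_cast h6

end Pool.Agent.R433.WF
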