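import Pool.Agent.R433.WF.ConjB
import Pool.Agent.R433.WF.Gen
import Pool.Agent.R433.WF.Form

/-! The columns of the inverse matrices are uniformly distributed. -/

set_option autoImplicit false
set_option linter.unusedSectionVars false

namespace Pool.Agent.R433.WF

open Finset Matrix

section col

variable {m : ℕ} {K : Type} [Field K]

theorem row_gl (i : Fin m) (v : Fin m → K) (hv : v ≠ 0) :
    ∃ A : Matrix (Fin m) (Fin m) K, A.det ≠ 0 ∧ A i = v := by
  classical
  obtain ⟨j, hj⟩ : ∃ j, v j ≠ 0 := by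
    by_contra hcon
    push Not at hcon
    exact hv (funext hcon)
  let τ : Equiv.Perm (Fin m) := Equiv.swap i j
  let M : Matrix (Fin m) (Fin m) K := τ.toPEquiv.toMatrix
  have hMab : ∀ a b, M a b = if b = τ a then 1 else 0 := by
    intro a b
    change (if b ∈ τ.toPEquiv a then (1 : K) else 0) = _
    by_cases h : b = τ a
    · rw [if_pos h, if_pos]
      rw [Equiv.toPEquiv_apply, Option.mem_some_iff]
      exact h.symm
    · rw [if_neg h, if_neg]
      intro h'
      rw [Equiv.toPEquiv_apply, Option.mem_some_iff] at h'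
      exact h h'.symm
  have hM : ∀ u : Fin m → K, M *ᵥ u = fun a => u (τ a) := by
    intro u
    funext a
    change ∑ b, M a b * u b = _
    simp_rw [hMab]
    simp
  have hMT : Mᵀ = M := by
    ext a b
    rw [transpose_apply, hMab, hMab]
    by_cases h : a = τ b
    · have h' : b = τ a := by rw [h]; exact (Equiv.swap_apply_self i j b).symm
      rw [if_pos h, if_pos h']
    · have h' : b ≠ τ a := fun h'' => h (by rw [h'']; exact (Equiv.swap_apply_self i j a).symm)
      rw [if_neg h, if_neg h']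
  have hdet : M.det ≠ 0 := by
    have h1 : M.det = ((Equiv.Perm.sign τ : ℤ) : K) := det_permutation τ
    rw [h1]
    rcases Int.units_eq_one_or (Equiv.Perm.sign τ) with h | h
    · rw [h]; simp
    · rw [h]; simp
  refine ⟨M.updateRow i v, ?_, updateRow_self⟩
  have h1 := mulVec_cramer Mᵀ v
  have h2 := cramer_transpose_apply M v i
  rw [hMT] at h1 h2
  have h3 : cramer M v = fun a => M.det * v (τ a) := by
    have h4 : M *ᵥ (M *ᵥ cramer M v) = cramer M v := by
      rw [hM, hM]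
      funext a
      change cramer M v (τ (τ a)) = cramer M v a
      rw [Equiv.swap_apply_self i j a]
    rw [h1] at h4
    rw [← h4, mulVec_smul, hM]
    rfl
  rw [← h2, h3]
  refine mul_ne_zero hdet ?_
  have : τ i = j := Equiv.swap_apply_left i j
  rw [this]
  exact hj

theorem row_sl (hm : 2 ≤ m) (i : Fin m) (v : Fin m → K) (hv : v ≠ 0) :
    ∃ A : SpecialLinearGroup (Fin m) K, A.1 i = v := by
  classical
  obtain ⟨A, hA, hAi⟩ := row_gl i v hv
  obtain ⟨b, hb⟩ : ∃ b : Fin m, b ≠ i := by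
    have : Nontrivial (Fin m) := Fin.nontrivial_iff_two_le.2 hm
    exact exists_ne i
  let t : Fin m → K := fun a => if a = b then A.det⁻¹ else 1
  have hprod : ∏ a, t a = A.det⁻¹ := by
    rw [Finset.prod_eq_single b (fun a _ ha => if_neg ha) (fun h => absurd (mem_univ _) h)]
    exact if_pos rfl
  refine ⟨⟨diagonal t * A, by rw [det_mul, det_diagonal, hprod, inv_mul_cancel₀ hA]⟩, ?_⟩
  funext k
  change (diagonal t * A) i k = v k
  rw [diagonal_mul]
  have : t i = 1 := if_neg hb.symm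
  rw [this, one_mul, hAi]

theorem col_sl (hm : 2 ≤ m) (i : Fin m) (v : Fin m → K) (hv : v ≠ 0) :
    ∃ A : SpecialLinearGroup (Fin m) K, A.1 *ᵥ Pi.single i 1 = v := by
  obtain ⟨A, hA⟩ := row_sl hm i v hv
  refine ⟨⟨A.1ᵀ, by rw [det_transpose]; exact A.2⟩, ?_⟩
  funext k
  rw [mulVec_single_one]
  exact congrFun hA k

variable [Fintype K] [DecidableEq K]

theorem col_card_le (hm : 2 ≤ m) (i : Fin m) (v u : Fin m → K) (hv : v ≠ 0) (hu : u ≠ 0) :
    (univ.filter fun A : SpecialLinearGroup (Fin m) K => (A⁻¹).1 *ᵥ Pi.single i 1 = v).card ≤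
      (univ.filter fun A : SpecialLinearGroup (Fin m) K =>
        (A⁻¹).1 *ᵥ Pi.single i 1 = u).card := by
  obtain ⟨A, hA⟩ := col_sl hm i v hv
  obtain ⟨B, hB⟩ := col_sl hm i u hu
  refine Finset.card_le_card_of_injOn (fun X => X * (A * B⁻¹)) ?_ (mul_left_injective _).injOn
  intro X hX
  rw [Finset.mem_coe, mem_filter] at hX ⊢
  refine ⟨mem_univ _, ?_⟩
  have h1 : ((X * (A * B⁻¹))⁻¹).1 *ᵥ Pi.single i 1 =
      B.1 *ᵥ ((A⁻¹).1 *ᵥ ((X⁻¹).1 *ᵥ Pi.single i 1)) := by
    rw [mulVec_mulVec, mulVec_mulVec]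
    congr 1
    have : (X * (A * B⁻¹))⁻¹ = B * (A⁻¹ * X⁻¹) := by group
    rw [this, Matrix.mul_assoc]
    rfl
  rw [h1, hX.2, ← hA]
  have h2 : (A⁻¹).1 *ᵥ (A.1 *ᵥ (Pi.single i 1 : Fin m → K)) = Pi.single i 1 := by
    rw [mulVec_mulVec]
    have : (A⁻¹).1 * A.1 = 1 := congrArg Subtype.val (inv_mul_cancel A)
    rw [this, one_mulVec]
  rw [h2, hB]

theorem E1 (hm : 2 ≤ m) (X : Matrix (Fin m) (Fin m) K) (i : Fin m) (r : K)
    (hk : (univ.filter fun v : Fin m → K => X *ᵥ v = r • v).card ≤ Fintype.card K ^ (m - 2)) :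
    Fintype.card K ^ 2 * (univ.filter fun A : SpecialLinearGroup (Fin m) K =>
      (∀ k, k ≠ i → Yc X A k i = 0) ∧ Yc X A i i = r).card ≤
      Fintype.card (SpecialLinearGroup (Fin m) K) := by
  classical
  obtain ⟨v₀, hv₀⟩ : ∃ v : Fin m → K, v ≠ 0 :=
    ⟨fun _ => 1, fun h => one_ne_zero (congrFun h i)⟩
  obtain ⟨n, hn⟩ : ∃ n : ℕ, n = (univ.filter fun A : SpecialLinearGroup (Fin m) K =>
    (A⁻¹).1 *ᵥ Pi.single i 1 = v₀).card := ⟨_, rfl⟩
  have hcol : ∀ v : Fin m → K, v ≠ 0 → (univ.filter fun A : SpecialLinearGroup (Fin m) K =>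
      (A⁻¹).1 *ᵥ Pi.single i 1 = v).card = n := by
    intro v hv
    rw [hn]
    exact le_antisymm (col_card_le hm i v v₀ hv hv₀) (col_card_le hm i v₀ v hv₀ hv)
  have hne : ∀ A : SpecialLinearGroup (Fin m) K, (A⁻¹).1 *ᵥ Pi.single i 1 ≠ 0 := by
    intro A h
    have h2 : A.1 *ᵥ ((A⁻¹).1 *ᵥ (Pi.single i 1 : Fin m → K)) = Pi.single i 1 := by
      rw [mulVec_mulVec]
      have : A.1 * (A⁻¹).1 = 1 := congrArg Subtype.val (mul_inv_cancel A)
      rw [this, one_mulVec]
    rw [h, mulVec_zero] at h2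
    have := congrFun h2 i
    rw [Pi.single_eq_same] at this
    exact zero_ne_one this
  have hG : Fintype.card (SpecialLinearGroup (Fin m) K) = (Fintype.card K ^ m - 1) * n := by
    rw [← Finset.card_univ, Finset.card_eq_sum_card_fiberwise
      (f := fun A : SpecialLinearGroup (Fin m) K => (A⁻¹).1 *ᵥ Pi.single i 1)
      (t := (univ : Finset (Fin m → K)).erase 0)]
    · rw [Finset.sum_const_nat (m := n), Finset.card_erase_of_mem (mem_univ _), Finset.card_univ,
        Fintype.card_fun, Fintype.card_fin]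
      intro v hv
      rw [mem_erase] at hv
      exact hcol v hv.1
    · intro A _
      rw [Finset.mem_coe, mem_erase]
      exact ⟨hne A, mem_univ _⟩
  obtain ⟨Ker, hKer⟩ : ∃ Ker, Ker = univ.filter fun v : Fin m → K => X *ᵥ v = r • v := ⟨_, rfl⟩
  have h0 : (0 : Fin m → K) ∈ Ker := by
    rw [hKer, mem_filter]
    exact ⟨mem_univ _, by rw [mulVec_zero, smul_zero]⟩
  have hE : (univ.filter fun A : SpecialLinearGroup (Fin m) K =>
      (∀ k, k ≠ i → Yc X A k i = 0) ∧ Yc X A i i = r).card ≤ (Ker.card - 1) * n := by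
    have h1 : ∀ A ∈ (univ.filter fun A : SpecialLinearGroup (Fin m) K =>
        (∀ k, k ≠ i → Yc X A k i = 0) ∧ Yc X A i i = r),
        (A⁻¹).1 *ᵥ (Pi.single i 1 : Fin m → K) ∈ Ker.erase 0 := by
      intro A hA
      rw [mem_filter] at hA
      rw [mem_erase, hKer, mem_filter]
      refine ⟨hne A, mem_univ _, ?_⟩
      have h2 : Yc X A *ᵥ (Pi.single i 1 : Fin m → K) = r • Pi.single i 1 := by
        rw [mulVec_single_one]
        funext k
        change Yc X A k i = r * (Pi.single i 1 : Fin m → K) k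
        by_cases hki : k = i
        · rw [hki, hA.2.2, Pi.single_eq_same, mul_one]
        · rw [hA.2.1 k hki, Pi.single_eq_of_ne hki, mul_zero]
      have h3 : (A⁻¹).1 *ᵥ (Yc X A *ᵥ (Pi.single i 1 : Fin m → K)) =
          X *ᵥ ((A⁻¹).1 *ᵥ Pi.single i 1) := by
        unfold Yc
        rw [mulVec_mulVec, mulVec_mulVec, ← Matrix.mul_assoc, ← Matrix.mul_assoc]
        have : (A⁻¹).1 * A.1 = 1 := congrArg Subtype.val (inv_mul_cancel A)
        rw [this, Matrix.one_mul]
      rw [← h3, h2, mulVec_smul]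
    calc _ = ∑ v ∈ Ker.erase 0, ((univ.filter fun A : SpecialLinearGroup (Fin m) K =>
          (∀ k, k ≠ i → Yc X A k i = 0) ∧ Yc X A i i = r).filter
          fun A => (A⁻¹).1 *ᵥ Pi.single i 1 = v).card := Finset.card_eq_sum_card_fiberwise h1
      _ ≤ ∑ v ∈ Ker.erase 0, n := by
          refine Finset.sum_le_sum fun v hv => ?_
          rw [← hcol v (mem_erase.1 hv).1]
          refine Finset.card_le_card fun A hA => ?_
          rw [mem_filter] at hA ⊢
          exact ⟨mem_univ _, hA.2⟩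
      _ = (Ker.card - 1) * n := by
          rw [Finset.sum_const, smul_eq_mul, Finset.card_erase_of_mem h0]
  rw [← hKer] at hk
  obtain ⟨p, hp⟩ : ∃ p, p = Fintype.card K := ⟨_, rfl⟩
  have hp1 : 1 ≤ p := by rw [hp]; exact Fintype.card_pos
  have hk1 : 1 ≤ Ker.card := Finset.card_pos.2 ⟨0, h0⟩
  rw [hG]
  rw [← hp] at hk ⊢
  have h5 : p ^ 2 * (Ker.card - 1) ≤ p ^ m - 1 := by
    have h6 : p ^ 2 * p ^ (m - 2) = p ^ m := by
      rw [← pow_add]
      congr 1
      omega
    have h7 : p ^ 2 * (Ker.card - 1) + p ^ 2 ≤ p ^ m := by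
      rw [← h6]
      calc p ^ 2 * (Ker.card - 1) + p ^ 2 = p ^ 2 * (Ker.card - 1 + 1) := by ring
        _ ≤ p ^ 2 * p ^ (m - 2) := Nat.mul_le_mul_left _ (by omega)
    have h8 : 1 ≤ p ^ 2 := Nat.one_le_pow _ _ hp1
    omega
  calc _ ≤ p ^ 2 * ((Ker.card - 1) * n) := Nat.mul_le_mul_left _ hE
    _ = p ^ 2 * (Ker.card - 1) * n := by ring
    _ ≤ _ := Nat.mul_le_mul_right _ h5

end col

end Pool.Agent.R433.WF
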