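import Pool.Agent.R433.WF.ConjC
import Pool.Agent.R433.WF.Gen2

/-! Record gaps around all the entries of a conjugate of an integral matrix. -/

set_option autoImplicit false
set_option linter.unusedSectionVars false

namespace Pool.Agent.R433.WF

open Finset Matrix MvPolynomial
open Pool.Agent.H256R2.SC (ff)
open Pool.Agent.R433.SL

variable {m : ℕ}

/-- the entries of `A X adj(A)` -/
noncomputable def cj (X : Matrix (Fin m) (Fin m) ℤ) (i j : Fin m) :
    MvPolynomial (Fin m × Fin m) ℤ :=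
  (mvPolynomialX (Fin m) (Fin m) ℤ *
    X.map (fun x => (MvPolynomial.C x : MvPolynomial (Fin m × Fin m) ℤ)) *
    (mvPolynomialX (Fin m) (Fin m) ℤ).adjugate) i j

theorem ev_cj {R : Type} [CommRing R] (A : Matrix (Fin m) (Fin m) R)
    (X : Matrix (Fin m) (Fin m) ℤ) (i j : Fin m) :
    ev A (cj X i j) = (A * X.map (fun x : ℤ => (x : R)) * A.adjugate) i j := by
  obtain ⟨φ, hφ⟩ : ∃ φ : MvPolynomial (Fin m × Fin m) ℤ →ₐ[ℤ] R,
      φ = aeval (fun a : Fin m × Fin m => A a.1 a.2) := ⟨_, rfl⟩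
  have h1 : φ.mapMatrix (mvPolynomialX (Fin m) (Fin m) ℤ) = A := by
    rw [hφ]
    exact mvPolynomialX_mapMatrix_aeval (R := ℤ) A
  have h2 : φ.mapMatrix (X.map (fun x => (MvPolynomial.C x : MvPolynomial (Fin m × Fin m) ℤ))) =
      X.map (fun x : ℤ => (x : R)) := by
    ext a b
    change φ (MvPolynomial.C (X a b)) = ((X a b : ℤ) : R)
    rw [hφ, aeval_C]
    rfl
  have h3 : φ.mapMatrix (mvPolynomialX (Fin m) (Fin m) ℤ *
      X.map (fun x => (MvPolynomial.C x : MvPolynomial (Fin m × Fin m) ℤ)) *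
      (mvPolynomialX (Fin m) (Fin m) ℤ).adjugate) =
      A * X.map (fun x : ℤ => (x : R)) * A.adjugate := by
    rw [map_mul, map_mul, h1, h2, AlgHom.map_adjugate, h1]
  have h4 := congrFun (congrFun h3 i) j
  unfold ev cj
  rw [← hφ]
  exact h4

theorem ev_Yc (X : Matrix (Fin m) (Fin m) ℤ) {p : ℕ} [Fact p.Prime]
    (A : SpecialLinearGroup (Fin m) (ZMod p)) (i j : Fin m) :
    ev A.1 (cj X i j) = Yc (X.map (fun x : ℤ => (x : ZMod p))) A i j := by
  rw [ev_cj]
  rfl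

/-- the weight of an entry -/
def wc (i j a : Fin m) : ℕ := (if a = j then 0 else 1) + if a = i then 1 else 0

theorem isWt_cj (X : Matrix (Fin m) (Fin m) ℤ) (i j : Fin m) : IsWt (cj X i j) (wc i j) := by
  classical
  intro p hp t A
  rw [ev_cj, ev_cj, adjugate_mul_distrib, adjugate_diagonal]
  have h1 : diagonal t * A * X.map (fun x : ℤ => (x : ZMod p)) *
      (A.adjugate * diagonal fun i => ∏ j ∈ univ.erase i, t j) =
      diagonal t * (A * X.map (fun x : ℤ => (x : ZMod p)) * A.adjugate) *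
        diagonal fun i => ∏ j ∈ univ.erase i, t j := by
    simp only [Matrix.mul_assoc]
  rw [h1, mul_diagonal, diagonal_mul]
  have h2 : ∏ a, t a ^ wc i j a = (∏ a ∈ univ.erase j, t a) * t i := by
    unfold wc
    simp_rw [pow_add]
    rw [Finset.prod_mul_distrib]
    congr 1
    · rw [← Finset.mul_prod_erase univ _ (mem_univ j), if_pos rfl, pow_zero, one_mul]
      refine Finset.prod_congr rfl fun a ha => ?_
      rw [if_neg (mem_erase.1 ha).1, pow_one]
    · rw [Finset.prod_eq_single i (fun a _ ha => by rw [if_neg ha, pow_zero])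
        (fun h => absurd (mem_univ _) h), if_pos rfl, pow_one]
  rw [h2]
  ring

theorem wc_pair (c : Fin m → ℤ) (hc : ∑ a, c a = 0) (i j : Fin m) :
    ∑ a, c a * (wc i j a : ℤ) = c i - c j := by
  have h1 : ∀ a, c a * (wc i j a : ℤ) =
      c a - (if a = j then c a else 0) + (if a = i then c a else 0) := by
    intro a
    unfold wc
    split_ifs <;> push_cast <;> ring
  simp_rw [h1]
  rw [Finset.sum_add_distrib, Finset.sum_sub_distrib, hc]
  simp
  ring

theorem nz_cj (hm : 2 ≤ m) {X : Matrix (Fin m) (Fin m) ℤ} (hX : Big X) (i j : Fin m)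
    (hij : i ≠ j) : NZ (cj X i j) := by
  classical
  obtain ⟨B, hB⟩ := big_mod hX
  refine ⟨B, ?_⟩
  intro p hp hpB
  have hpp := (Fact.out : p.Prime)
  by_contra hcon
  push Not at hcon
  obtain ⟨X', hX'⟩ : ∃ X', X' = X.map (fun x : ℤ => (x : ZMod p)) := ⟨_, rfl⟩
  have h0 : ∀ A : SpecialLinearGroup (Fin m) (ZMod p), Yc X' A i j = 0 := by
    intro A
    rw [hX', ← ev_Yc]
    exact hcon A
  have h1 : ∀ (A : SpecialLinearGroup (Fin m) (ZMod p)) (k : Fin m), k ≠ j → Yc X' A k j = 0 := by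
    intro A k hk
    by_cases hki : k = i
    · rw [hki]
      exact h0 A
    · have h2 := Yc_row X' A i k (Ne.symm hki) 1 (b := j) (Ne.symm hk)
      rw [h0, h0, zero_add, one_mul] at h2
      exact h2.symm
  obtain ⟨n, hn⟩ : ∃ n, n = Fintype.card (SpecialLinearGroup (Fin m) (ZMod p)) := ⟨_, rfl⟩
  have h3 : ∀ r : ZMod p, p ^ 2 * (univ.filter fun A : SpecialLinearGroup (Fin m) (ZMod p) =>
      Yc X' A j j = r).card ≤ n := by
    intro r
    have h4 := E1 hm X' j r (by rw [ZMod.card, hX']; exact hB p hpB r)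
    rw [ZMod.card, ← hn] at h4
    refine le_trans (le_of_eq ?_) h4
    congr 2
    ext A
    rw [mem_filter, mem_filter]
    exact ⟨fun h => ⟨h.1, h1 A, h.2⟩, fun h => ⟨h.1, h.2.2⟩⟩
  have h4 : n = ∑ r : ZMod p, (univ.filter fun A : SpecialLinearGroup (Fin m) (ZMod p) =>
      Yc X' A j j = r).card := by
    rw [hn, ← Finset.card_univ]
    exact Finset.card_eq_sum_card_fiberwise fun A _ => mem_coe.2 (mem_univ _)
  have h5 : p ^ 2 * n ≤ p * n := by
    calc p ^ 2 * n = ∑ r : ZMod p, p ^ 2 *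
          (univ.filter fun A : SpecialLinearGroup (Fin m) (ZMod p) => Yc X' A j j = r).card := by
          rw [← Finset.mul_sum, ← h4]
      _ ≤ ∑ _r : ZMod p, n := Finset.sum_le_sum fun r _ => h3 r
      _ = p * n := by rw [Finset.sum_const, card_univ, ZMod.card, smul_eq_mul]
  have h6 : 0 < n := by rw [hn]; exact Fintype.card_pos
  have h7 := Nat.le_of_mul_le_mul_right h5 h6
  have h8 := hpp.two_le
  nlinarith

theorem exists_third (hm : 3 ≤ m) (i j : Fin m) : ∃ k : Fin m, k ≠ i ∧ k ≠ j := by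
  classical
  by_contra hcon
  push Not at hcon
  have h1 : (univ : Finset (Fin m)) ⊆ {i, j} := by
    intro k _
    rw [mem_insert, mem_singleton]
    by_cases h : k = i
    · exact Or.inl h
    · exact Or.inr (hcon k h)
  have h2 := Finset.card_le_card h1
  rw [card_univ, Fintype.card_fin] at h2
  have h3 := Finset.card_insert_le i {j}
  rw [card_singleton] at h3
  omega

section

variable {d q : ℕ} {C : ℝ} {P : Matrix (Fin m) (Fin m) (MvPolynomial (Fin d) ℤ)} {hdet : P.det = 1}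

/-- the cocharacters -/
theorem hco (i k : Fin m) (hik : i ≠ k) :
    ∑ a, (fun a => (if a = i then (1 : ℤ) else 0) - (if a = k then 1 else 0)) a = 0 := by
  simp only
  rw [Finset.sum_sub_distrib]
  simp

theorem eq_off (hm : 3 ≤ m) (hC : 0 ≤ C) (hU : Unif P hdet q C) {X : Matrix (Fin m) (Fin m) ℤ}
    (hX : Big X) (i j : Fin m) (hij : i ≠ j) : EQ (cj X i j) := by
  obtain ⟨k, hki, hkj⟩ := exists_third hm i j
  refine eq_of_wt hC hU (isWt_cj X i j) (nz_cj (by omega) hX i j hij)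
    (fun a => (if a = i then (1 : ℤ) else 0) - (if a = k then 1 else 0)) (hco i k hki.symm) ?_
  rw [wc_pair _ (hco i k hki.symm)]
  simp [hij.symm, hki.symm, hkj.symm]

/-- the zeros of the entries off the diagonal -/
theorem zeros (hm : 3 ≤ m) (hC : 0 ≤ C) (hU : Unif P hdet q C) {X : Matrix (Fin m) (Fin m) ℤ}
    (hX : Big X) : ∃ κ B : ℕ, ∀ (p : ℕ) [Fact p.Prime], B < p → ∀ i j : Fin m, i ≠ j →
      Fintype.card (ZMod p) * (univ.filter fun A : SpecialLinearGroup (Fin m) (ZMod p) =>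
        Yc (X.map (fun x : ℤ => (x : ZMod p))) A i j = 0).card ≤
        κ * Fintype.card (SpecialLinearGroup (Fin m) (ZMod p)) := by
  classical
  have h : ∀ a : Fin m × Fin m, ∃ K B : ℕ, a.1 ≠ a.2 → ∀ (p : ℕ) [Fact p.Prime], B < p →
      p * (univ.filter fun A : SpecialLinearGroup (Fin m) (ZMod p) =>
        ev A.1 (cj X a.1 a.2) = 0).card ≤
        K * Fintype.card (SpecialLinearGroup (Fin m) (ZMod p)) := by
    intro a
    by_cases ha : a.1 = a.2
    · exact ⟨0, 0, fun h => absurd ha h⟩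
    · obtain ⟨K, B, hKB⟩ := levelG hC hU (cj X a.1 a.2)
        (nc_of_eq hC hU (eq_off hm hC hU hX a.1 a.2 ha))
      exact ⟨K, B, fun _ p _ hp => hKB p hp 0⟩
  choose K B hKB using h
  refine ⟨∑ a, K a, ∑ a, B a, ?_⟩
  intro p hp hpB i j hij
  have h1 : B (i, j) ≤ ∑ a, B a :=
    Finset.single_le_sum (f := B) (fun _ _ => Nat.zero_le _) (mem_univ (i, j))
  have h2 : K (i, j) ≤ ∑ a, K a :=
    Finset.single_le_sum (f := K) (fun _ _ => Nat.zero_le _) (mem_univ (i, j))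
  have h3 := hKB (i, j) hij p (by omega)
  rw [ZMod.card]
  refine le_trans (le_of_eq ?_) (h3.trans (Nat.mul_le_mul_right _ h2))
  congr 2
  ext A
  rw [mem_filter, mem_filter, ev_Yc]

theorem eq_diag (hm : 3 ≤ m) (hC : 0 ≤ C) (hU : Unif P hdet q C) {X : Matrix (Fin m) (Fin m) ℤ}
    (hX : Big X) (i : Fin m) : EQ (cj X i i) := by
  classical
  obtain ⟨κ, B, hκ⟩ := zeros hm hC hU hX
  obtain ⟨B', hB'⟩ := big_mod hX
  obtain ⟨k, hki, -⟩ := exists_third hm i i
  refine ⟨(m + 1) * κ + 1, by positivity, B + B', ?_⟩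
  intro p hp hpB r _
  have hpp := (Fact.out : p.Prime)
  obtain ⟨X', hX'⟩ : ∃ X', X' = X.map (fun x : ℤ => (x : ZMod p)) := ⟨_, rfl⟩
  obtain ⟨n, hn⟩ : ∃ n, n = Fintype.card (SpecialLinearGroup (Fin m) (ZMod p)) := ⟨_, rfl⟩
  have hz := hκ p (by omega)
  rw [← hn] at hz
  have he := E1 (by omega) X' i r (by rw [ZMod.card, hX']; exact hB' p (by omega) r)
  rw [← hn] at he
  rw [← hX'] at hz
  have h1 := bd_R X' hz i r he k hki
  have h2 := cnt_ii X' i k hki r
  have h3 := hz k i hki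
  rw [ZMod.card] at h1 h2 h3
  rw [← hn] at h2
  have hN : (univ.filter fun A : SpecialLinearGroup (Fin m) (ZMod p) => ev A.1 (cj X i i) = r) =
      univ.filter fun A : SpecialLinearGroup (Fin m) (ZMod p) => Yc X' A i i = r := by
    ext A
    rw [mem_filter, mem_filter, ev_Yc, hX']
  rw [hN, ← hn]
  obtain ⟨N, hN'⟩ : ∃ N, N = (univ.filter fun A : SpecialLinearGroup (Fin m) (ZMod p) =>
    Yc X' A i i = r).card := ⟨_, rfl⟩
  obtain ⟨z, hz'⟩ : ∃ z, z = (univ.filter fun A : SpecialLinearGroup (Fin m) (ZMod p) =>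
    Yc X' A k i = 0).card := ⟨_, rfl⟩
  obtain ⟨R, hR⟩ : ∃ R, R = (univ.filter fun A : SpecialLinearGroup (Fin m) (ZMod p) =>
    Yc X' A k i = 0 ∧ Yc X' A i i = r).card := ⟨_, rfl⟩
  rw [← hR] at h1 h2
  rw [← hN', ← hz'] at h2
  rw [← hz'] at h3
  rw [← hN']
  have c1 : (p : ℝ) ^ 2 * R ≤ (m * κ + 1) * n := by exact_mod_cast h1
  have c2 : (p : ℝ) * N + z = n + p * R := by exact_mod_cast h2
  have c3 : (p : ℝ) * z ≤ κ * n := by exact_mod_cast h3
  have hp2 : (2 : ℝ) ≤ p := by exact_mod_cast hpp.two_le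
  have hs1 : Real.sqrt p ≤ p := by
    have h4 : 1 ≤ Real.sqrt p := by rw [Real.one_le_sqrt]; linarith
    have h5 : Real.sqrt p * Real.sqrt p = p := Real.mul_self_sqrt (by linarith)
    nlinarith
  have hn0 : (0 : ℝ) ≤ n := Nat.cast_nonneg _
  have hz0 : (0 : ℝ) ≤ z := Nat.cast_nonneg _
  have hR0 : (0 : ℝ) ≤ R := Nat.cast_nonneg _
  have hκ0 : (0 : ℝ) ≤ κ * n := by positivity
  have hmκ0 : (0 : ℝ) ≤ m * κ * n := by positivity
  have habs : |(p : ℝ) * N - n| ≤ z + p * R := by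
    have e1 : (p : ℝ) * N - n = p * R - z := by linarith
    have e2 : 0 ≤ (p : ℝ) * R := by positivity
    rw [e1, abs_le]
    constructor <;> linarith
  calc |(p : ℝ) * N - n| * Real.sqrt p ≤ (z + p * R) * p :=
        mul_le_mul habs hs1 (Real.sqrt_nonneg _) (by positivity)
    _ = p * z + (p : ℝ) ^ 2 * R := by ring
    _ ≤ ((m + 1) * κ + 1) * n := by nlinarith

theorem pb_dd (hm : 3 ≤ m) (hC : 0 ≤ C) (hU : Unif P hdet q C) {X : Matrix (Fin m) (Fin m) ℤ}
    (hX : Big X) (i j : Fin m) (hij : i ≠ j) : PB (cj X i i) (cj X j j) := by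
  classical
  obtain ⟨κ, B, hκ⟩ := zeros hm hC hU hX
  obtain ⟨B', hB'⟩ := big_mod hX
  obtain ⟨k, hki, hkj⟩ := exists_third hm i j
  refine ⟨(m + 1) * κ + 2, B + B', ?_⟩
  intro p hp hpB r s _ _
  obtain ⟨X', hX'⟩ : ∃ X', X' = X.map (fun x : ℤ => (x : ZMod p)) := ⟨_, rfl⟩
  obtain ⟨n, hn⟩ : ∃ n, n = Fintype.card (SpecialLinearGroup (Fin m) (ZMod p)) := ⟨_, rfl⟩
  have hz := hκ p (by omega)
  rw [← hn, ← hX'] at hz
  have he : ∀ (i : Fin m) (r : ZMod p), Fintype.card (ZMod p) ^ 2 *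
      (univ.filter fun A : SpecialLinearGroup (Fin m) (ZMod p) =>
      (∀ k, k ≠ i → Yc X' A k i = 0) ∧ Yc X' A i i = r).card ≤ n := by
    intro i r
    have := E1 (by omega) X' i r (by rw [ZMod.card, hX']; exact hB' p (by omega) r)
    rw [← hn] at this
    exact this
  have h1 := bd_dd X' hz he hn.symm i j k hij.symm hki hkj r s
  rw [ZMod.card] at h1
  have hN : (univ.filter fun A : SpecialLinearGroup (Fin m) (ZMod p) =>
      ev A.1 (cj X i i) = r ∧ ev A.1 (cj X j j) = s) =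
      univ.filter fun A : SpecialLinearGroup (Fin m) (ZMod p) =>
        Yc X' A i i = r ∧ Yc X' A j j = s := by
    ext A
    rw [mem_filter, mem_filter, ev_Yc, ev_Yc, hX']
  rw [hN, ← hn]
  refine le_trans (Nat.mul_le_mul_right _ ?_) h1
  rw [pow_two]
  exact Nat.mul_le_mul_left _ (Nat.sub_le _ _)

theorem pb_off (hm : 3 ≤ m) (hC : 0 ≤ C) (hU : Unif P hdet q C) {X : Matrix (Fin m) (Fin m) ℤ}
    (hEQ : ∀ i j, EQ (cj X i j)) (i j k l : Fin m) (hij : i ≠ j) (hne : (i, j) ≠ (k, l)) :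
    PB (cj X i j) (cj X k l) := by
  classical
  obtain ⟨c, hc, h1, h2⟩ : ∃ c : Fin m → ℤ, ∑ a, c a = 0 ∧ 0 < c i - c j ∧ c k - c l ≤ 0 := by
    by_cases hki : k = i
    · have hlj : l ≠ j := fun h => hne (by rw [hki, h])
      refine ⟨fun a => 1 - (if a = j then (m : ℤ) else 0), ?_, ?_, ?_⟩
      · rw [Finset.sum_sub_distrib]
        simp
      · simp only [if_neg hij, if_pos]
        have : (0 : ℤ) < m := by exact_mod_cast (by omega : 0 < m)
        linarith
      · simp only [hki, if_neg hij, if_neg hlj]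
        norm_num
    · refine ⟨fun a => (if a = i then (m : ℤ) else 0) - 1, ?_, ?_, ?_⟩
      · rw [Finset.sum_sub_distrib]
        simp
      · simp only [if_neg hij.symm, if_pos]
        have : (0 : ℤ) < m := by exact_mod_cast (by omega : 0 < m)
        linarith
      · simp only [if_neg hki]
        have : (0 : ℤ) ≤ m := Int.natCast_nonneg _
        split_ifs <;> linarith
  obtain ⟨a, ha⟩ := Int.eq_ofNat_of_zero_le h1.le
  obtain ⟨b, hb⟩ := Int.eq_ofNat_of_zero_le (neg_nonneg.2 h2)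
  refine pair hC hU (isWt_cj X i j) (isWt_cj X k l) (nc_of_eq hC hU (hEQ i j))
    (nc_of_eq hC hU (hEQ k l)) c hc a b ?_ ?_ ?_
  · rw [ha] at h1
    exact_mod_cast h1
  · rw [wc_pair c hc, ha]
  · rw [wc_pair c hc]
    have : -(c k - c l) = (b : ℤ) := hb
    linarith

end

theorem conjmain (m q : ℕ) (hm : 3 ≤ m) (hq : 0 < q) (X : Matrix (Fin m) (Fin m) ℤ) (hX : Big X)
    (A₀ : SpecialLinearGroup (Fin m) ℤ) :
    ∃ c : ℝ, 0 < c ∧ ∃ Z₀ : ℝ, ∀ Z : ℕ, Z₀ ≤ Z → ∃ A : SpecialLinearGroup (Fin m) ℤ,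
      (∀ i j, |A.1 i j| ≤ Z) ∧ (∀ i j, (q : ℤ) ∣ A.1 i j - A₀.1 i j) ∧
      ∀ i j, |(A.1 * X * (A⁻¹).1) i j| ≤ Z ∧
        ∀ t : ℤ, |(t : ℝ) - ((A.1 * X * (A⁻¹).1) i j : ℤ)| ≤ c * ff Z →
          ∃ p : ℕ, p.Prime ∧ (p : ℤ) ^ 10 ≤ |t| ∧ (p : ℤ) ∣ t := by
  classical
  obtain ⟨n, rfl⟩ : ∃ n, m = n + 1 := ⟨m - 1, by omega⟩
  obtain ⟨d, P, C, hC, hdet, hmod, hLow⟩ := param n q hq A₀
  have hU : Unif P hdet q C := fun p _ hp => hLow p hp _ (fun _ => rfl)
  have hEQ : ∀ i j, EQ (cj X i j) := by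
    intro i j
    by_cases hij : i = j
    · rw [hij]
      exact eq_diag hm hC hU hX j
    · exact eq_off hm hC hU hX i j hij
  have hPB : ∀ a b : Fin (n + 1) × Fin (n + 1), a ≠ b → PB (cj X a.1 a.2) (cj X b.1 b.2) := by
    intro a b hab
    by_cases ha : a.1 = a.2
    · by_cases hb : b.1 = b.2
      · rw [← ha, ← hb]
        exact pb_dd hm hC hU hX a.1 b.1 (fun h => hab (Prod.ext h (by rw [← ha, ← hb, h])))
      · exact (pb_off hm hC hU hEQ b.1 b.2 a.1 a.2 hb (fun h => hab h.symm)).swap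
    · exact pb_off hm hC hU hEQ a.1 a.2 b.1 b.2 ha hab
  obtain ⟨c, hc, Z₀, h⟩ := genmain2 n q hq A₀ (fun a : Fin (n + 1) × Fin (n + 1) => cj X a.1 a.2)
    (fun a => hEQ a.1 a.2) hPB
  refine ⟨c, hc, Z₀, fun Z hZ => ?_⟩
  obtain ⟨A, h1, h2, h3⟩ := h Z hZ
  refine ⟨A, h1, h2, ?_⟩
  intro i j
  have h4 := h3 (i, j)
  have h5 : ev A.1 (cj X i j) = (A.1 * X * (A⁻¹).1) i j := by
    rw [ev_cj]
    have h6 : X.map (fun x : ℤ => (x : ℤ)) = X := by
      ext a b
      rfl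
    change (A.1 * X.map (fun x : ℤ => (x : ℤ)) * A.1.adjugate) i j = _
    rw [h6]
    rfl
  simp only [h5] at h4
  exact h4

end Pool.Agent.R433.WF
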