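import Pool.Agent.R433.WF.Sq
import Pool.Agent.Y837.SW.Chr

/-! Equidistribution of the values of a squarefree weight vector on the unimodular matrices. -/

set_option autoImplicit false
set_option linter.unusedSectionVars false

namespace Pool.Agent.R433.WF

open Finset Matrix MvPolynomial
open Pool.Agent.R433.SL

section dg

variable {m : ℕ} {K : Type} [Field K]

/-- multiplication of a row -/
def dg (i : Fin m) (l : K) : Matrix (Fin m) (Fin m) K := diagonal fun a => if a = i then l else 1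

theorem dg_det (i : Fin m) (l : K) : (dg i l).det = l := by
  unfold dg
  rw [det_diagonal, Finset.prod_eq_single i (fun a _ ha => if_neg ha)
    (fun h => absurd (mem_univ _) h)]
  exact if_pos rfl

theorem dg_mul (i : Fin m) (l l' : K) : dg i l * dg i l' = dg i (l * l') := by
  unfold dg
  rw [diagonal_mul_diagonal]
  congr 1
  funext a
  by_cases h : a = i
  · simp only [if_pos h]
  · simp only [if_neg h, mul_one]

theorem dg_one (i : Fin m) : (dg i 1 : Matrix (Fin m) (Fin m) K) = 1 := by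
  unfold dg
  rw [← diagonal_one]
  congr 1
  funext a
  exact ite_self _

variable [Fintype K] [DecidableEq K]

theorem card_gl (b : Fin m) (Q : Matrix (Fin m) (Fin m) K → Prop)
    [DecidablePred Q] (hQ : ∀ (l : K) A, l ≠ 0 → (Q (dg b l * A) ↔ Q A)) :
    (univ.filter fun A : Matrix (Fin m) (Fin m) K => A.det ≠ 0 ∧ Q A).card =
      (Fintype.card K - 1) *
        (univ.filter fun A : SpecialLinearGroup (Fin m) K => Q A.1).card := by
  classical
  rw [← Fintype.card_units, ← Finset.card_univ, ← card_product]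
  symm
  apply Finset.card_bij (fun z _ => dg b (z.1 : K) * z.2.1)
  · intro z hz
    rw [mem_product, mem_filter] at hz
    rw [mem_filter]
    refine ⟨mem_univ _, ?_, ?_⟩
    · rw [det_mul, dg_det, z.2.2, mul_one]
      exact z.1.ne_zero
    · exact (hQ _ _ z.1.ne_zero).2 hz.2.2
  · intro z hz z' hz' h
    have h1 := congrArg Matrix.det h
    simp only [det_mul, dg_det, z.2.2, z'.2.2, mul_one] at h1
    have h2 : z.1 = z'.1 := Units.ext h1
    have h3 : z.2 = z'.2 := by
      apply Subtype.ext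
      have h4 : dg b ((z.1 : K)⁻¹) * (dg b (z.1 : K) * z.2.1) =
          dg b ((z.1 : K)⁻¹) * (dg b (z'.1 : K) * z'.2.1) := congrArg _ h
      rw [← h2, ← mul_assoc, ← mul_assoc, dg_mul, inv_mul_cancel₀ z.1.ne_zero, dg_one, one_mul,
        one_mul] at h4
      exact h4
    exact Prod.ext h2 h3
  · intro B hB
    rw [mem_filter] at hB
    have hd := hB.2.1
    refine ⟨(Units.mk0 B.det hd,
      ⟨dg b B.det⁻¹ * B, by rw [det_mul, dg_det, inv_mul_cancel₀ hd]⟩), ?_, ?_⟩
    · rw [mem_product, mem_filter]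
      exact ⟨mem_univ _, mem_univ _, (hQ _ _ (inv_ne_zero hd)).2 hB.2.2⟩
    · change dg b B.det * (dg b B.det⁻¹ * B) = B
      rw [← mul_assoc, dg_mul, mul_inv_cancel₀ hd, dg_one, one_mul]

end dg

variable {m : ℕ}

theorem ev_dg {F : MvPolynomial (Fin m × Fin m) ℤ} {w : Fin m → ℕ} (hw : IsWt F w) {p : ℕ}
    [Fact p.Prime] (i : Fin m) (l : ZMod p) (A : Matrix (Fin m) (Fin m) (ZMod p)) :
    ev (dg i l * A) F = l ^ w i * ev A F := by
  unfold dg
  rw [hw p _ A]
  congr 1
  rw [Finset.prod_eq_single i (fun a _ ha => by rw [if_neg ha, one_pow])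
    (fun h => absurd (mem_univ _) h), if_pos rfl]

theorem card_ren {p : ℕ} [Fact p.Prime] (F : MvPolynomial (Fin m × Fin m) ℤ) (r : ZMod p) :
    (univ.filter fun x : Fin (m * m) → ZMod p => aeval x
      (rename (finProdFinEquiv : Fin m × Fin m ≃ Fin (m * m)) F) = r).card =
      (univ.filter fun A : Matrix (Fin m) (Fin m) (ZMod p) => ev A F = r).card := by
  classical
  apply Finset.card_bij (fun x _ => (of fun i j => x (finProdFinEquiv (i, j)) :
    Matrix (Fin m) (Fin m) (ZMod p)))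
  · intro x hx
    rw [mem_filter] at hx ⊢
    refine ⟨mem_univ _, ?_⟩
    rw [← hx.2, aeval_rename]
    rfl
  · intro x _ y _ h
    funext k
    have h1 := congrFun (congrFun h (finProdFinEquiv.symm k).1) (finProdFinEquiv.symm k).2
    simp only [of_apply, Prod.mk.eta, Equiv.apply_symm_apply] at h1
    exact h1
  · intro A hA
    rw [mem_filter] at hA
    refine ⟨fun k => A (finProdFinEquiv.symm k).1 (finProdFinEquiv.symm k).2, ?_, ?_⟩
    · rw [mem_filter]
      refine ⟨mem_univ _, ?_⟩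
      rw [← hA.2, aeval_rename]
      unfold ev
      congr 2
      funext a
      simp only [Function.comp_apply, Equiv.symm_apply_apply]
    · ext i j
      simp only [of_apply, Equiv.symm_apply_apply]

theorem ev_det {R : Type} [CommRing R] (A : Matrix (Fin m) (Fin m) R) :
    ev A (mvPolynomialX (Fin m) (Fin m) ℤ).det = A.det := by
  have h3 := mvPolynomialX_mapMatrix_aeval (R := ℤ) A
  have h4 := (AlgHom.map_det (aeval fun a : Fin m × Fin m => A a.1 a.2)
    (mvPolynomialX (Fin m) (Fin m) ℤ) :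
    aeval (fun a : Fin m × Fin m => A a.1 a.2) (mvPolynomialX (Fin m) (Fin m) ℤ).det = _)
  rw [h3] at h4
  exact h4

theorem squarefree_ren {σ τ : Type} (e : σ ≃ τ) (F : MvPolynomial σ ℚ) (hF : Squarefree F) :
    Squarefree (MvPolynomial.rename e F) := by
  intro g hg
  have h1 := map_dvd (MvPolynomial.renameEquiv ℚ e.symm) hg
  rw [map_mul] at h1
  have h2 : (MvPolynomial.renameEquiv ℚ e.symm) (MvPolynomial.rename e F) = F := by
    rw [MvPolynomial.renameEquiv_apply, MvPolynomial.rename_rename, Equiv.symm_comp_self]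
    exact MvPolynomial.rename_id_apply _
  rw [h2] at h1
  exact (MulEquiv.isUnit_map (MvPolynomial.renameEquiv ℚ e.symm)).1 (hF _ h1)

theorem eq_sq {F : MvPolynomial (Fin m × Fin m) ℤ} {w : Fin m → ℕ} (hw : IsWt F w) {D : ℕ}
    (hD : 0 < D) (hF : F.IsHomogeneous D)
    (hsq : Squarefree (MvPolynomial.map (algebraMap ℤ ℚ) F)) (a b : Fin m) (ha : w a ≠ 0)
    (hb : w b = 0) : EQ F := by
  classical
  obtain ⟨σ, hσ⟩ : ∃ σ : Fin m × Fin m ≃ Fin (m * m), σ = finProdFinEquiv := ⟨_, rfl⟩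
  have hF0 : F ≠ 0 := by
    intro h
    rw [h, map_zero] at hsq
    exact hsq.ne_zero rfl
  have hsq' : Squarefree (MvPolynomial.map (algebraMap ℤ ℚ) (rename σ F)) := by
    rw [map_rename]
    exact squarefree_ren σ _ hsq
  have hh : (rename σ F).IsHomogeneous D := hF.rename_isHomogeneous
  have hF0' : rename σ F ≠ 0 := by
    intro h
    apply hF0
    apply rename_injective σ σ.injective
    rw [h, map_zero]
  have hnc : ∀ c, rename σ F ≠ MvPolynomial.C c := by
    intro c hc
    have h1 : (MvPolynomial.C c : MvPolynomial (Fin (m * m)) ℤ).IsHomogeneous 0 :=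
      isHomogeneous_C _ _
    rw [← hc] at h1
    exact hD.ne' (hh.inj_right h1 hF0')
  obtain ⟨C, hC, B₁, h1⟩ := Pool.Agent.Y837.SW.sq_U (rename σ F) hsq' hnc (fun _ => 1) D
    (by exact_mod_cast hD.ne') (by
      intro e he
      have := hh (mem_support_iff.1 he)
      rw [← this, Finsupp.weight_apply, Finsupp.sum_fintype _ _ (fun i => by simp)]
      simp)
  have hdnc : ∀ k, rename σ (mvPolynomialX (Fin m) (Fin m) ℤ).det ≠ MvPolynomial.C k := by
    intro k hk
    have h2 : (mvPolynomialX (Fin m) (Fin m) ℤ).det = MvPolynomial.C k := by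
      apply rename_injective σ σ.injective
      rw [hk, rename_C]
    have h3 : ∀ A : Matrix (Fin m) (Fin m) ℤ, A.det = k := by
      intro A
      rw [← ev_det, h2]
      exact aeval_C _ _
    have h4 := h3 1
    have h5 := h3 0
    rw [det_one] at h4
    have : Nonempty (Fin m) := ⟨a⟩
    rw [det_zero] at h5
    omega
  obtain ⟨K, B₂, h2⟩ := level _ hdnc
  refine ⟨2 * (C + (2 * w a + 1) * K), by positivity, B₁ + B₂ + 2 * K + 2, ?_⟩
  intro p hp hB r hr
  have hpp := (Fact.out : p.Prime)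
  have k1 := h1 p (by omega) r hr
  have k2 := h2 p (by omega) 0
  rw [hσ, card_ren] at k1 k2
  obtain ⟨nd, hnd⟩ : ∃ nd : ℕ, nd = (univ.filter fun A : Matrix (Fin m) (Fin m) (ZMod p) =>
    ev A (mvPolynomialX (Fin m) (Fin m) ℤ).det = 0).card := ⟨_, rfl⟩
  obtain ⟨NM, hNM⟩ : ∃ NM : ℕ, NM = (univ.filter fun A : Matrix (Fin m) (Fin m) (ZMod p) =>
    ev A F = r).card := ⟨_, rfl⟩
  obtain ⟨Δ, hΔ⟩ : ∃ Δ : ℕ, Δ = (univ.filter fun A : Matrix (Fin m) (Fin m) (ZMod p) =>
    A.det = 0 ∧ ev A F = r).card := ⟨_, rfl⟩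
  obtain ⟨NG, hNG⟩ : ∃ NG : ℕ, NG = (univ.filter fun A : Matrix (Fin m) (Fin m) (ZMod p) =>
    A.det ≠ 0 ∧ ev A F = r).card := ⟨_, rfl⟩
  obtain ⟨NS, hNS⟩ : ∃ NS : ℕ, NS = (univ.filter fun A : SpecialLinearGroup (Fin m) (ZMod p) =>
    ev A.1 F = r).card := ⟨_, rfl⟩
  obtain ⟨GS, hGS⟩ : ∃ GS : ℕ, GS = Fintype.card (SpecialLinearGroup (Fin m) (ZMod p)) := ⟨_, rfl⟩
  rw [← hNM] at k1
  rw [← hnd] at k2
  have hnd' : nd = (univ.filter fun A : Matrix (Fin m) (Fin m) (ZMod p) => A.det = 0).card := by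
    rw [hnd]
    congr 1
    ext A
    rw [mem_filter, mem_filter, ev_det]
  -- the singular matrices in the level set
  have k3 : (p - 1) * Δ ≤ w a * nd := by
    obtain ⟨S, hS⟩ : ∃ S, S = univ.filter fun A : Matrix (Fin m) (Fin m) (ZMod p) =>
      A.det = 0 ∧ ev A F = r := ⟨_, rfl⟩
    have hfib : ∀ A ∈ ((univ : Finset (ZMod p)ˣ) ×ˢ S).image
        (fun z => dg a (z.1 : ZMod p) * z.2),
        (((univ : Finset (ZMod p)ˣ) ×ˢ S).filter
          fun z => dg a (z.1 : ZMod p) * z.2 = A).card ≤ w a := by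
      intro A _
      refine le_trans ?_ (units_pow_le (p := p) (w a) (Nat.pos_of_ne_zero ha) (ev A F / r))
      apply Finset.card_le_card_of_injOn (fun z => z.1)
      · intro z hz
        rw [Finset.mem_coe, mem_filter, mem_product, hS, mem_filter] at hz
        rw [Finset.mem_coe, mem_filter]
        refine ⟨mem_univ _, ?_⟩
        rw [eq_div_iff hr, ← hz.2, ev_dg hw, hz.1.2.2.2]
      · intro z hz z' hz' h
        rw [Finset.mem_coe, mem_filter] at hz hz'
        simp only at h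
        refine Prod.ext h ?_
        have h4 : dg a ((z.1 : ZMod p)⁻¹) * (dg a (z.1 : ZMod p) * z.2) =
            dg a ((z.1 : ZMod p)⁻¹) * (dg a (z'.1 : ZMod p) * z'.2) := by
          rw [hz.2, hz'.2]
        rw [← h, ← mul_assoc, ← mul_assoc, dg_mul, inv_mul_cancel₀ z.1.ne_zero, dg_one, one_mul,
          one_mul] at h4
        exact h4
    have h3 := Finset.card_le_mul_card_image (f := fun z : (ZMod p)ˣ × Matrix (Fin m) (Fin m) (ZMod p) =>
      dg a (z.1 : ZMod p) * z.2) ((univ : Finset (ZMod p)ˣ) ×ˢ S) (w a) hfib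
    have h4 : (((univ : Finset (ZMod p)ˣ) ×ˢ S).image
        (fun z => dg a (z.1 : ZMod p) * z.2)).card ≤ nd := by
      rw [hnd']
      apply Finset.card_le_card
      intro A hA
      obtain ⟨z, hz, rfl⟩ := mem_image.1 hA
      rw [mem_product, hS, mem_filter] at hz
      rw [mem_filter]
      refine ⟨mem_univ _, ?_⟩
      rw [det_mul, hz.2.2.1, mul_zero]
    have hS' : S.card = Δ := by rw [hS, hΔ]
    rw [card_product, card_univ, ZMod.card_units, hS'] at h3
    exact h3.trans (Nat.mul_le_mul_left _ h4)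
  have k4 : NM = Δ + NG := by
    rw [hNM, hΔ, hNG, ← Finset.card_union_of_disjoint]
    · congr 1
      ext A
      rw [mem_union, mem_filter, mem_filter, mem_filter]
      by_cases h : A.det = 0
      · simp [h]
      · simp [h]
    · rw [Finset.disjoint_filter]
      intro A _ h h'
      exact h'.1 h.1
  have k5 : NG = (p - 1) * NS := by
    have h3 := card_gl (K := ZMod p) b (fun A => ev A F = r) (by
      intro l A hl
      rw [ev_dg hw, hb, pow_zero, one_mul])
    rw [ZMod.card] at h3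
    rw [hNG, hNS, h3]
  have k6 : p ^ (m * m) = nd + (p - 1) * GS := by
    have h3 := card_gl (K := ZMod p) (m := m) b (fun _ => True) (fun _ _ _ => Iff.rfl)
    rw [ZMod.card, Finset.filter_true_of_mem (fun _ _ => trivial), Finset.card_univ, ← hGS] at h3
    have h4 : Fintype.card (Matrix (Fin m) (Fin m) (ZMod p)) = p ^ (m * m) := by
      change Fintype.card (Fin m → Fin m → ZMod p) = _
      rw [Fintype.card_fun, Fintype.card_fun, ZMod.card, Fintype.card_fin, ← pow_mul]
    rw [← h4, ← h3, hnd', ← Finset.card_univ, ← Finset.card_union_of_disjoint]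
    · congr 1
      ext A
      rw [mem_union, mem_filter, mem_filter]
      by_cases h : A.det = 0
      · simp [h]
      · simp [h]
    · rw [Finset.disjoint_filter]
      intro A _ h h'
      exact h'.1 h
  rw [← hGS, ← hNS]
  obtain ⟨T, hT⟩ : ∃ T : ℝ, T = (p : ℝ) ^ (m * m) := ⟨_, rfl⟩
  rw [← hT] at k1 k2
  have hpB : (2 * (K : ℝ) + 2) ≤ p := by exact_mod_cast (by omega : 2 * K + 2 ≤ p)
  have hK0 : (0 : ℝ) ≤ K := Nat.cast_nonneg _
  have hp2 : (2 : ℝ) ≤ p := by linarith
  have hp0 : (0 : ℝ) < p := by linarith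
  have hT0 : 0 ≤ T := by rw [hT]; positivity
  have hsub : (((p - 1 : ℕ) : ℝ)) = p - 1 := by
    rw [Nat.cast_sub hpp.one_le, Nat.cast_one]
  have c3 : ((p : ℝ) - 1) * Δ ≤ w a * nd := by rw [← hsub]; exact_mod_cast k3
  have c4 : (NM : ℝ) = Δ + NG := by exact_mod_cast k4
  have c5 : (NG : ℝ) = ((p : ℝ) - 1) * NS := by rw [← hsub]; exact_mod_cast k5
  have c6 : T = nd + ((p : ℝ) - 1) * GS := by rw [← hsub, hT]; exact_mod_cast k6
  have hΔ0 : (0 : ℝ) ≤ Δ := Nat.cast_nonneg _
  have hnd0 : (0 : ℝ) ≤ nd := Nat.cast_nonneg _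
  have hs0 : 0 ≤ Real.sqrt p := Real.sqrt_nonneg _
  have hsq2 : Real.sqrt p * Real.sqrt p = p := Real.mul_self_sqrt (by linarith)
  have hs1 : Real.sqrt p ≤ p := by
    have : 1 ≤ Real.sqrt p := by rw [Real.one_le_sqrt]; linarith
    nlinarith
  have e1 : (nd : ℝ) * Real.sqrt p ≤ K * T :=
    (mul_le_mul_of_nonneg_left hs1 hnd0).trans k2
  have e2 : (p : ℝ) * Δ ≤ 2 * (w a * nd) := by nlinarith
  have e3 : (p : ℝ) * Δ * Real.sqrt p ≤ 2 * w a * (K * T) := by
    calc (p : ℝ) * Δ * Real.sqrt p ≤ 2 * (w a * nd) * Real.sqrt p :=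
          mul_le_mul_of_nonneg_right e2 hs0
      _ = 2 * w a * (nd * Real.sqrt p) := by ring
      _ ≤ _ := mul_le_mul_of_nonneg_left e1 (by positivity)
  have e4 : ((p : ℝ) - 1) * (p * NS - GS) = (p * NM - T) - p * Δ + nd := by
    rw [c4, c5, c6]
    ring
  have e5 : |((p : ℝ) - 1) * (p * NS - GS)| ≤ |(p : ℝ) * NM - T| + p * Δ + nd := by
    rw [e4]
    refine (abs_add_le _ _).trans ?_
    rw [abs_of_nonneg hnd0]
    refine add_le_add ?_ le_rfl
    refine (abs_sub _ _).trans ?_
    rw [abs_of_nonneg (mul_nonneg hp0.le hΔ0)]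
  rw [abs_mul, abs_of_pos (by linarith : (0 : ℝ) < p - 1)] at e5
  have e6 : ((p : ℝ) - 1) * (|(p : ℝ) * NS - GS| * Real.sqrt p) ≤ (C + (2 * w a + 1) * K) * T := by
    calc ((p : ℝ) - 1) * (|(p : ℝ) * NS - GS| * Real.sqrt p)
        = ((p : ℝ) - 1) * |(p : ℝ) * NS - GS| * Real.sqrt p := by ring
      _ ≤ (|(p : ℝ) * NM - T| + p * Δ + nd) * Real.sqrt p := mul_le_mul_of_nonneg_right e5 hs0
      _ = |(p : ℝ) * NM - T| * Real.sqrt p + p * Δ * Real.sqrt p + nd * Real.sqrt p := by ring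
      _ ≤ C * T + 2 * w a * (K * T) + K * T := add_le_add (add_le_add k1 e3) e1
      _ = _ := by ring
  have e7 : T ≤ 2 * (((p : ℝ) - 1) * GS) := by
    have h3 : (nd : ℝ) * p ≤ K * T := k2
    have h4 : 2 * (nd : ℝ) ≤ T := by
      by_contra hcon
      push Not at hcon
      nlinarith
    linarith
  have e8 : ((p : ℝ) - 1) * (|(p : ℝ) * NS - GS| * Real.sqrt p) ≤
      ((p : ℝ) - 1) * (2 * (C + (2 * w a + 1) * K) * GS) := by
    refine e6.trans ?_
    have : (C + (2 * w a + 1) * K) * T ≤ (C + (2 * w a + 1) * K) * (2 * (((p : ℝ) - 1) * GS)) :=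
      mul_le_mul_of_nonneg_left e7 (by positivity)
    linarith
  exact le_of_mul_le_mul_left e8 (by linarith)

end Pool.Agent.R433.WF
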