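import Mathlib

/-! Cocharacters separating two exponents. -/

set_option autoImplicit false

namespace Pool.Agent.R433.WF

open Finset

variable {m : ℕ}

theorem cs_eq (u v : Fin m → ℤ) (h : (∑ i, v i * v i) * (∑ i, u i * u i) ≤
    (∑ i, u i * v i) * (∑ i, u i * v i)) (i : Fin m) :
    (∑ i, v i * v i) * u i = (∑ i, u i * v i) * v i := by
  obtain ⟨V, hV⟩ : ∃ V, V = ∑ i, v i * v i := ⟨_, rfl⟩
  obtain ⟨U, hU⟩ : ∃ U, U = ∑ i, u i * u i := ⟨_, rfl⟩
  obtain ⟨S, hS⟩ : ∃ S, S = ∑ i, u i * v i := ⟨_, rfl⟩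
  rw [← hV, ← hU, ← hS] at h
  rw [← hV, ← hS]
  have hV0 : 0 ≤ V := by rw [hV]; exact Finset.sum_nonneg fun i _ => mul_self_nonneg _
  have h1 : ∑ i, (V * u i - S * v i) * (V * u i - S * v i) = V * (V * U - S * S) := by
    have : ∀ i, (V * u i - S * v i) * (V * u i - S * v i) =
        V * V * (u i * u i) - 2 * V * S * (u i * v i) + S * S * (v i * v i) := fun i => by ring
    simp_rw [this]
    rw [Finset.sum_add_distrib, Finset.sum_sub_distrib, ← Finset.mul_sum, ← Finset.mul_sum,
      ← Finset.mul_sum, ← hV, ← hU, ← hS]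
    ring
  have h2 : ∑ i, (V * u i - S * v i) * (V * u i - S * v i) = 0 := by
    apply le_antisymm
    · rw [h1]
      exact mul_nonpos_of_nonneg_of_nonpos hV0 (by linarith)
    · exact Finset.sum_nonneg fun i _ => mul_self_nonneg _
  have h3 := (Finset.sum_eq_zero_iff_of_nonneg (fun i _ => mul_self_nonneg _)).1 h2 i (mem_univ i)
  have h4 := mul_self_eq_zero.1 h3
  linarith

/-- two different exponents of the same degree `D < m` are separated by a cocharacter -/
theorem separate {D : ℕ} (hD : D < m) (α β : Fin m → ℕ) (hα : ∑ i, α i = D) (hβ : ∑ i, β i = D)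
    (hne : α ≠ β) : ∃ c : Fin m → ℤ, ∑ i, c i = 0 ∧ 0 < ∑ i, c i * (α i : ℤ) ∧
      ∑ i, c i * (β i : ℤ) ≤ 0 := by
  have hzero : ∀ γ : Fin m → ℕ, ∑ i, γ i = D → ∃ z, γ z = 0 := by
    intro γ hγ
    by_contra hcon
    push Not at hcon
    have h1 : ∑ _i : Fin m, 1 ≤ ∑ i, γ i := Finset.sum_le_sum fun i _ => Nat.pos_of_ne_zero (hcon i)
    rw [hγ] at h1
    simp at h1
    omega
  obtain ⟨z, hz⟩ := hzero α hα
  obtain ⟨z', hz'⟩ := hzero β hβ
  have hm0 : (0 : ℤ) < m := by exact_mod_cast (by omega : 0 < m)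
  have hαZ : ∑ i, (α i : ℤ) = D := by exact_mod_cast hα
  have hβZ : ∑ i, (β i : ℤ) = D := by exact_mod_cast hβ
  have hD0 : 0 < D := by
    rcases Nat.eq_zero_or_pos D with h | h
    · exfalso
      apply hne
      rw [h] at hα hβ
      funext i
      have h1 := Finset.single_le_sum (f := α) (fun _ _ => Nat.zero_le _) (mem_univ i)
      have h2 := Finset.single_le_sum (f := β) (fun _ _ => Nat.zero_le _) (mem_univ i)
      omega
    · exact h
  let u : Fin m → ℤ := fun i => m * α i - D
  let v : Fin m → ℤ := fun i => m * β i - D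
  have hu0 : ∑ i, u i = 0 := by
    simp only [u]
    rw [Finset.sum_sub_distrib, ← Finset.mul_sum, hαZ]
    simp
  have hv0 : ∑ i, v i = 0 := by
    simp only [v]
    rw [Finset.sum_sub_distrib, ← Finset.mul_sum, hβZ]
    simp
  -- for a vector of sum zero the pairings with `u` and with `α` agree up to `m`
  have hpu : ∀ c : Fin m → ℤ, ∑ i, c i = 0 → ∑ i, c i * u i = m * ∑ i, c i * (α i : ℤ) := by
    intro c hc
    have : ∀ i, c i * u i = m * (c i * (α i : ℤ)) - D * c i := fun i => by simp only [u]; ring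
    simp_rw [this]
    rw [Finset.sum_sub_distrib, ← Finset.mul_sum, ← Finset.mul_sum, hc]
    ring
  have hpv : ∀ c : Fin m → ℤ, ∑ i, c i = 0 → ∑ i, c i * v i = m * ∑ i, c i * (β i : ℤ) := by
    intro c hc
    have : ∀ i, c i * v i = m * (c i * (β i : ℤ)) - D * c i := fun i => by simp only [v]; ring
    simp_rw [this]
    rw [Finset.sum_sub_distrib, ← Finset.mul_sum, ← Finset.mul_sum, hc]
    ring
  obtain ⟨U, hU⟩ : ∃ U, U = ∑ i, u i * u i := ⟨_, rfl⟩
  obtain ⟨V, hV⟩ : ∃ V, V = ∑ i, v i * v i := ⟨_, rfl⟩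
  obtain ⟨S, hS⟩ : ∃ S, S = ∑ i, u i * v i := ⟨_, rfl⟩
  have huz : u z = -D := by simp only [u]; rw [hz]; simp
  have hvz' : v z' = -D := by simp only [v]; rw [hz']; simp
  have hUpos : 0 < U := by
    rw [hU]
    refine Finset.sum_pos' (fun i _ => mul_self_nonneg _) ⟨z, mem_univ _, ?_⟩
    rw [huz]
    have : (0 : ℤ) < D := by exact_mod_cast hD0
    nlinarith
  have hVpos : 0 < V := by
    rw [hV]
    refine Finset.sum_pos' (fun i _ => mul_self_nonneg _) ⟨z', mem_univ _, ?_⟩
    rw [hvz']
    have : (0 : ℤ) < D := by exact_mod_cast hD0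
    nlinarith
  by_cases hS0 : S ≤ 0
  · refine ⟨u, hu0, ?_, ?_⟩
    · have h1 := hpu u hu0
      rw [← hU] at h1
      by_contra hcon
      push Not at hcon
      have := mul_nonpos_of_nonneg_of_nonpos hm0.le hcon
      linarith
    · have h1 := hpv u hu0
      rw [← hS] at h1
      by_contra hcon
      push Not at hcon
      have := mul_pos hm0 hcon
      linarith
  · push Not at hS0
    have hstrict : S * S < V * U := by
      by_contra hcon
      push Not at hcon
      have h1 := cs_eq u v (by rw [← hV, ← hU, ← hS]; exact hcon)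
      rw [← hV, ← hS] at h1
      have h2 := h1 z
      have h3 := h1 z'
      rw [huz] at h2
      rw [hvz'] at h3
      have hDp : (0 : ℤ) < D := by exact_mod_cast hD0
      -- from the coordinate `z`: `V ≤ S`
      have h4 : -(D : ℤ) ≤ v z := by
        simp only [v]
        have : (0 : ℤ) ≤ m * β z := by positivity
        linarith
      have h5 : -(D : ℤ) ≤ u z' := by
        simp only [u]
        have : (0 : ℤ) ≤ m * α z' := by positivity
        linarith
      have h6 : V ≤ S := by
        have : S * -(D : ℤ) ≤ V * -(D : ℤ) := by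
          rw [h2]
          exact mul_le_mul_of_nonneg_left h4 hS0.le
        nlinarith
      have h7 : S ≤ V := by
        have : V * -(D : ℤ) ≤ S * -(D : ℤ) := by
          rw [← h3]
          exact mul_le_mul_of_nonneg_left h5 hVpos.le
        nlinarith
      have h8 : S = V := le_antisymm h7 h6
      apply hne
      funext i
      have h9 := h1 i
      rw [h8] at h9
      have h10 : u i = v i := mul_left_cancel₀ hVpos.ne' h9
      simp only [u, v] at h10
      have h11 : (m : ℤ) * α i = m * β i := by linarith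
      exact_mod_cast mul_left_cancel₀ hm0.ne' h11
    refine ⟨fun i => V * u i - S * v i, ?_, ?_, ?_⟩
    · rw [Finset.sum_sub_distrib, ← Finset.mul_sum, ← Finset.mul_sum, hu0, hv0]
      ring
    · have h0 : ∑ i, (V * u i - S * v i) = 0 := by
        rw [Finset.sum_sub_distrib, ← Finset.mul_sum, ← Finset.mul_sum, hu0, hv0]
        ring
      have h1 := hpu _ h0
      have h2 : ∑ i, (V * u i - S * v i) * u i = V * U - S * S := by
        have : ∀ i, (V * u i - S * v i) * u i = V * (u i * u i) - S * (u i * v i) :=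
          fun i => by ring
        simp_rw [this]
        rw [Finset.sum_sub_distrib, ← Finset.mul_sum, ← Finset.mul_sum, ← hU, ← hS]
      rw [h2] at h1
      by_contra hcon
      push Not at hcon
      have := mul_nonpos_of_nonneg_of_nonpos hm0.le hcon
      linarith
    · have h0 : ∑ i, (V * u i - S * v i) = 0 := by
        rw [Finset.sum_sub_distrib, ← Finset.mul_sum, ← Finset.mul_sum, hu0, hv0]
        ring
      have h1 := hpv _ h0
      have h2 : ∑ i, (V * u i - S * v i) * v i = 0 := by
        have : ∀ i, (V * u i - S * v i) * v i = V * (u i * v i) - S * (v i * v i) :=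
          fun i => by ring
        simp_rw [this]
        rw [Finset.sum_sub_distrib, ← Finset.mul_sum, ← Finset.mul_sum, ← hV, ← hS]
        ring
      rw [h2] at h1
      rcases mul_eq_zero.1 h1.symm with h3 | h3
      · exact absurd h3 hm0.ne'
      · exact h3.le

/-- an exponent of prime degree which is not a multiple of a unit vector has a primitive weight -/
theorem primitive {D : ℕ} (hDp : D.Prime) (hD : D < m) (α : Fin m → ℕ) (hα : ∑ i, α i = D)
    (hne : ∀ i, α i ≠ D) : ∃ c : Fin m → ℤ, ∑ i, c i = 0 ∧ ∑ i, c i * (α i : ℤ) = 1 := by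
  classical
  obtain ⟨z, hz⟩ : ∃ z, α z = 0 := by
    by_contra hcon
    push Not at hcon
    have h1 : ∑ _i : Fin m, 1 ≤ ∑ i, α i := Finset.sum_le_sum fun i _ => Nat.pos_of_ne_zero (hcon i)
    rw [hα] at h1
    simp at h1
    omega
  have hgcd : (univ : Finset (Fin m)).gcd (fun i => (α i : ℤ)) = 1 := by
    obtain ⟨g, hg⟩ : ∃ g : ℕ, g = (univ : Finset (Fin m)).gcd α := ⟨_, rfl⟩
    have hgd : ∀ i, g ∣ α i := fun i => by rw [hg]; exact Finset.gcd_dvd (mem_univ i)
    have hgD : g ∣ D := by
      rw [← hα]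
      exact Finset.dvd_sum fun i _ => hgd i
    have hg1 : g = 1 := by
      rcases (Nat.dvd_prime hDp).1 hgD with h | h
      · exact h
      · exfalso
        obtain ⟨i, hi⟩ : ∃ i, α i ≠ 0 := by
          by_contra hcon
          push Not at hcon
          rw [Finset.sum_eq_zero fun i _ => hcon i] at hα
          exact hDp.ne_zero hα.symm
        have h1 := Nat.le_of_dvd (Nat.pos_of_ne_zero hi) (hgd i)
        have h2 := Finset.single_le_sum (f := α) (fun _ _ => Nat.zero_le _) (mem_univ i)
        rw [hα] at h2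
        exact hne i (by omega)
    have h2 : (univ : Finset (Fin m)).gcd (fun i => (α i : ℤ)) ∣ 1 := by
      have h3 : ((univ : Finset (Fin m)).gcd (fun i => (α i : ℤ))).natAbs ∣ g := by
        rw [hg]
        apply Finset.dvd_gcd
        intro i _
        have h4 : (univ : Finset (Fin m)).gcd (fun i => (α i : ℤ)) ∣ (α i : ℤ) :=
          Finset.gcd_dvd (mem_univ i)
        have h5 := Int.natAbs_dvd_natAbs.2 h4
        rwa [Int.natAbs_natCast] at h5
      rw [hg1] at h3
      have := Int.natCast_dvd_natCast.2 h3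
      rw [Nat.cast_one] at this
      exact Int.natAbs_dvd.1 this
    have h3 : normalize ((univ : Finset (Fin m)).gcd (fun i => (α i : ℤ))) =
        (univ : Finset (Fin m)).gcd (fun i => (α i : ℤ)) := Finset.normalize_gcd
    rw [← h3]
    exact normalize_eq_one.2 (isUnit_of_dvd_one h2)
  obtain ⟨b, hb⟩ : ∃ b : Fin m → ℤ, ∑ i, b i * (α i : ℤ) = 1 := by
    obtain ⟨b, hb⟩ := Finset.gcd_eq_sum_mul (univ : Finset (Fin m)) (fun i => (α i : ℤ))
    exact ⟨b, by rw [← hgcd, hb]; exact Finset.sum_congr rfl fun i _ => mul_comm _ _⟩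
  refine ⟨fun i => if i = z then b z - ∑ j, b j else b i, ?_, ?_⟩
  · rw [← Finset.add_sum_erase _ _ (mem_univ z), if_pos rfl]
    have h1 : ∑ i ∈ univ.erase z, (if i = z then b z - ∑ j, b j else b i) =
        ∑ i ∈ univ.erase z, b i :=
      Finset.sum_congr rfl fun i hi => if_neg (ne_of_mem_erase hi)
    rw [h1]
    have h2 := Finset.add_sum_erase univ b (mem_univ z)
    linarith
  · rw [← hb]
    refine Finset.sum_congr rfl fun i _ => ?_
    by_cases h : i = z
    · rw [h, hz]
      simp
    · simp only [if_neg h]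

end Pool.Agent.R433.WF
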