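import Pool.Agent.R433.WF.Gen
import Pool.Agent.R433.WF.EqSq
import Pool.Agent.R433.WF.Sep

/-! Record gaps around the coefficients of the forms in a class. -/

set_option autoImplicit false
set_option linter.unusedSectionVars false

namespace Pool.Agent.R433.WF

open Finset Matrix MvPolynomial
open Pool.Agent.H256R2.SC (ff)
open Pool.Agent.R433.SL

theorem formmain (m D q : ℕ) (hD : 0 < D) (hm : D < m) (hq : 0 < q) (g : MvPolynomial (Fin m) ℤ)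
    (hg : g.IsHomogeneous D) (hsq : Squarefree (MvPolynomial.map (algebraMap ℤ ℚ) g)) :
    ∃ c : ℝ, 0 < c ∧ ∃ Z₀ : ℝ, ∀ Z : ℕ, Z₀ ≤ Z → ∃ A : Matrix (Fin m) (Fin m) ℤ,
      A.det = 1 ∧ (∀ i j, |A i j| ≤ Z) ∧
      (∀ i j, (q : ℤ) ∣ A i j - (1 : Matrix (Fin m) (Fin m) ℤ) i j) ∧
      ∀ α : Fin m →₀ ℕ, ∑ i, α i = D → |coeff α (sb A g)| ≤ Z ∧
        ∀ t : ℤ, |(t : ℝ) - (coeff α (sb A g) : ℤ)| ≤ c * ff Z →
          ∃ p : ℕ, p.Prime ∧ (p : ℤ) ^ 10 ≤ |t| ∧ (p : ℤ) ∣ t := by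
  classical
  obtain ⟨n, rfl⟩ : ∃ n, m = n + 1 := ⟨m - 1, by omega⟩
  have hg0 : g ≠ 0 := by
    intro h
    rw [h, map_zero] at hsq
    exact hsq.ne_zero rfl
  let ι : Type := {α : Fin (n + 1) → ℕ // α ∈ Finset.piAntidiag (univ : Finset (Fin (n + 1))) D}
  have hsum : ∀ j : ι, ∑ i, j.1 i = D := fun j => (Finset.mem_piAntidiag.1 j.2).1
  let F : ι → MvPolynomial (Fin (n + 1) × Fin (n + 1)) ℤ := fun j =>
    gc g (Finsupp.equivFunOnFinite.symm j.1)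
  have hw : ∀ j : ι, IsWt (F j) j.1 := fun j => isWt_gc g (Finsupp.equivFunOnFinite.symm j.1)
  have hnz : ∀ j : ι, NZ (F j) := fun j =>
    nz_of_ne (gc_ne hg hg0 (Finsupp.equivFunOnFinite.symm j.1) (hsum j)) (hw j) (Nat.succ_pos n)
  have hex : ∀ j : ι, ∃ a, j.1 a ≠ 0 := by
    intro j
    by_contra hcon
    push Not at hcon
    have h1 := hsum j
    rw [Finset.sum_eq_zero fun i _ => hcon i] at h1
    omega
  have hez : ∀ j : ι, ∃ b, j.1 b = 0 := by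
    intro j
    by_contra hcon
    push Not at hcon
    have h1 : ∑ _i : Fin (n + 1), 1 ≤ ∑ i, j.1 i :=
      Finset.sum_le_sum fun i _ => Nat.pos_of_ne_zero (hcon i)
    rw [hsum j] at h1
    simp at h1
    omega
  have hc' : ∀ j : ι, ∃ c : Fin (n + 1) → ℤ, ∑ a, c a = 0 ∧ ∑ a, c a * (j.1 a : ℤ) ≠ 0 := by
    intro j
    obtain ⟨i, hi⟩ := hex j
    obtain ⟨b, hb⟩ := hez j
    have hbi : b ≠ i := fun h => hi (by rw [← h, hb])
    refine ⟨fun a => (if a = i then 1 else 0) - (if a = b then 1 else 0), ?_, ?_⟩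
    · rw [Finset.sum_sub_distrib]
      simp
    · simp only [sub_mul, ite_mul, one_mul, zero_mul]
      rw [Finset.sum_sub_distrib]
      simp [hb, hi]
  have hE' : ∀ j : ι, EQ (F j) ∨ ∃ c : Fin (n + 1) → ℤ, ∑ a, c a = 0 ∧
      ∑ a, c a * (j.1 a : ℤ) = 1 := by
    intro j
    obtain ⟨i, hi⟩ := hex j
    obtain ⟨b, hb⟩ := hez j
    exact Or.inl (eq_sq (hw j) hD (gc_hom hg _)
      (squarefree_gc hg hsq (Finsupp.equivFunOnFinite.symm j.1) (hsum j)) i b hi hb)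
  have hp' : ∀ i j : ι, i ≠ j → ∃ c : Fin (n + 1) → ℤ, ∑ a, c a = 0 ∧
      0 < ∑ a, c a * (i.1 a : ℤ) ∧ ∑ a, c a * (j.1 a : ℤ) ≤ 0 := by
    intro i j hij
    exact separate hm i.1 j.1 (hsum i) (hsum j) (fun h => hij (Subtype.ext h))
  obtain ⟨c, hc, Z₀, h⟩ := genmain n q hq 1 F (fun j => j.1) hw hnz hc' hE' hp'
  refine ⟨c, hc, Z₀, fun Z hZ => ?_⟩
  obtain ⟨A, h1, h2, h3⟩ := h Z hZ
  refine ⟨A.1, A.2, h1, h2, ?_⟩
  intro α hα
  have hmem : (fun i => α i) ∈ Finset.piAntidiag (univ : Finset (Fin (n + 1))) D :=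
    Finset.mem_piAntidiag.2 ⟨hα, fun i _ => mem_univ i⟩
  have h4 := h3 ⟨fun i => α i, hmem⟩
  have h5 : ev A.1 (F ⟨fun i => α i, hmem⟩) = coeff α (sb A.1 g) := by
    have h6 : (Finsupp.equivFunOnFinite.symm fun i => α i) = α := by
      ext i
      rfl
    change ev A.1 (gc g (Finsupp.equivFunOnFinite.symm fun i => α i)) = _
    rw [h6, ev_gc]
  rw [h5] at h4
  exact h4

end Pool.Agent.R433.WF
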