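import Pool.Agent.R433.WF.Gen
import Pool.Agent.R433.WF.Form

/-! Multilinear forms at the vectors of a basis. -/

set_option autoImplicit false
set_option linter.unusedSectionVars false

namespace Pool.Agent.R433.WF

open Finset Matrix MvPolynomial
open Pool.Agent.H256R2.SC (ff)
open Pool.Agent.R433.SL

variable {m : ℕ}

/-- the value of a multilinear form at rows of a matrix, as a polynomial -/
noncomputable def ml (I : Finset (Fin m))
    (φ : MultilinearMap ℤ (fun _ : {x // x ∈ I} => Fin m → ℤ) ℤ) :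
    MvPolynomial (Fin m × Fin m) ℤ :=
  ∑ s : ({x // x ∈ I} → Fin m), MvPolynomial.C (φ fun i => Pi.single (s i) 1) *
    ∏ i : {x // x ∈ I}, X (i.1, s i)

theorem ev_ml {R : Type} [CommRing R] (A : Matrix (Fin m) (Fin m) R) (I : Finset (Fin m))
    (φ : MultilinearMap ℤ (fun _ : {x // x ∈ I} => Fin m → ℤ) ℤ) :
    ev A (ml I φ) = ∑ s : ({x // x ∈ I} → Fin m), ((φ fun i => Pi.single (s i) 1 : ℤ) : R) *
      ∏ i : {x // x ∈ I}, A i.1 (s i) := by
  unfold ev ml
  rw [map_sum]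
  refine Finset.sum_congr rfl fun s _ => ?_
  rw [map_mul, aeval_C, map_prod]
  congr 1
  refine Finset.prod_congr rfl fun i _ => ?_
  rw [aeval_X]

theorem ev_ml_int (A : Matrix (Fin m) (Fin m) ℤ) (I : Finset (Fin m))
    (φ : MultilinearMap ℤ (fun _ : {x // x ∈ I} => Fin m → ℤ) ℤ) :
    ev A (ml I φ) = φ fun i => A i.1 := by
  classical
  rw [ev_ml]
  have h1 : (fun i : {x // x ∈ I} => A i.1) =
      fun i : {x // x ∈ I} => ∑ j, A i.1 j • (Pi.single j (1 : ℤ) : Fin m → ℤ) := by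
    funext i
    funext k
    rw [Finset.sum_apply, Finset.sum_eq_single k]
    · rw [Pi.smul_apply, Pi.single_eq_same, smul_eq_mul, mul_one]
    · intro j _ hj
      rw [Pi.smul_apply, Pi.single_eq_of_ne hj.symm, smul_zero]
    · exact fun h => absurd (mem_univ _) h
  rw [h1, MultilinearMap.map_sum]
  refine Finset.sum_congr rfl fun s _ => ?_
  rw [MultilinearMap.map_smul_univ, smul_eq_mul, mul_comm, Int.cast_id]

/-- the weight -/
def ind (I : Finset (Fin m)) (a : Fin m) : ℕ := if a ∈ I then 1 else 0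

theorem isWt_ml (I : Finset (Fin m))
    (φ : MultilinearMap ℤ (fun _ : {x // x ∈ I} => Fin m → ℤ) ℤ) : IsWt (ml I φ) (ind I) := by
  classical
  intro p hp t A
  rw [ev_ml, ev_ml, Finset.mul_sum]
  refine Finset.sum_congr rfl fun s _ => ?_
  have h1 : ∏ a, t a ^ ind I a = ∏ i : {x // x ∈ I}, t i.1 := by
    rw [Finset.prod_coe_sort I t]
    unfold ind
    rw [← Finset.prod_filter_mul_prod_filter_not univ (fun a => a ∈ I)]
    rw [Finset.filter_mem_eq_inter, Finset.univ_inter, Finset.prod_congr rfl (g := fun a => t a),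
      Finset.prod_eq_one (s := univ.filter fun a => a ∉ I), mul_one]
    · intro a ha
      rw [mem_filter] at ha
      rw [if_neg ha.2, pow_zero]
    · intro a ha
      rw [if_pos ha, pow_one]
  have h2 : ∏ i : {x // x ∈ I}, (diagonal t * A) i.1 (s i) =
      (∏ i : {x // x ∈ I}, t i.1) * ∏ i : {x // x ∈ I}, A i.1 (s i) := by
    rw [← Finset.prod_mul_distrib]
    refine Finset.prod_congr rfl fun i _ => ?_
    rw [diagonal_mul]
  rw [h1, h2]
  ring

theorem ml_ne (I : Finset (Fin m))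
    (φ : MultilinearMap ℤ (fun _ : {x // x ∈ I} => Fin m → ℤ) ℤ) (hφ : φ ≠ 0) : ml I φ ≠ 0 := by
  classical
  intro h
  apply hφ
  refine MultilinearMap.ext fun v => ?_
  have h1 := ev_ml_int (of fun a => if h : a ∈ I then v ⟨a, h⟩ else 0) I φ
  rw [h] at h1
  have h2 : ev (of fun a => if h : a ∈ I then v ⟨a, h⟩ else 0)
      (0 : MvPolynomial (Fin m × Fin m) ℤ) = 0 := map_zero _
  rw [h2] at h1
  have h3 : (fun i : {x // x ∈ I} => (of fun a => if h : a ∈ I then v ⟨a, h⟩ else 0 :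
      Matrix (Fin m) (Fin m) ℤ) i.1) = v := by
    funext i
    change (if h : i.1 ∈ I then v ⟨i.1, h⟩ else 0) = v i
    rw [dif_pos i.2]
  rw [h3] at h1
  exact h1.symm

theorem ind_pair (I : Finset (Fin m)) (a b : Fin m) :
    ∑ x, ((if x = a then (1 : ℤ) else 0) - (if x = b then 1 else 0)) * (ind I x : ℤ) =
      ind I a - ind I b := by
  simp only [sub_mul, ite_mul, one_mul, zero_mul]
  rw [Finset.sum_sub_distrib]
  simp

theorem multimain (m q : ℕ) (hq : 0 < q) (A₀ : SpecialLinearGroup (Fin m) ℤ)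
    (φ : ∀ I : Finset (Fin m), MultilinearMap ℤ (fun _ : {x // x ∈ I} => Fin m → ℤ) ℤ)
    (hφ : ∀ I, φ I ≠ 0) :
    ∃ c : ℝ, 0 < c ∧ ∃ Z₀ : ℝ, ∀ Z : ℕ, Z₀ ≤ Z → ∃ A : Matrix (Fin m) (Fin m) ℤ,
      A.det = 1 ∧ (∀ i j, |A i j| ≤ Z) ∧ (∀ i j, (q : ℤ) ∣ A i j - A₀.1 i j) ∧
      ∀ I : Finset (Fin m), I.Nonempty → I ≠ univ → |φ I fun i => A i.1| ≤ Z ∧
        ∀ t : ℤ, |(t : ℝ) - ((φ I fun i => A i.1 : ℤ) : ℝ)| ≤ c * ff Z →
          ∃ p : ℕ, p.Prime ∧ (p : ℤ) ^ 10 ≤ |t| ∧ (p : ℤ) ∣ t := by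
  classical
  cases m with
  | zero =>
    exact ⟨1, one_pos, 0, fun Z _ => ⟨A₀.1, A₀.2, fun i => i.elim0, fun i => i.elim0,
      fun I hI => absurd hI (by rw [Finset.eq_empty_of_isEmpty I]; exact Finset.not_nonempty_empty)⟩⟩
  | succ n =>
    let ι : Type := {I : Finset (Fin (n + 1)) // I.Nonempty ∧ I ≠ univ}
    have hin : ∀ j : ι, ∃ a, a ∈ j.1 := fun j => j.2.1
    have hout : ∀ j : ι, ∃ b, b ∉ j.1 := by
      intro j
      by_contra hcon
      push Not at hcon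
      exact j.2.2 (Finset.eq_univ_of_forall hcon)
    have hc0 : ∀ a b : Fin (n + 1),
        ∑ x, ((if x = a then (1 : ℤ) else 0) - (if x = b then 1 else 0)) = 0 := by
      intro a b
      rw [Finset.sum_sub_distrib]
      simp
    have hone : ∀ j : ι, ∃ c : Fin (n + 1) → ℤ, ∑ a, c a = 0 ∧
        ∑ a, c a * (ind j.1 a : ℤ) = 1 := by
      intro j
      obtain ⟨a, ha⟩ := hin j
      obtain ⟨b, hb⟩ := hout j
      refine ⟨_, hc0 a b, ?_⟩
      rw [ind_pair]
      simp [ind, ha, hb]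
    have hp' : ∀ i j : ι, i ≠ j → ∃ c : Fin (n + 1) → ℤ, ∑ a, c a = 0 ∧
        0 < ∑ a, c a * (ind i.1 a : ℤ) ∧ ∑ a, c a * (ind j.1 a : ℤ) ≤ 0 := by
      intro i j hij
      by_cases hs : i.1 ⊆ j.1
      · obtain ⟨a, ha⟩ := hin i
        obtain ⟨b, hb1, hb2⟩ : ∃ b, b ∈ j.1 ∧ b ∉ i.1 := by
          by_contra hcon
          push Not at hcon
          exact hij (Subtype.ext (Finset.Subset.antisymm hs hcon))
        refine ⟨_, hc0 a b, ?_, ?_⟩
        · rw [ind_pair]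
          simp [ind, ha, hb2]
        · rw [ind_pair]
          simp [ind, hs ha, hb1]
      · obtain ⟨a, ha1, ha2⟩ := Finset.not_subset.1 hs
        obtain ⟨b, hb⟩ := hout i
        refine ⟨_, hc0 a b, ?_, ?_⟩
        · rw [ind_pair]
          simp [ind, ha1, hb]
        · rw [ind_pair]
          simp only [ind, if_neg ha2]
          split_ifs <;> norm_num
    obtain ⟨c, hc, Z₀, h⟩ := genmain n q hq A₀ (fun j : ι => ml j.1 (φ j.1)) (fun j => ind j.1)
      (fun j => isWt_ml _ _)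
      (fun j => nz_of_ne (ml_ne _ _ (hφ j.1)) (isWt_ml _ _) (Nat.succ_pos n))
      (fun j => by
        obtain ⟨c, h1, h2⟩ := hone j
        exact ⟨c, h1, by rw [h2]; exact one_ne_zero⟩)
      (fun j => Or.inr (hone j)) hp'
    refine ⟨c, hc, Z₀, fun Z hZ => ?_⟩
    obtain ⟨A, h1, h2, h3⟩ := h Z hZ
    refine ⟨A.1, A.2, h1, h2, ?_⟩
    intro I hI1 hI2
    have h4 := h3 ⟨I, hI1, hI2⟩
    rw [ev_ml_int] at h4
    exact h4

end Pool.Agent.R433.WF
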