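import Pool.Agent.R433.WF.Form

/-! The coefficients of a generic substitution in a squarefree form are squarefree. -/

set_option autoImplicit false
set_option linter.unusedSectionVars false

namespace Pool.Agent.R433.WF

open Finset Matrix MvPolynomial
open Pool.Agent.R433.SL

/-- a divisor of a form is a form (as in `Pool/Agent/Chud/PD1.lean`) -/
theorem homog_of_dvd {k : Type*} [Field k] {σ : Type*} [Finite σ] {F G : MvPolynomial σ k} {n : ℕ}
    (hF : F.IsHomogeneous n) (hF0 : F ≠ 0) (h : G ∣ F) : G.IsHomogeneous G.totalDegree := by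
  obtain ⟨K, rfl⟩ := h
  have hG0 : G ≠ 0 := left_ne_zero_of_mul hF0
  have hK0 : K ≠ 0 := right_ne_zero_of_mul hF0
  have hle : ∀ P : MvPolynomial σ k, P ≠ 0 → (P : MvPowerSeries σ k).order ≤ P.totalDegree := by
    intro P hP
    obtain ⟨d, hd⟩ := MvPolynomial.ne_zero_iff.1 hP
    have h1 : (P : MvPowerSeries σ k).order ≤ (d.degree : ℕ∞) :=
      MvPowerSeries.order_le (by simpa using hd)
    refine h1.trans ?_
    have h2 : d.degree ≤ P.totalDegree := by
      have := MvPolynomial.le_totalDegree (p := P) (s := d) (MvPolynomial.mem_support_iff.2 hd)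
      simpa [Finsupp.degree_apply, Finsupp.sum] using this
    exact_mod_cast h2
  have hmul : ((G * K : MvPolynomial σ k) : MvPowerSeries σ k).order =
      (G : MvPowerSeries σ k).order + (K : MvPowerSeries σ k).order := by
    rw [MvPolynomial.coe_mul, MvPowerSeries.order_mul]
  have hFo : (n : ℕ∞) ≤ ((G * K : MvPolynomial σ k) : MvPowerSeries σ k).order := by
    apply MvPowerSeries.nat_le_order
    intro d hd
    rw [MvPolynomial.coeff_coe]
    by_contra hne
    have := hF hne
    have h' : d.degree = n := by rw [← this, Finsupp.degree_eq_weight_one]; rfl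
    omega
  have hT : (G * K).totalDegree = n := hF.totalDegree hF0
  rw [MvPolynomial.totalDegree_mul_of_isDomain hG0 hK0] at hT
  have hGo := hle G hG0
  have hKo := hle K hK0
  rw [hmul] at hFo
  intro d hd
  have h1 : (G : MvPowerSeries σ k).order ≤ (d.degree : ℕ∞) :=
      MvPowerSeries.order_le (by simpa using hd)
  have h2 : d.degree ≤ G.totalDegree := by
      have := MvPolynomial.le_totalDegree (p := G) (s := d) (MvPolynomial.mem_support_iff.2 hd)
      simpa [Finsupp.degree_apply, Finsupp.sum] using this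
  have h3 : (n : ℕ∞) ≤ (d.degree : ℕ∞) + (K.totalDegree : ℕ∞) := hFo.trans (add_le_add h1 hKo)
  have h4 : n ≤ d.degree + K.totalDegree := by exact_mod_cast h3
  have h5 : d.degree = G.totalDegree := by omega
  rw [← h5, Finsupp.degree_eq_weight_one]
  rfl

variable {m : ℕ}

/-- all coefficients are forms of degree `D` -/
def HC {σ τ : Type} (G : MvPolynomial σ (MvPolynomial τ ℤ)) (D : ℕ) : Prop :=
  ∀ α, (coeff α G).IsHomogeneous D

theorem HC.mul {σ τ : Type} {G H : MvPolynomial σ (MvPolynomial τ ℤ)} {D E : ℕ}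
    (hG : HC G D) (hH : HC H E) : HC (G * H) (D + E) := by
  classical
  intro α
  rw [coeff_mul]
  exact IsHomogeneous.sum _ _ _ fun x _ => (hG x.1).mul (hH x.2)

theorem HC.pow {σ τ : Type} {G : MvPolynomial σ (MvPolynomial τ ℤ)} {D : ℕ}
    (hG : HC G D) (n : ℕ) : HC (G ^ n) (D * n) := by
  classical
  induction n with
  | zero =>
    intro α
    rw [pow_zero, coeff_one]
    split_ifs
    · exact isHomogeneous_one _ _
    · exact isHomogeneous_zero _ _ _
  | succ n ih =>
    rw [pow_succ, mul_add, mul_one]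
    exact ih.mul hG

theorem HC.prod {σ τ ι : Type} (s : Finset ι) {G : ι → MvPolynomial σ (MvPolynomial τ ℤ)}
    {D : ι → ℕ} (hG : ∀ i ∈ s, HC (G i) (D i)) : HC (∏ i ∈ s, G i) (∑ i ∈ s, D i) := by
  classical
  induction s using Finset.induction_on with
  | empty =>
    intro α
    rw [Finset.prod_empty, Finset.sum_empty, coeff_one]
    split_ifs
    · exact isHomogeneous_one _ _
    · exact isHomogeneous_zero _ _ _
  | insert a s ha ih =>
    rw [Finset.prod_insert ha, Finset.sum_insert ha]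
    exact (hG a (mem_insert_self _ _)).mul (ih fun i hi => hG i (mem_insert_of_mem hi))

theorem coeff_c_mul {σ τ : Type} (z : ℤ) (Q : MvPolynomial σ (MvPolynomial τ ℤ)) (α : σ →₀ ℕ) :
    coeff α ((algebraMap ℤ (MvPolynomial σ (MvPolynomial τ ℤ))) z * Q) =
      MvPolynomial.C z * coeff α Q := by
  have h3 : (algebraMap ℤ (MvPolynomial σ (MvPolynomial τ ℤ))) z =
      MvPolynomial.C (MvPolynomial.C z) := by
    rw [eq_intCast, eq_intCast (MvPolynomial.C : ℤ →+* MvPolynomial τ ℤ)]
    exact (map_intCast (MvPolynomial.C : MvPolynomial τ ℤ →+*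
      MvPolynomial σ (MvPolynomial τ ℤ)) _).symm
  rw [h3, coeff_C_mul]

theorem gc_hom {g : MvPolynomial (Fin m) ℤ} {D : ℕ} (hg : g.IsHomogeneous D) (α : Fin m →₀ ℕ) :
    (gc g α).IsHomogeneous D := by
  classical
  have h : HC (sb (mvPolynomialX (Fin m) (Fin m) ℤ) g) D := by
    unfold sb
    rw [aeval_def, eval₂_eq']
    intro α
    rw [coeff_sum]
    refine IsHomogeneous.sum _ _ _ fun β hβ => ?_
    have h1 : ∑ i, β i = D := by
      have := hg (mem_support_iff.1 hβ)
      rw [← this, Finsupp.weight_apply, Finsupp.sum_fintype _ _ (fun i => by simp)]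
      simp
    have h2 : HC (∏ k, (∑ i, MvPolynomial.C (mvPolynomialX (Fin m) (Fin m) ℤ i k) *
        (X i : MvPolynomial (Fin m) (MvPolynomial (Fin m × Fin m) ℤ))) ^ β k) (∑ k, 1 * β k) := by
      refine HC.prod _ fun k _ => HC.pow ?_ _
      intro γ
      rw [coeff_sum]
      refine IsHomogeneous.sum _ _ _ fun i _ => ?_
      rw [coeff_C_mul, coeff_X, mvPolynomialX_apply]
      split_ifs
      · rw [mul_one]
        exact isHomogeneous_X _ _
      · rw [mul_zero]
        exact isHomogeneous_zero _ _ _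
    simp only [one_mul] at h2
    rw [h1] at h2
    have h4 := (isHomogeneous_C (Fin m × Fin m) (coeff β g)).mul (h2 α)
    rw [zero_add] at h4
    exact (congrArg (fun z : MvPolynomial (Fin m × Fin m) ℤ => z.IsHomogeneous D)
      (coeff_c_mul (coeff β g) _ α)).mpr h4
  exact h α

theorem hom_scale' {R : Type} [CommRing R] {f : MvPolynomial (Fin m) ℤ} {D : ℕ}
    (hf : f.IsHomogeneous D) (v : Fin m → R) (S : MvPolynomial (Fin m) R) :
    aeval (fun k => MvPolynomial.C (v k) * S) f = MvPolynomial.C (aeval v f) * S ^ D := by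
  rw [aeval_def, eval₂_eq', aeval_def, eval₂_eq', map_sum, Finset.sum_mul]
  refine Finset.sum_congr rfl fun β hβ => ?_
  have h1 : ∑ i, β i = D := by
    have := hf (mem_support_iff.1 hβ)
    rw [← this, Finsupp.weight_apply, Finsupp.sum_fintype _ _ (fun i => by simp)]
    simp
  have h2 : ∏ i, (MvPolynomial.C (v i) * S) ^ β i =
      MvPolynomial.C (∏ i, (v i) ^ β i) * S ^ D := by
    rw [← h1, ← Finset.prod_pow_eq_pow_sum, map_prod, ← Finset.prod_mul_distrib]
    refine Finset.prod_congr rfl fun i _ => ?_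
    rw [mul_pow, map_pow]
  rw [h2, map_mul, mul_assoc]
  congr 1

theorem squarefree_gc {g : MvPolynomial (Fin m) ℤ} {D : ℕ} (hg : g.IsHomogeneous D)
    (hsq : Squarefree (MvPolynomial.map (algebraMap ℤ ℚ) g)) (α : Fin m →₀ ℕ)
    (hα : ∑ i, α i = D) : Squarefree (MvPolynomial.map (algebraMap ℤ ℚ) (gc g α)) := by
  classical
  have hg0 : g ≠ 0 := by
    intro h
    rw [h, map_zero] at hsq
    exact hsq.ne_zero rfl
  obtain ⟨G, hG⟩ : ∃ G, G = MvPolynomial.map (algebraMap ℤ ℚ) (gc g α) := ⟨_, rfl⟩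
  have hinj : Function.Injective (algebraMap ℤ ℚ) := by
    intro a b h
    simpa using h
  have hG0 : G ≠ 0 := by
    rw [hG]
    intro h
    exact gc_ne hg hg0 α hα (MvPolynomial.map_injective _ hinj (by rw [h, map_zero]))
  have hGh : G.IsHomogeneous D := by
    rw [hG]
    exact (gc_hom hg α).map _
  rw [← hG]
  intro h hdvd
  have hh0 : h ≠ 0 := by
    rintro rfl
    rw [zero_mul, zero_dvd_iff] at hdvd
    exact hG0 hdvd
  have hhh : h.IsHomogeneous h.totalDegree :=
    homog_of_dvd hGh hG0 ((dvd_mul_right h h).trans hdvd)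
  let ρ : MvPolynomial (Fin m × Fin m) ℚ →ₐ[ℚ] MvPolynomial (Fin m) ℚ :=
    aeval fun a : Fin m × Fin m => (X a.2 : MvPolynomial (Fin m) ℚ)
  have hρG : ρ G = MvPolynomial.map (algebraMap ℤ ℚ) g * ((α.multinomial : ℕ) : MvPolynomial (Fin m) ℚ) := by
    have e1 : ρ G = ev (R := MvPolynomial (Fin m) ℚ) (of fun _ k => X k) (gc g α) := by
      rw [hG]
      exact aeval_map_algebraMap ℚ _ _
    rw [e1, ev_gc]
    have e2 : sb (R := MvPolynomial (Fin m) ℚ) (of fun _ k => X k) g =
        MvPolynomial.C (aeval X g) * (∑ i, X i) ^ D := by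
      have h7 := hom_scale' hg (X : Fin m → MvPolynomial (Fin m) ℚ) (∑ i, X i)
      refine Eq.trans ?_ h7
      unfold sb
      congr 2
      funext k
      rw [Finset.mul_sum]
      rfl
    rw [e2, coeff_C_mul, coeff_sum_X_pow_of_fintype, if_pos]
    · congr 1
      rw [← aeval_map_algebraMap ℚ, aeval_X_left_apply]
    · rw [Finsupp.sum_fintype _ _ (fun _ => rfl), hα]
  have hmul : ρ h * ρ h ∣ MvPolynomial.map (algebraMap ℤ ℚ) g := by
    have h1 : ρ h * ρ h ∣ ρ G := by
      rw [← map_mul]
      exact map_dvd ρ hdvd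
    rw [hρG] at h1
    have hu : IsUnit ((α.multinomial : ℕ) : MvPolynomial (Fin m) ℚ) := by
      have h4 : ((α.multinomial : ℕ) : ℚ) ≠ 0 := by
        exact_mod_cast (Nat.multinomial_pos _ _).ne'
      have h5 : ((α.multinomial : ℕ) : MvPolynomial (Fin m) ℚ) =
          MvPolynomial.C ((α.multinomial : ℕ) : ℚ) := by
        rw [map_natCast]
      rw [h5]
      exact (isUnit_iff_ne_zero.2 h4).map MvPolynomial.C
    exact (hu.dvd_mul_right).1 h1
  have hunit := hsq _ hmul
  have hρh : (ρ h).IsHomogeneous h.totalDegree := by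
    have := hhh.aeval (fun a : Fin m × Fin m => (X a.2 : MvPolynomial (Fin m) ℚ)) (n := 1)
      (fun a => isHomogeneous_X _ _)
    rwa [one_mul] at this
  rw [MvPolynomial.isUnit_iff_eq_C_of_isReduced] at hunit
  obtain ⟨r, hr, hr'⟩ := hunit
  have hρ0 : ρ h ≠ 0 := by
    rw [hr']
    intro h0
    rw [map_eq_zero_iff _ (MvPolynomial.C_injective _ _)] at h0
    exact hr.ne_zero h0
  have hdeg : h.totalDegree = 0 := by
    have h1 : (ρ h).IsHomogeneous 0 := by
      rw [hr']
      exact isHomogeneous_C _ _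
    exact hρh.inj_right h1 hρ0
  rw [totalDegree_eq_zero_iff_eq_C] at hdeg
  rw [hdeg]
  refine (isUnit_iff_ne_zero.2 ?_).map MvPolynomial.C
  intro h0
  rw [h0, map_zero] at hdeg
  exact hh0 hdeg

end Pool.Agent.R433.WF
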