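import Pool.Agent.R433.SL.Count
import Pool.Agent.Y837.SV.Three2

/-! Weight vectors of the torus on the special linear group: level sets and pairs of level sets. -/

set_option autoImplicit false
set_option linter.unusedSectionVars false

namespace Pool.Agent.R433.WF

open Finset Matrix MvPolynomial
open Pool.Agent.R433.SL

section defs

variable {m d : ℕ} {R : Type} [CommRing R]

/-- the value of a polynomial in the entries at a matrix -/
noncomputable def ev (A : Matrix (Fin m) (Fin m) R) (F : MvPolynomial (Fin m × Fin m) ℤ) : R :=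
  aeval (fun a : Fin m × Fin m => A a.1 a.2) F

theorem aeval_ev (P : Matrix (Fin m) (Fin m) (MvPolynomial (Fin d) ℤ)) (x : Fin d → R)
    (F : MvPolynomial (Fin m × Fin m) ℤ) : aeval x (ev P F) = ev (P.map (aeval x)) F := by
  exact comp_aeval_apply _ (aeval x : MvPolynomial (Fin d) ℤ →ₐ[ℤ] R) F

theorem ev_mul (A : Matrix (Fin m) (Fin m) R) (F G : MvPolynomial (Fin m × Fin m) ℤ) :
    ev A (F * G) = ev A F * ev A G := map_mul _ _ _

theorem ev_pow (A : Matrix (Fin m) (Fin m) R) (F : MvPolynomial (Fin m × Fin m) ℤ) (n : ℕ) :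
    ev A (F ^ n) = ev A F ^ n := map_pow _ _ _

end defs

variable {m d q : ℕ} {C : ℝ}

/-- weight vectors: homogeneous in each row -/
def IsWt (F : MvPolynomial (Fin m × Fin m) ℤ) (w : Fin m → ℕ) : Prop :=
  ∀ (p : ℕ) [Fact p.Prime] (t : Fin m → ZMod p) (A : Matrix (Fin m) (Fin m) (ZMod p)),
    ev (diagonal t * A) F = (∏ a, t a ^ w a) * ev A F

/-- not identically zero modulo the large primes -/
def NZ (F : MvPolynomial (Fin m × Fin m) ℤ) : Prop :=
  ∃ B : ℕ, ∀ (p : ℕ) [Fact p.Prime], B < p → ∃ A : SpecialLinearGroup (Fin m) (ZMod p), ev A.1 F ≠ 0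

theorem prod_zpow_sum {G ι : Type} [CommGroup G] (l : G) (s : Finset ι) (c : ι → ℤ) :
    ∏ a ∈ s, l ^ c a = l ^ ∑ a ∈ s, c a := by
  classical
  induction s using Finset.induction_on with
  | empty => simp
  | insert a s ha ih => rw [Finset.prod_insert ha, Finset.sum_insert ha, _root_.zpow_add, ih]

/-- an element of the torus -/
def torc {F : Type} [Field F] (c : Fin m → ℤ) (hc : ∑ a, c a = 0) (l : Fˣ) :
    SpecialLinearGroup (Fin m) F :=
  ⟨diagonal fun a => ((l ^ c a : Fˣ) : F), by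
    rw [det_diagonal, ← Units.coe_prod, prod_zpow_sum, hc, zpow_zero, Units.val_one]⟩

theorem ev_torc {F : MvPolynomial (Fin m × Fin m) ℤ} {w : Fin m → ℕ} (hw : IsWt F w)
    (c : Fin m → ℤ) (hc : ∑ a, c a = 0) {p : ℕ} [Fact p.Prime] (l : (ZMod p)ˣ)
    (A : SpecialLinearGroup (Fin m) (ZMod p)) :
    ev (torc c hc l * A).1 F = ((l ^ (∑ a, c a * (w a : ℤ)) : (ZMod p)ˣ) : ZMod p) * ev A.1 F := by
  have h := hw p (fun a => ((l ^ c a : (ZMod p)ˣ) : ZMod p)) A.1
  have e1 : (torc c hc l * A).1 = diagonal (fun a => ((l ^ c a : (ZMod p)ˣ) : ZMod p)) * A.1 := rfl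
  rw [e1, h]
  congr 1
  rw [← prod_zpow_sum, Units.coe_prod]
  refine Finset.prod_congr rfl fun a _ => ?_
  rw [_root_.zpow_mul, zpow_natCast, Units.val_pow_eq_pow_val]

variable {P : Matrix (Fin m) (Fin m) (MvPolynomial (Fin d) ℤ)} {hdet : P.det = 1}

theorem aeval_sp {R : Type} [CommRing R] (F : MvPolynomial (Fin m × Fin m) ℤ) (x : Fin d → R) :
    aeval x (ev P F) = ev (sp P hdet x).1 F := aeval_ev P x F

/-- nonconstancy on the parametrised matrices -/
theorem nc (hC : 0 ≤ C) (hU : Unif P hdet q C) {F : MvPolynomial (Fin m × Fin m) ℤ} {w : Fin m → ℕ}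
    (hw : IsWt F w) (hnz : NZ F) (c : Fin m → ℤ) (hc : ∑ a, c a = 0)
    (hcw : ∑ a, c a * (w a : ℤ) ≠ 0) (k : ℤ) : ev P F ≠ MvPolynomial.C k := by
  intro h
  obtain ⟨B, hB⟩ := hnz
  obtain ⟨p, hp1, hp2⟩ := Nat.exists_infinite_primes (B + q + 3 + ⌈2 * C + 1⌉₊ +
    (∑ a, c a * (w a : ℤ)).natAbs)
  have : Fact p.Prime := ⟨hp2⟩
  have hval : ∀ A : SpecialLinearGroup (Fin m) (ZMod p), ev A.1 F = (k : ZMod p) := by
    intro A
    obtain ⟨x, hx⟩ := surj hC hU (by omega) ((Nat.le_ceil _).trans (by exact_mod_cast (by omega))) A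
    rw [← hx, ← aeval_sp (hdet := hdet), h, aeval_C]
    rfl
  obtain ⟨A, hA⟩ := hB p (by omega)
  obtain ⟨g, hg⟩ := IsCyclic.exists_generator (α := (ZMod p)ˣ)
  have h1 := ev_torc hw c hc g A
  rw [hval, hval] at h1
  rw [hval] at hA
  have h2 : ((g ^ (∑ a, c a * (w a : ℤ)) : (ZMod p)ˣ) : ZMod p) = 1 :=
    mul_right_cancel₀ hA (by rw [← h1, one_mul])
  have h3 : g ^ (∑ a, c a * (w a : ℤ)) = 1 := Units.ext (by rw [h2, Units.val_one])
  rw [← orderOf_dvd_iff_zpow_eq_one, orderOf_eq_card_of_forall_mem_zpowers hg,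
    Nat.card_eq_fintype_card, ZMod.card_units] at h3
  have h4 := Int.natAbs_dvd_natAbs.2 h3
  rw [Int.natAbs_natCast] at h4
  have h5 := Nat.le_of_dvd (Int.natAbs_pos.2 hcw) h4
  omega

/-- level sets of a nonconstant polynomial -/
theorem level (G : MvPolynomial (Fin d) ℤ) (hG : ∀ k, G ≠ MvPolynomial.C k) :
    ∃ K B : ℕ, ∀ (p : ℕ) [Fact p.Prime], B < p → ∀ r : ZMod p,
      ((univ.filter fun x : Fin d → ZMod p => aeval x G = r).card : ℝ) * p ≤ K * (p : ℝ) ^ d := by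
  obtain ⟨v, hv1, hv2⟩ := Pool.Agent.Y837.SV.nonconst_B G hG
  refine ⟨G.totalDegree, (eval v G - eval 0 G).natAbs, ?_⟩
  intro p hp hB r
  have h2 := Pool.Agent.Y837.SV.sz_count (p := p) (Pool.Agent.Y837.SV.rp p G)
    (Pool.Agent.Y837.SV.rp_degree G)
    (fun c => Pool.Agent.Y837.SV.rp_nonconst G v 0 (hv2 p hB) c) r
  simp only [Pool.Agent.Y837.SV.rp_eval] at h2
  exact h2

/-- level sets on the group -/
theorem levelG (hC : 0 ≤ C) (hU : Unif P hdet q C) (F : MvPolynomial (Fin m × Fin m) ℤ)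
    (hF : ∀ k, ev P F ≠ MvPolynomial.C k) :
    ∃ K B : ℕ, ∀ (p : ℕ) [Fact p.Prime], B < p → ∀ r : ZMod p,
      p * (univ.filter fun A : SpecialLinearGroup (Fin m) (ZMod p) => ev A.1 F = r).card ≤
        K * Fintype.card (SpecialLinearGroup (Fin m) (ZMod p)) := by
  classical
  obtain ⟨K, B, hKB⟩ := level _ hF
  refine ⟨2 * K, q + ⌈2 * C + 1⌉₊ + B, ?_⟩
  intro p hp hB r
  have hpp := (Fact.out : p.Prime)
  have h1 := hKB p (by omega) r
  have hpC : (2 * C + 1 : ℝ) ≤ p := (Nat.le_ceil _).trans (by exact_mod_cast (by omega))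
  have hε := eps_small hC hpC
  have h2 := low_count (hU p (by omega)) (fun A => ev A.1 F = r)
  have h3 : ∀ inst : DecidablePred fun x : Fin d → ZMod p => ev (sp P hdet x).1 F = r,
      @Finset.filter _ (fun x : Fin d → ZMod p => ev (sp P hdet x).1 F = r) inst univ =
      univ.filter (fun x : Fin d → ZMod p => aeval x (ev P F) = r) := fun inst => by
    ext x
    rw [mem_filter, mem_filter, aeval_sp (hdet := hdet)]
  rw [h3, Fintype.card_fun, ZMod.card, Fintype.card_fin] at h2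
  set n₀ : ℝ := ((univ.filter fun A : SpecialLinearGroup (Fin m) (ZMod p) => ev A.1 F = r).card : ℝ)
    with hn₀
  have hn : ∀ inst : DecidablePred fun A : SpecialLinearGroup (Fin m) (ZMod p) => ev A.1 F = r,
      ((@Finset.filter _ (fun A : SpecialLinearGroup (Fin m) (ZMod p) => ev A.1 F = r) inst
        univ).card : ℝ) = n₀ := fun inst => by
    rw [hn₀]
    congr!
  rw [hn] at h2
  set Z : ℝ := ((univ.filter (fun x : Fin d → ZMod p => aeval x (ev P F) = r)).card : ℝ) with hZ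
  set g₀ : ℝ := (Fintype.card (SpecialLinearGroup (Fin m) (ZMod p)) : ℝ) with hg₀
  have hg00 : 0 ≤ g₀ := Nat.cast_nonneg _
  have hn00 : 0 ≤ n₀ := Nat.cast_nonneg _
  have hp0 : (0 : ℝ) < p := by exact_mod_cast hpp.pos
  have hpd : (0 : ℝ) < (p : ℝ) ^ d := by positivity
  push_cast at h2
  have h4 : (p : ℝ) * n₀ * (p : ℝ) ^ d ≤ 2 * K * g₀ * (p : ℝ) ^ d := by
    have e1 : 1 / 2 * n₀ * (p : ℝ) ^ d ≤ (1 - C / (p : ℝ) ^ 2) * n₀ * (p : ℝ) ^ d := by
      apply mul_le_mul_of_nonneg_right _ hpd.le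
      apply mul_le_mul_of_nonneg_right _ hn00
      linarith
    have e2 : 1 / 2 * n₀ * (p : ℝ) ^ d ≤ g₀ * Z := e1.trans h2
    have e3 : g₀ * (Z * p) ≤ g₀ * (K * (p : ℝ) ^ d) :=
      mul_le_mul_of_nonneg_left h1 hg00
    have e4 : p * (1 / 2 * n₀ * (p : ℝ) ^ d) ≤ p * (g₀ * Z) := mul_le_mul_of_nonneg_left e2 hp0.le
    nlinarith
  have h5 := le_of_mul_le_mul_right h4 hpd
  rw [hn₀, hg₀] at h5
  exact_mod_cast h5

/-- equidistribution of the nonzero values -/
def EQ (F : MvPolynomial (Fin m × Fin m) ℤ) : Prop :=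
  ∃ K : ℝ, 0 ≤ K ∧ ∃ B : ℕ, ∀ (p : ℕ) [Fact p.Prime], B < p → ∀ r : ZMod p, r ≠ 0 →
    |(p : ℝ) * ((univ.filter fun A : SpecialLinearGroup (Fin m) (ZMod p) => ev A.1 F = r).card : ℝ) -
      Fintype.card (SpecialLinearGroup (Fin m) (ZMod p))| * Real.sqrt p ≤
      K * Fintype.card (SpecialLinearGroup (Fin m) (ZMod p))

theorem eq_of_wt (hC : 0 ≤ C) (hU : Unif P hdet q C) {F : MvPolynomial (Fin m × Fin m) ℤ}
    {w : Fin m → ℕ} (hw : IsWt F w) (hnz : NZ F) (c : Fin m → ℤ) (hc : ∑ a, c a = 0)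
    (hcw : ∑ a, c a * (w a : ℤ) = 1) : EQ F := by
  classical
  obtain ⟨K, B, hKB⟩ := levelG hC hU F (nc hC hU hw hnz c hc (by rw [hcw]; exact one_ne_zero))
  refine ⟨K + 2, by positivity, B + 1, ?_⟩
  intro p hp hB r hr
  have hpp := (Fact.out : p.Prime)
  have h0 := hKB p (by omega) 0
  have hφ : ∀ (l : (ZMod p)ˣ) (A : SpecialLinearGroup (Fin m) (ZMod p)),
      ev (torc c hc l * A).1 F = l * ev A.1 F := by
    intro l A
    rw [ev_torc hw c hc l A, hcw, zpow_one]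
  have h1 := scal_le (fun A : SpecialLinearGroup (Fin m) (ZMod p) => ev A.1 F) (fun _ => True)
    (fun l A => torc c hc l * A) (fun l => mul_right_injective _) hφ (fun _ _ _ => trivial) r hr
  have h2 := scal_ge (fun A : SpecialLinearGroup (Fin m) (ZMod p) => ev A.1 F)
    (fun l A => torc c hc l * A) (fun l => mul_right_injective _) hφ r hr
  have e1 : (univ.filter fun A : SpecialLinearGroup (Fin m) (ZMod p) => ev A.1 F = r ∧ True) =
      univ.filter fun A : SpecialLinearGroup (Fin m) (ZMod p) => ev A.1 F = r := by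
    ext A
    simp
  have e2 : (univ.filter fun _ : SpecialLinearGroup (Fin m) (ZMod p) => True).card =
      Fintype.card (SpecialLinearGroup (Fin m) (ZMod p)) := by
    rw [Finset.filter_true_of_mem (fun _ _ => trivial), Finset.card_univ]
  have h1' : (p - 1) * (univ.filter fun A : SpecialLinearGroup (Fin m) (ZMod p) =>
      ev A.1 F = r).card ≤ Fintype.card (SpecialLinearGroup (Fin m) (ZMod p)) := by
    rw [← e2, ← e1]
    rw [ZMod.card] at h1
    convert h1
  have h2' : Fintype.card (SpecialLinearGroup (Fin m) (ZMod p)) ≤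
      (univ.filter fun A : SpecialLinearGroup (Fin m) (ZMod p) => ev A.1 F = 0).card +
      (p - 1) * (univ.filter fun A : SpecialLinearGroup (Fin m) (ZMod p) => ev A.1 F = r).card := by
    rw [ZMod.card] at h2
    convert h2
  set N : ℝ := ((univ.filter fun A : SpecialLinearGroup (Fin m) (ZMod p) => ev A.1 F = r).card : ℝ)
    with hN
  set n₀ : ℝ := ((univ.filter fun A : SpecialLinearGroup (Fin m) (ZMod p) => ev A.1 F = 0).card : ℝ)
    with hn₀
  set G : ℝ := (Fintype.card (SpecialLinearGroup (Fin m) (ZMod p)) : ℝ) with hG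
  have hG0 : 0 ≤ G := Nat.cast_nonneg _
  have hN0 : 0 ≤ N := Nat.cast_nonneg _
  have hp2 : (2 : ℝ) ≤ p := by exact_mod_cast hpp.two_le
  have hsub : (((p - 1 : ℕ) : ℝ)) = p - 1 := by
    rw [Nat.cast_sub hpp.one_le, Nat.cast_one]
  have k0 : (p : ℝ) * n₀ ≤ K * G := by rw [hn₀, hG]; exact_mod_cast h0
  have k1 : ((p : ℝ) - 1) * N ≤ G := by rw [← hsub, hN, hG]; exact_mod_cast h1'
  have k2 : G ≤ n₀ + ((p : ℝ) - 1) * N := by rw [← hsub, hN, hG, hn₀]; exact_mod_cast h2'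
  have hs0 : 0 ≤ Real.sqrt p := Real.sqrt_nonneg _
  have hsq : Real.sqrt p * Real.sqrt p = p := Real.mul_self_sqrt (by linarith)
  have hs1 : Real.sqrt p ≤ p := by
    have : 1 ≤ Real.sqrt p := by rw [Real.one_le_sqrt]; linarith
    nlinarith
  have kN : (p : ℝ) * N ≤ 2 * G := by nlinarith
  have hup : ((p : ℝ) * N - G) * p ≤ (K + 2) * G := by
    have : 0 ≤ (K : ℝ) * G := by positivity
    nlinarith
  have hlo : (G - (p : ℝ) * N) * p ≤ (K + 2) * G := by
    have : G - (p : ℝ) * N ≤ n₀ := by linarith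
    nlinarith
  have habs : |(p : ℝ) * N - G| * p ≤ (K + 2) * G := by
    rcases abs_cases ((p : ℝ) * N - G) with ⟨h, -⟩ | ⟨h, -⟩
    · rw [h]
      exact hup
    · rw [h, neg_sub]
      exact hlo
  exact (mul_le_mul_of_nonneg_left hs1 (abs_nonneg _)).trans habs

/-- bound for a pair of level sets -/
def PB (F₁ F₂ : MvPolynomial (Fin m × Fin m) ℤ) : Prop :=
  ∃ K B : ℕ, ∀ (p : ℕ) [Fact p.Prime], B < p → ∀ r s : ZMod p, r ≠ 0 → s ≠ 0 →
    p * (p - 1) * (univ.filter fun A : SpecialLinearGroup (Fin m) (ZMod p) =>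
      ev A.1 F₁ = r ∧ ev A.1 F₂ = s).card ≤ K * Fintype.card (SpecialLinearGroup (Fin m) (ZMod p))

theorem PB.swap {F₁ F₂ : MvPolynomial (Fin m × Fin m) ℤ} (h : PB F₁ F₂) : PB F₂ F₁ := by
  obtain ⟨K, B, hKB⟩ := h
  refine ⟨K, B, fun p hp hB r s hr hs => ?_⟩
  have h1 := hKB p hB s r hs hr
  refine le_trans (le_of_eq ?_) h1
  congr 2
  ext A
  simp only [mem_filter, mem_univ, true_and]
  exact and_comm

theorem units_pow_le {p : ℕ} [Fact p.Prime] (a : ℕ) (ha : 0 < a) (y : ZMod p) :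
    (univ.filter fun l : (ZMod p)ˣ => (l : ZMod p) ^ a = y).card ≤ a := by
  classical
  have h1 : (univ.filter fun l : (ZMod p)ˣ => (l : ZMod p) ^ a = y).card ≤
      (Polynomial.nthRoots a y).toFinset.card := by
    apply Finset.card_le_card_of_injOn (fun l : (ZMod p)ˣ => (l : ZMod p))
    · intro l hl
      rw [Finset.mem_coe, mem_filter] at hl
      rw [Finset.mem_coe, Multiset.mem_toFinset, Polynomial.mem_nthRoots ha]
      exact hl.2
    · intro l _ l' _ h
      exact Units.ext h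
  exact h1.trans ((Multiset.toFinset_card_le _).trans (Polynomial.card_nthRoots a y))

theorem pair (hC : 0 ≤ C) (hU : Unif P hdet q C) {F₁ F₂ : MvPolynomial (Fin m × Fin m) ℤ}
    {w₁ w₂ : Fin m → ℕ} (hw₁ : IsWt F₁ w₁) (hw₂ : IsWt F₂ w₂)
    (h₁ : ∀ k, ev P F₁ ≠ MvPolynomial.C k) (h₂ : ∀ k, ev P F₂ ≠ MvPolynomial.C k)
    (c : Fin m → ℤ) (hc : ∑ a, c a = 0) (a b : ℕ) (ha : 0 < a)
    (hcw₁ : ∑ x, c x * (w₁ x : ℤ) = a) (hcw₂ : ∑ x, c x * (w₂ x : ℤ) = -(b : ℤ)) : PB F₁ F₂ := by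
  classical
  have hne : ∀ k, ev P (F₁ ^ b * F₂ ^ a) ≠ MvPolynomial.C k := by
    intro k h
    rw [ev_mul, ev_pow, ev_pow] at h
    have n₁ : ev P F₁ ≠ 0 := fun h' => h₁ 0 (by rw [h', map_zero])
    have n₂ : ev P F₂ ≠ 0 := fun h' => h₂ 0 (by rw [h', map_zero])
    have t₂ : 0 < (ev P F₂).totalDegree := by
      by_contra hcon
      exact h₂ _ (totalDegree_eq_zero_iff_eq_C.1 (by omega))
    obtain ⟨a', rfl⟩ : ∃ a', a = a' + 1 := ⟨a - 1, by omega⟩
    have h3 : (ev P F₁ ^ b * ev P F₂ ^ (a' + 1)).totalDegree = 0 := by rw [h, totalDegree_C]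
    rw [pow_succ, ← mul_assoc, totalDegree_mul_of_isDomain
      (mul_ne_zero (pow_ne_zero _ n₁) (pow_ne_zero _ n₂)) n₂] at h3
    omega
  obtain ⟨K, B, hKB⟩ := levelG hC hU _ hne
  refine ⟨a * K, B, ?_⟩
  intro p hp hB r s hr hs
  have hpp := (Fact.out : p.Prime)
  have h0 := hKB p hB (r ^ b * s ^ a)
  set S := univ.filter fun A : SpecialLinearGroup (Fin m) (ZMod p) => ev A.1 F₁ = r ∧ ev A.1 F₂ = s
    with hS
  set T := univ.filter fun A : SpecialLinearGroup (Fin m) (ZMod p) =>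
    ev A.1 (F₁ ^ b * F₂ ^ a) = r ^ b * s ^ a with hT
  let D : (ZMod p)ˣ × SpecialLinearGroup (Fin m) (ZMod p) → SpecialLinearGroup (Fin m) (ZMod p) :=
    fun z => torc c hc z.1 * z.2
  have e₁ : ∀ (l : (ZMod p)ˣ) (A : SpecialLinearGroup (Fin m) (ZMod p)),
      ev (torc c hc l * A).1 F₁ = (l : ZMod p) ^ a * ev A.1 F₁ := by
    intro l A
    rw [ev_torc hw₁ c hc l A, hcw₁, zpow_natCast, Units.val_pow_eq_pow_val]
  have e₂ : ∀ (l : (ZMod p)ˣ) (A : SpecialLinearGroup (Fin m) (ZMod p)),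
      (l : ZMod p) ^ b * ev (torc c hc l * A).1 F₂ = ev A.1 F₂ := by
    intro l A
    rw [ev_torc hw₂ c hc l A, hcw₂, ← mul_assoc, ← Units.val_pow_eq_pow_val, ← Units.val_mul,
      _root_.zpow_neg, zpow_natCast, mul_inv_cancel, Units.val_one, one_mul]
  have hmaps : ∀ z ∈ (univ : Finset (ZMod p)ˣ) ×ˢ S, D z ∈ T := by
    intro z hz
    rw [mem_product, hS, mem_filter] at hz
    rw [hT, mem_filter]
    refine ⟨mem_univ _, ?_⟩
    rw [ev_mul, ev_pow, ev_pow]
    have k1 := e₁ z.1 z.2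
    have k2 := e₂ z.1 z.2
    rw [hz.2.2.1] at k1
    rw [hz.2.2.2] at k2
    change ev (torc c hc z.1 * z.2).1 F₁ ^ b * ev (torc c hc z.1 * z.2).1 F₂ ^ a = r ^ b * s ^ a
    rw [k1, mul_pow, ← pow_mul, ← k2]
    ring
  have hfib : ∀ A ∈ ((univ : Finset (ZMod p)ˣ) ×ˢ S).image D,
      (((univ : Finset (ZMod p)ˣ) ×ˢ S).filter fun z => D z = A).card ≤ a := by
    intro A _
    refine le_trans ?_ (units_pow_le (p := p) a ha (ev A.1 F₁ / r))
    apply Finset.card_le_card_of_injOn (fun z => z.1)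
    · intro z hz
      rw [Finset.mem_coe, mem_filter, mem_product, hS, mem_filter] at hz
      rw [Finset.mem_coe, mem_filter]
      refine ⟨mem_univ _, ?_⟩
      have k1 := e₁ z.1 z.2
      rw [hz.1.2.2.1] at k1
      rw [eq_div_iff hr, ← k1]
      have : torc c hc z.1 * z.2 = A := hz.2
      rw [this]
    · intro z hz z' hz' h
      rw [Finset.mem_coe, mem_filter] at hz hz'
      simp only at h
      have k1 : torc c hc z.1 * z.2 = torc c hc z'.1 * z'.2 := hz.2.trans hz'.2.symm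
      rw [← h] at k1
      exact Prod.ext h (mul_right_injective _ k1)
  have h1 := Finset.card_le_mul_card_image (f := D) ((univ : Finset (ZMod p)ˣ) ×ˢ S) a hfib
  have h2 : (((univ : Finset (ZMod p)ˣ) ×ˢ S).image D).card ≤ T.card := by
    apply Finset.card_le_card
    intro A hA
    obtain ⟨z, hz, rfl⟩ := mem_image.1 hA
    exact hmaps z hz
  rw [card_product, card_univ, ZMod.card_units] at h1
  calc p * (p - 1) * S.card = p * ((p - 1) * S.card) := by ring
    _ ≤ p * (a * T.card) := Nat.mul_le_mul_left _ (h1.trans (Nat.mul_le_mul_left _ h2))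
    _ = a * (p * T.card) := by ring
    _ ≤ a * (K * Fintype.card (SpecialLinearGroup (Fin m) (ZMod p))) := Nat.mul_le_mul_left _ h0
    _ = _ := by ring

end Pool.Agent.R433.WF
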